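import Pool.Agent.H90.Moll1

/-!
# Contour shift for the smoothed sum
-/

namespace Pool.Agent.H90

open Complex MeasureTheory Set Filter Topology

/-- `Y₂^w - Y₁^w` -/
noncomputable def EE (Y₁ Y₂ : ℝ) (w : ℂ) : ℂ := (Y₂ : ℂ) ^ w - (Y₁ : ℂ) ^ w

lemma EE_zero (Y₁ Y₂ : ℝ) : EE Y₁ Y₂ 0 = 0 := by simp [EE]

lemma EE_differentiable (Y₁ Y₂ : ℝ) (h1 : 0 < Y₁) (h2 : 0 < Y₂) : Differentiable ℂ (EE Y₁ Y₂) := by
  unfold EE
  have h1' : (Y₁ : ℂ) ≠ 0 := by exact_mod_cast h1.ne'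
  have h2' : (Y₂ : ℂ) ≠ 0 := by exact_mod_cast h2.ne'
  intro w
  exact (differentiableAt_id.const_cpow (Or.inl h2')).sub (differentiableAt_id.const_cpow (Or.inl h1'))

lemma norm_EE_le (Y₁ Y₂ : ℝ) (h1 : 0 < Y₁) (h2 : 0 < Y₂) (w : ℂ) :
    ‖EE Y₁ Y₂ w‖ ≤ Y₂ ^ w.re + Y₁ ^ w.re := by
  unfold EE
  refine (norm_sub_le _ _).trans ?_
  rw [norm_cpow_vl _ h1, norm_cpow_vl _ h2]

/-- the integrand, with its removable singularity removed -/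
noncomputable def HH (Y₁ Y₂ : ℝ) (f : ℂ → ℂ) (w : ℂ) : ℂ := dslope (EE Y₁ Y₂) 0 w * dslope f 0 w

lemma HH_of_ne (Y₁ Y₂ : ℝ) (f : ℂ → ℂ) (w : ℂ) (hw : w ≠ 0) :
    HH Y₁ Y₂ f w = EE Y₁ Y₂ w * (f w - f 0) * (1 / w ^ 2) := by
  unfold HH
  rw [dslope_of_ne _ hw, dslope_of_ne _ hw, slope_def_field, slope_def_field, EE_zero, sub_zero,
    sub_zero]
  field_simp

lemma HH_vl (Y₁ Y₂ σ u : ℝ) (hσ : σ ≠ 0) (f : ℂ → ℂ) :
    HH Y₁ Y₂ f (vl σ u) = KK Y₁ Y₂ σ u * (f (vl σ u) - f 0) := by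
  rw [HH_of_ne _ _ _ _ (vl_ne σ u hσ)]
  unfold KK EE
  ring

lemma norm_HH_le (Y₁ Y₂ : ℝ) (h1 : 0 < Y₁) (h2 : 0 < Y₂) (f : ℂ → ℂ) (w : ℂ) (M r E : ℝ) (hr : 0 < r)
    (hwr : r ≤ ‖w‖) (hM : ‖f w - f 0‖ ≤ M) (hE : Y₂ ^ w.re + Y₁ ^ w.re ≤ E) :
    ‖HH Y₁ Y₂ f w‖ ≤ E * M * (1 / r ^ 2) := by
  have hw : w ≠ 0 := by
    intro h; rw [h, norm_zero] at hwr; linarith
  have hM0 : 0 ≤ M := (norm_nonneg _).trans hM
  have hE0 : 0 ≤ E := le_trans (by positivity) hE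
  rw [HH_of_ne _ _ _ _ hw, norm_mul, norm_mul, norm_div, norm_one, norm_pow]
  have h3 : ‖EE Y₁ Y₂ w‖ ≤ E := (norm_EE_le Y₁ Y₂ h1 h2 w).trans hE
  have h4 : 1 / ‖w‖ ^ 2 ≤ 1 / r ^ 2 := by
    apply one_div_le_one_div_of_le (by positivity)
    gcongr
  gcongr

/-- the contour shift over the rectangle -/
lemma rect_shift (Y₁ Y₂ σ η T : ℝ) (h1 : 0 < Y₁) (h2 : 0 < Y₂) (hσ : 0 < σ) (hη : 0 < η) (hT : 0 < T)
    (f : ℂ → ℂ) (hf : DifferentiableOn ℂ f (Icc (-η) σ ×ℂ Icc (-T) T)) :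
    (∫ u in (-T)..T, HH Y₁ Y₂ f (vl σ u)) = (∫ u in (-T)..T, HH Y₁ Y₂ f (vl (-η) u)) +
      I * ((∫ x in (-η)..σ, HH Y₁ Y₂ f (x - T * I)) - ∫ x in (-η)..σ, HH Y₁ Y₂ f (x + T * I)) := by
  have hR : Icc (-η) σ ×ℂ Icc (-T) T ∈ 𝓝 (0 : ℂ) := by
    have h3 : Ioo (-η) σ ×ℂ Ioo (-T) T ∈ 𝓝 (0 : ℂ) := by
      apply (isOpen_Ioo.reProdIm isOpen_Ioo).mem_nhds
      rw [Complex.mem_reProdIm]
      simp only [Complex.zero_re, Complex.zero_im, mem_Ioo]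
      exact ⟨⟨by linarith, hσ⟩, ⟨by linarith, hT⟩⟩
    refine mem_of_superset h3 ?_
    intro w hw
    rw [Complex.mem_reProdIm] at hw ⊢
    exact ⟨Ioo_subset_Icc_self hw.1, Ioo_subset_Icc_self hw.2⟩
  have hH : DifferentiableOn ℂ (HH Y₁ Y₂ f) (Icc (-η) σ ×ℂ Icc (-T) T) := by
    unfold HH
    exact ((Complex.differentiableOn_dslope hR).mpr (EE_differentiable Y₁ Y₂ h1 h2).differentiableOn).mul
      ((Complex.differentiableOn_dslope hR).mpr hf)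
  have key := Complex.integral_boundary_rect_eq_zero_of_differentiableOn (HH Y₁ Y₂ f)
    (⟨-η, -T⟩ : ℂ) (⟨σ, T⟩ : ℂ) (by
      simp only
      rw [uIcc_of_le (by linarith : -η ≤ σ), uIcc_of_le (by linarith : -T ≤ T)]
      exact hH)
  simp only [smul_eq_mul] at key
  have e1 : ∀ x : ℝ, ((x : ℂ) + ((-T : ℝ) : ℂ) * I) = (x : ℂ) - T * I := by
    intro x; push_cast; ring
  simp_rw [e1] at key
  have e2 : ∀ y : ℝ, (((-η : ℝ) : ℂ) + y * I) = vl (-η) y := fun y => rfl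
  have e3 : ∀ y : ℝ, ((σ : ℂ) + y * I) = vl σ y := fun y => rfl
  simp_rw [e2, e3] at key
  have hI : I * I = -1 := Complex.I_mul_I
  have h5 : I * (∫ u in (-T)..T, HH Y₁ Y₂ f (vl σ u)) = I * (∫ u in (-T)..T, HH Y₁ Y₂ f (vl (-η) u)) -
      ((∫ x in (-η)..σ, HH Y₁ Y₂ f (x - T * I)) - ∫ x in (-η)..σ, HH Y₁ Y₂ f (x + T * I)) := by
    linear_combination key
  linear_combination (-I) * h5 + ((∫ u in (-T)..T, HH Y₁ Y₂ f (vl σ u)) -
    (∫ u in (-T)..T, HH Y₁ Y₂ f (vl (-η) u))) * hI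

/-- tail of the integral on the right line -/
lemma tail_bound (g : ℝ → ℂ) (hg : Integrable g) (T c : ℝ) (hT : 0 < T) (_hc : 0 ≤ c)
    (hb : ∀ u, T ≤ |u| → ‖g u‖ ≤ c / u ^ 2) :
    ‖(∫ u, g u) - ∫ u in (-T)..T, g u‖ ≤ 2 * c / T := by
  have h1 := MeasureTheory.integral_add_compl (s := Ioc (-T) T) measurableSet_Ioc hg
  rw [intervalIntegral.integral_of_le (by linarith : -T ≤ T)]
  have h2 : (∫ u, g u) - ∫ u in Ioc (-T) T, g u = ∫ u in (Ioc (-T) T)ᶜ, g u := by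
    rw [← h1]; ring
  rw [h2]
  have h3 : (Ioc (-T) T)ᶜ = Iic (-T) ∪ Ioi T := by
    ext u
    simp only [mem_compl_iff, mem_Ioc, mem_union, mem_Iic, mem_Ioi, not_and_or, not_lt, not_le]
  have hdisj : Disjoint (Iic (-T)) (Ioi T) := by
    rw [Set.disjoint_left]
    intro u hu hu'
    rw [mem_Iic] at hu
    rw [mem_Ioi] at hu'
    linarith
  rw [h3, setIntegral_union hdisj measurableSet_Ioi hg.integrableOn hg.integrableOn]
  -- the comparison function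
  have hint : IntegrableOn (fun u : ℝ => c * u ^ (-2 : ℝ)) (Ioi T) :=
    (integrableOn_Ioi_rpow_of_lt (by norm_num) hT).const_mul c
  have hval : ∫ u in Ioi T, c * u ^ (-2 : ℝ) = c / T := by
    rw [integral_const_mul, integral_Ioi_rpow_of_lt (by norm_num) hT]
    norm_num
    rw [Real.rpow_neg_one]
    rfl
  have hr : ‖∫ u in Ioi T, g u‖ ≤ c / T := by
    rw [← hval]
    refine norm_integral_le_of_norm_le hint ?_
    filter_upwards [ae_restrict_mem measurableSet_Ioi] with u hu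
    rw [mem_Ioi] at hu
    have h4 := hb u (by rw [abs_of_pos (by linarith)]; exact hu.le)
    refine h4.trans (le_of_eq ?_)
    rw [Real.rpow_neg (by linarith), div_eq_mul_inv]
    norm_cast
  have hl : ‖∫ u in Iic (-T), g u‖ ≤ c / T := by
    have e : ∫ u in Iic (-T), g u = ∫ u in Ioi T, g (-u) := by
      have := integral_comp_neg_Iic (-T) (fun u => g (-u))
      simp only [neg_neg] at this
      exact this
    rw [e, ← hval]
    refine norm_integral_le_of_norm_le hint ?_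
    filter_upwards [ae_restrict_mem measurableSet_Ioi] with u hu
    rw [mem_Ioi] at hu
    have h4 := hb (-u) (by rw [abs_neg, abs_of_pos (by linarith)]; exact hu.le)
    refine h4.trans (le_of_eq ?_)
    rw [Real.rpow_neg (by linarith), div_eq_mul_inv, neg_sq]
    norm_cast
  calc _ ≤ ‖∫ u in Iic (-T), g u‖ + ‖∫ u in Ioi T, g u‖ := norm_add_le _ _
    _ ≤ c / T + c / T := add_le_add hl hr
    _ = _ := by ring

/-- **Contour shift bound.** -/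
theorem shift_bound (Y₁ Y₂ σ η T M M0 : ℝ) (h1 : 1 ≤ Y₁) (h12 : Y₁ ≤ Y₂) (hσ : 0 < σ) (hη : 0 < η)
    (hT : 0 < T) (f : ℂ → ℂ) (hf : DifferentiableOn ℂ f (Icc (-η) σ ×ℂ Icc (-T) T))
    (hM : ∀ w ∈ Icc (-η) σ ×ℂ Icc (-T) T, ‖f w - f 0‖ ≤ M)
    (hM0 : ∀ u, ‖f (vl σ u) - f 0‖ ≤ M0)
    (hint : Integrable (fun u : ℝ => KK Y₁ Y₂ σ u * (f (vl σ u) - f 0))) :
    ‖∫ u : ℝ, KK Y₁ Y₂ σ u * (f (vl σ u) - f 0)‖ ≤
      2 * (2 * Y₂ ^ σ * M0) / T + 2 * (σ + η) * (2 * Y₂ ^ σ * M * (1 / T ^ 2)) +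
        2 * T * (2 * Y₁ ^ (-η) * M * (1 / η ^ 2)) := by
  have hY1 : 0 < Y₁ := by linarith
  have hY2 : 0 < Y₂ := by linarith
  have hM00 : 0 ≤ M0 := (norm_nonneg _).trans (hM0 0)
  have hYσ : Y₁ ^ σ ≤ Y₂ ^ σ := Real.rpow_le_rpow hY1.le h12 hσ.le
  have htail := tail_bound _ hint T (2 * Y₂ ^ σ * M0) hT (by positivity) (by
    intro u hu
    rw [norm_mul]
    have hu2 : 0 < u ^ 2 := by
      have : u ≠ 0 := by
        intro h; rw [h, abs_zero] at hu; linarith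
      positivity
    have h3 : ‖KK Y₁ Y₂ σ u‖ ≤ 2 * Y₂ ^ σ * (1 / u ^ 2) := by
      refine (KK_norm_le Y₁ Y₂ σ u hY1 hY2).trans ?_
      rw [norm_div, norm_one, norm_pow, norm_vl_sq]
      have h4 : 1 / (σ ^ 2 + u ^ 2) ≤ 1 / u ^ 2 := by
        apply one_div_le_one_div_of_le hu2
        nlinarith [sq_nonneg σ]
      have h5 : Y₂ ^ σ + Y₁ ^ σ ≤ 2 * Y₂ ^ σ := by linarith
      gcongr
    calc ‖KK Y₁ Y₂ σ u‖ * ‖f (vl σ u) - f 0‖ ≤ (2 * Y₂ ^ σ * (1 / u ^ 2)) * M0 := by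
          gcongr
          exact hM0 u
      _ = _ := by ring)
  have hmid : (∫ u in (-T)..T, KK Y₁ Y₂ σ u * (f (vl σ u) - f 0)) =
      ∫ u in (-T)..T, HH Y₁ Y₂ f (vl σ u) := by
    congr 1
    funext u
    rw [HH_vl _ _ _ _ hσ.ne']
  rw [hmid, rect_shift Y₁ Y₂ σ η T hY1 hY2 hσ hη hT f hf] at htail
  -- left side
  have hleft : ‖∫ u in (-T)..T, HH Y₁ Y₂ f (vl (-η) u)‖ ≤
      2 * T * (2 * Y₁ ^ (-η) * M * (1 / η ^ 2)) := by
    have h3 : ∀ u ∈ uIoc (-T) T, ‖HH Y₁ Y₂ f (vl (-η) u)‖ ≤ 2 * Y₁ ^ (-η) * M * (1 / η ^ 2) := by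
      intro u hu
      rw [uIoc_of_le (by linarith)] at hu
      apply norm_HH_le Y₁ Y₂ hY1 hY2 f _ M η _ hη
      · have h4 := norm_vl_sq (-η) u
        have h5 : η ^ 2 ≤ ‖vl (-η) u‖ ^ 2 := by rw [h4]; nlinarith [sq_nonneg u]
        exact (sq_le_sq₀ hη.le (norm_nonneg _)).mp h5
      · apply hM
        rw [Complex.mem_reProdIm]
        simp only [vl_re, vl_im, mem_Icc]
        exact ⟨⟨le_rfl, by linarith⟩, ⟨hu.1.le, hu.2⟩⟩
      · rw [vl_re]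
        have : Y₂ ^ (-η) ≤ Y₁ ^ (-η) := Real.rpow_le_rpow_of_nonpos hY1 h12 (by linarith)
        linarith
    refine (intervalIntegral.norm_integral_le_of_norm_le_const h3).trans (le_of_eq ?_)
    rw [abs_of_pos (by linarith)]
    ring
  -- horizontal sides
  have hhor : ∀ w : ℝ → ℂ, (∀ x, (w x).re = x) → (∀ x, |(w x).im| = T) →
      ‖∫ x in (-η)..σ, HH Y₁ Y₂ f (w x)‖ ≤ (σ + η) * (2 * Y₂ ^ σ * M * (1 / T ^ 2)) := by
    intro w hwre hwim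
    have h3 : ∀ x ∈ uIoc (-η) σ, ‖HH Y₁ Y₂ f (w x)‖ ≤ 2 * Y₂ ^ σ * M * (1 / T ^ 2) := by
      intro x hx
      rw [uIoc_of_le (by linarith)] at hx
      apply norm_HH_le Y₁ Y₂ hY1 hY2 f _ M T _ hT
      · rw [← hwim x]; exact Complex.abs_im_le_norm _
      · apply hM
        rw [Complex.mem_reProdIm, hwre]
        have := abs_le.mp (hwim x).le
        exact ⟨⟨hx.1.le, hx.2⟩, this⟩
      · rw [hwre]
        have h4 : Y₂ ^ x ≤ Y₂ ^ σ := Real.rpow_le_rpow_of_exponent_le (h1.trans h12) hx.2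
        have h5 : Y₁ ^ x ≤ Y₁ ^ σ := Real.rpow_le_rpow_of_exponent_le h1 hx.2
        linarith
    refine (intervalIntegral.norm_integral_le_of_norm_le_const h3).trans (le_of_eq ?_)
    rw [abs_of_pos (by linarith)]
    ring
  have hh1 := hhor (fun x => (x : ℂ) - T * I) (by intro x; simp) (by
    intro x; simp [abs_of_pos hT])
  have hh2 := hhor (fun x => (x : ℂ) + T * I) (by intro x; simp) (by
    intro x; simp [abs_of_pos hT])
  set A := ∫ u : ℝ, KK Y₁ Y₂ σ u * (f (vl σ u) - f 0)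
  set B := ∫ u in (-T)..T, HH Y₁ Y₂ f (vl (-η) u)
  set C1 := ∫ x in (-η)..σ, HH Y₁ Y₂ f (x - T * I)
  set C2 := ∫ x in (-η)..σ, HH Y₁ Y₂ f (x + T * I)
  have h7 : ‖A‖ ≤ ‖A - (B + I * (C1 - C2))‖ + (‖B‖ + (‖C1‖ + ‖C2‖)) := by
    calc ‖A‖ = ‖(A - (B + I * (C1 - C2))) + (B + I * (C1 - C2))‖ := by congr 1; ring
      _ ≤ ‖A - (B + I * (C1 - C2))‖ + ‖B + I * (C1 - C2)‖ := norm_add_le _ _
      _ ≤ _ := by
        gcongr
        refine (norm_add_le _ _).trans ?_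
        gcongr
        rw [norm_mul, Complex.norm_I, one_mul]
        exact norm_sub_le _ _
  linarith

end Pool.Agent.H90
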