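import Mathlib

/-!
# Bounds for Dirichlet L-functions to the right of `Re s = 0`
-/

namespace Pool.Agent.H90

open Complex Metric Set Filter Topology MeasureTheory Finset

/-- `∫_1^∞ B(t) t^(-s-1) dt`. -/
noncomputable def JJ (B : ℝ → ℂ) (s : ℂ) : ℂ := ∫ t in Set.Ioi (1 : ℝ), B t * (t : ℂ) ^ (-(s + 1))

lemma JJ_differentiableAt (B : ℝ → ℂ) (hm : Measurable B) (K : ℝ) (hK : ∀ t, ‖B t‖ ≤ K) (s : ℂ)
    (hs : 0 < s.re) : DifferentiableAt ℂ (JJ B) s := by
  have hK0 : 0 ≤ K := (norm_nonneg _).trans (hK 0)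
  set f : ℝ → ℂ := (Set.Ioi (1 : ℝ)).indicator B with hf
  have hfm : Measurable f := hm.indicator measurableSet_Ioi
  have hfK : ∀ t, ‖f t‖ ≤ K := by
    intro t
    simp only [hf]
    by_cases ht : t ∈ Set.Ioi (1 : ℝ)
    · rw [Set.indicator_of_mem ht]; exact hK t
    · rw [Set.indicator_of_notMem ht]; simpa using hK0
  have heq : JJ B = fun s => mellin f (-s) := by
    funext s
    unfold JJ mellin
    rw [← integral_indicator measurableSet_Ioi, ← integral_indicator measurableSet_Ioi]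
    congr 1
    funext t
    by_cases ht : t ∈ Set.Ioi (1 : ℝ)
    · have ht0 : t ∈ Set.Ioi (0 : ℝ) := by
        simp only [Set.mem_Ioi] at ht ⊢; linarith
      rw [Set.indicator_of_mem ht, Set.indicator_of_mem ht0]
      simp only [hf]
      rw [Set.indicator_of_mem ht, smul_eq_mul, mul_comm]
      congr 2
      ring
    · rw [Set.indicator_of_notMem ht]
      by_cases ht0 : t ∈ Set.Ioi (0 : ℝ)
      · rw [Set.indicator_of_mem ht0]
        simp only [hf]
        rw [Set.indicator_of_notMem ht, smul_zero]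
      · rw [Set.indicator_of_notMem ht0]
  rw [heq]
  have hli : LocallyIntegrableOn f (Set.Ioi 0) := by
    apply LocallyIntegrable.locallyIntegrableOn
    apply MeasureTheory.LocallyIntegrable.mono (locallyIntegrable_const K) hfm.aestronglyMeasurable
    filter_upwards with t
    rw [Real.norm_eq_abs, abs_of_nonneg hK0]
    exact hfK t
  have htop : f =O[atTop] (fun t : ℝ => t ^ (-(0 : ℝ))) := by
    apply Asymptotics.IsBigO.of_bound K
    filter_upwards with t
    simpa using hfK t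
  have hbot : f =O[𝓝[>] 0] (fun t : ℝ => t ^ (-(-(s.re) - 1))) := by
    apply Asymptotics.IsBigO.of_bound 0
    have : Set.Ioo (0 : ℝ) 1 ∈ 𝓝[>] (0 : ℝ) := Ioo_mem_nhdsGT one_pos
    filter_upwards [this] with t ht
    have : t ∉ Set.Ioi (1 : ℝ) := by simp only [Set.mem_Ioi, not_lt]; exact ht.2.le
    simp only [hf]
    rw [Set.indicator_of_notMem this]
    simp
  have h1 : DifferentiableAt ℂ (mellin f) (-s) :=
    mellin_differentiableAt_of_isBigO_rpow (a := 0) (b := -(s.re) - 1) hli htop (by simpa using hs)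
      hbot (by simp)
  exact h1.comp s (differentiableAt_id.neg)

lemma JJ_norm_le (B : ℝ → ℂ) (K : ℝ) (hK : ∀ t, ‖B t‖ ≤ K) (N : ℝ) (hN : 1 ≤ N)
    (hBN : ∀ t, t < N → B t = 0) (s : ℂ) (hs : 0 < s.re) :
    ‖JJ B s‖ ≤ K * N ^ (-s.re) / s.re := by
  have hK0 : 0 ≤ K := (norm_nonneg _).trans (hK 0)
  have hN0 : 0 < N := by linarith
  have hint : IntegrableOn (fun t : ℝ => t ^ (-s.re - 1)) (Set.Ioi N) :=
    integrableOn_Ioi_rpow_of_lt (by linarith) hN0
  have hval : ∫ t in Set.Ioi N, t ^ (-s.re - 1) = N ^ (-s.re) / s.re := by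
    rw [integral_Ioi_rpow_of_lt (by linarith) hN0]
    have : -s.re - 1 + 1 = -s.re := by ring
    rw [this, neg_div_neg_eq]
  have hintK : IntegrableOn (fun t : ℝ => K * t ^ (-s.re - 1)) (Set.Ici N) := by
    rw [integrableOn_Ici_iff_integrableOn_Ioi]
    exact hint.const_mul K
  have hset : (Set.Ioi (1 : ℝ) ∩ Set.Ici N : Set ℝ) =ᵐ[volume] Set.Ioi N := by
    rcases eq_or_lt_of_le hN with h | h
    · have : (Set.Ioi (1 : ℝ) ∩ Set.Ici N : Set ℝ) = Set.Ioi N := by
        ext t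
        simp only [Set.mem_inter_iff, Set.mem_Ioi, Set.mem_Ici]
        constructor
        · rintro ⟨h1, h2⟩; linarith
        · intro h1; exact ⟨by linarith, by linarith⟩
      exact Filter.EventuallyEq.of_eq this
    · have : (Set.Ioi (1 : ℝ) ∩ Set.Ici N : Set ℝ) = Set.Ici N := by
        ext t
        simp only [Set.mem_inter_iff, Set.mem_Ioi, Set.mem_Ici]
        constructor
        · rintro ⟨h1, h2⟩; linarith
        · intro h1; exact ⟨by linarith, by linarith⟩
      rw [this]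
      exact Ioi_ae_eq_Ici.symm
  unfold JJ
  calc ‖∫ t in Set.Ioi (1 : ℝ), B t * (t : ℂ) ^ (-(s + 1))‖
      ≤ ∫ t in Set.Ioi (1 : ℝ), (Set.Ici N).indicator (fun t => K * t ^ (-s.re - 1)) t := by
        apply norm_integral_le_of_norm_le
        · exact ((integrable_indicator_iff measurableSet_Ici).mpr hintK).restrict
        · filter_upwards [ae_restrict_mem measurableSet_Ioi] with t ht
          have ht0 : 0 < t := by simp only [Set.mem_Ioi] at ht; linarith
          by_cases htN : t ∈ Set.Ici N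
          · rw [Set.indicator_of_mem htN, norm_mul, Complex.norm_cpow_eq_rpow_re_of_pos ht0]
            have : (-(s + 1)).re = -s.re - 1 := by simp; ring
            rw [this]
            gcongr
            exact hK t
          · rw [Set.indicator_of_notMem htN, hBN t (by simpa using htN)]
            simp
    _ = ∫ t in Set.Ioi N, K * t ^ (-s.re - 1) := by
        rw [setIntegral_indicator measurableSet_Ici]
        exact setIntegral_congr_set hset
    _ = K * N ^ (-s.re) / s.re := by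
        rw [integral_const_mul, hval]; ring

lemma JJ_integrable (B : ℝ → ℂ) (hm : Measurable B) (K : ℝ) (hK : ∀ t, ‖B t‖ ≤ K) (s : ℂ)
    (hs : 0 < s.re) :
    IntegrableOn (fun t : ℝ => B t * (t : ℂ) ^ (-(s + 1))) (Set.Ioi 1) := by
  have hint : IntegrableOn (fun t : ℝ => K * t ^ (-s.re - 1)) (Set.Ioi 1) :=
    (integrableOn_Ioi_rpow_of_lt (by linarith) one_pos).const_mul K
  refine Integrable.mono' hint ?_ ?_
  · apply Measurable.aestronglyMeasurable
    apply hm.mul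
    exact (Complex.measurable_ofReal).pow_const _
  · filter_upwards [ae_restrict_mem measurableSet_Ioi] with t ht
    have ht0 : 0 < t := by simp only [Set.mem_Ioi] at ht; linarith
    rw [norm_mul, Complex.norm_cpow_eq_rpow_re_of_pos ht0]
    have : (-(s + 1)).re = -s.re - 1 := by simp; ring
    rw [this]
    gcongr
    exact hK t

/-! ### Partial sums of periodic functions -/

lemma sum_range_zmod (q : ℕ) [NeZero q] (F : ZMod q → ℂ) :
    ∑ k ∈ range q, F (k : ZMod q) = ∑ x : ZMod q, F x := by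
  refine Finset.sum_bij' (fun k _ => (k : ZMod q)) (fun x _ => x.val) (by simp) ?_ ?_ ?_ (by simp)
  · intro x _
    exact Finset.mem_range.mpr (ZMod.val_lt x)
  · intro k hk
    exact ZMod.val_cast_of_lt (Finset.mem_range.mp hk)
  · intro x _
    exact ZMod.natCast_zmod_val x

lemma sum_range_periodic (q : ℕ) [NeZero q] (F : ZMod q → ℂ) (n : ℕ) :
    ∑ k ∈ range n, F (k : ZMod q) =
      (n / q : ℕ) * ∑ x : ZMod q, F x + ∑ k ∈ range (n % q), F (k : ZMod q) := by
  have key : ∀ m r : ℕ, ∑ k ∈ range (q * m + r), F (k : ZMod q) =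
      m * ∑ x : ZMod q, F x + ∑ k ∈ range r, F (k : ZMod q) := by
    intro m
    induction m with
    | zero => intro r; simp
    | succ m ih =>
      intro r
      have h1 : q * (m + 1) + r = q * m + (q + r) := by ring
      rw [h1, ih (q + r), Finset.sum_range_add, sum_range_zmod]
      have h2 : ∀ k ∈ range r, F ((q + k : ℕ) : ZMod q) = F (k : ZMod q) := by
        intro k _
        congr 1
        push_cast
        simp
      rw [Finset.sum_congr rfl h2]
      push_cast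
      ring
  have h := key (n / q) (n % q)
  rw [Nat.div_add_mod] at h
  exact h

lemma norm_sum_range_periodic (q : ℕ) [NeZero q] (F : ZMod q → ℂ) (hF : ∀ x, ‖F x‖ ≤ 1) (n : ℕ) :
    ‖∑ k ∈ range n, F (k : ZMod q) - (∑ x : ZMod q, F x) / q * n‖ ≤ 2 * q := by
  have hq : 0 < q := Nat.pos_of_ne_zero (NeZero.ne q)
  have hq' : (q : ℂ) ≠ 0 := by exact_mod_cast hq.ne'
  have hn : (n : ℂ) = q * (n / q : ℕ) + (n % q : ℕ) := by
    exact_mod_cast (Nat.div_add_mod n q).symm
  have hmod : n % q < q := Nat.mod_lt _ hq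
  have hS : ‖∑ x : ZMod q, F x‖ ≤ q := by
    calc ‖∑ x : ZMod q, F x‖ ≤ ∑ x : ZMod q, ‖F x‖ := norm_sum_le _ _
      _ ≤ ∑ x : ZMod q, (1 : ℝ) := Finset.sum_le_sum fun x _ => hF x
      _ = q := by simp [ZMod.card]
  have hr : ‖∑ k ∈ range (n % q), F (k : ZMod q)‖ ≤ q := by
    calc ‖∑ k ∈ range (n % q), F (k : ZMod q)‖ ≤ ∑ k ∈ range (n % q), ‖F (k : ZMod q)‖ :=
          norm_sum_le _ _
      _ ≤ ∑ k ∈ range (n % q), (1 : ℝ) := Finset.sum_le_sum fun x _ => hF x
      _ = (n % q : ℕ) := by simp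
      _ ≤ q := by exact_mod_cast hmod.le
  have e : ∑ k ∈ range n, F (k : ZMod q) - (∑ x : ZMod q, F x) / q * n =
      ∑ k ∈ range (n % q), F (k : ZMod q) - (∑ x : ZMod q, F x) * ((n % q : ℕ) / q) := by
    rw [sum_range_periodic q F n, hn]
    field_simp
    ring
  rw [e]
  have h3 : ‖((n % q : ℕ) / q : ℂ)‖ ≤ 1 := by
    rw [norm_div, Complex.norm_natCast, Complex.norm_natCast, div_le_one (by exact_mod_cast hq)]
    exact_mod_cast hmod.le
  calc _ ≤ ‖∑ k ∈ range (n % q), F (k : ZMod q)‖ + ‖(∑ x : ZMod q, F x) * ((n % q : ℕ) / q)‖ :=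
        norm_sub_le _ _
    _ ≤ q + q * 1 := by
        rw [norm_mul]
        gcongr
    _ = 2 * q := by ring

lemma norm_sum_Icc_periodic (q : ℕ) [NeZero q] (F : ZMod q → ℂ) (hF : ∀ x, ‖F x‖ ≤ 1) (n : ℕ) :
    ‖∑ k ∈ Icc 1 n, F (k : ZMod q) - (∑ x : ZMod q, F x) / q * n‖ ≤ 2 * q + 2 := by
  have hq : 0 < q := Nat.pos_of_ne_zero (NeZero.ne q)
  have h1 : ∑ k ∈ range (n + 1), F (k : ZMod q) = F 0 + ∑ k ∈ Icc 1 n, F (k : ZMod q) := by
    rw [Finset.range_eq_Ico, Finset.sum_eq_sum_Ico_succ_bot (by omega)]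
    simp only [Nat.cast_zero, zero_add]
    congr 1
  have hc : ‖(∑ x : ZMod q, F x) / q‖ ≤ 1 := by
    rw [norm_div, Complex.norm_natCast, div_le_one (by exact_mod_cast hq)]
    calc ‖∑ x : ZMod q, F x‖ ≤ ∑ x : ZMod q, ‖F x‖ := norm_sum_le _ _
      _ ≤ ∑ x : ZMod q, (1 : ℝ) := Finset.sum_le_sum fun x _ => hF x
      _ = q := by simp [ZMod.card]
  have h2 := norm_sum_range_periodic q F hF (n + 1)
  have e : ∑ k ∈ Icc 1 n, F (k : ZMod q) - (∑ x : ZMod q, F x) / q * n =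
      (∑ k ∈ range (n + 1), F (k : ZMod q) - (∑ x : ZMod q, F x) / q * ((n + 1 : ℕ) : ℂ)) - F 0 +
        (∑ x : ZMod q, F x) / q := by
    rw [h1]; push_cast; ring
  rw [e]
  calc _ ≤ ‖(∑ k ∈ range (n + 1), F (k : ZMod q) - (∑ x : ZMod q, F x) / q * ((n + 1 : ℕ) : ℂ)) -
        F 0‖ + ‖(∑ x : ZMod q, F x) / q‖ := norm_add_le _ _
    _ ≤ (‖∑ k ∈ range (n + 1), F (k : ZMod q) - (∑ x : ZMod q, F x) / q * ((n + 1 : ℕ) : ℂ)‖ +
        ‖F 0‖) + 1 := by gcongr; exact norm_sub_le _ _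
    _ ≤ (2 * q + 1) + 1 := by gcongr; exact hF 0
    _ = 2 * q + 2 := by ring

/-! ### General integral representation -/

lemma measurable_sub_mul (a : ℕ → ℂ) (c : ℂ) :
    Measurable (fun t : ℝ => if 1 < t then ∑ k ∈ Icc 1 ⌊t⌋₊, a k - c * t else 0) := by
  apply Measurable.ite measurableSet_Ioi _ measurable_const
  apply Measurable.sub
  · exact (measurable_from_nat (f := fun n => ∑ k ∈ Icc 1 n, a k)).comp Nat.measurable_floor
  · exact Complex.measurable_ofReal.const_mul c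

lemma norm_sub_mul_le (a : ℕ → ℂ) (c : ℂ) (K : ℝ)
    (hK : ∀ n : ℕ, ‖∑ k ∈ Icc 1 n, a k - c * n‖ ≤ K) (t : ℝ) :
    ‖(if 1 < t then ∑ k ∈ Icc 1 ⌊t⌋₊, a k - c * t else 0 : ℂ)‖ ≤ K + ‖c‖ := by
  have hK0 : 0 ≤ K := (norm_nonneg _).trans (hK 0)
  split_ifs with ht
  · have : ∑ k ∈ Icc 1 ⌊t⌋₊, a k - c * t =
        (∑ k ∈ Icc 1 ⌊t⌋₊, a k - c * (⌊t⌋₊ : ℕ)) - c * ((t - ⌊t⌋₊ : ℝ) : ℂ) := by
      push_cast; ring
    rw [this]
    have h1 : |t - ⌊t⌋₊| ≤ 1 := by
      rw [abs_le]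
      have h2 := Nat.floor_le (by linarith : (0 : ℝ) ≤ t)
      have h3 := Nat.lt_floor_add_one t
      constructor <;> linarith
    calc _ ≤ ‖∑ k ∈ Icc 1 ⌊t⌋₊, a k - c * (⌊t⌋₊ : ℕ)‖ + ‖c * ((t - ⌊t⌋₊ : ℝ) : ℂ)‖ :=
          norm_sub_le _ _
      _ ≤ K + ‖c‖ * 1 := by
          rw [norm_mul, Complex.norm_real, Real.norm_eq_abs]
          gcongr
          exact hK _
      _ = K + ‖c‖ := by ring
  · simp only [norm_zero]
    positivity

/-- If `∑_{k ≤ n} a k = c n + O(K)`, then `L(a,s) = c s/(s-1) + s ∫ B(t) t^(-s-1) dt`. -/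
lemma LSeries_eq_JJ (a : ℕ → ℂ) (c : ℂ) (K : ℝ)
    (hK : ∀ n : ℕ, ‖∑ k ∈ Icc 1 n, a k - c * n‖ ≤ K) (s : ℂ) (hs : 1 < s.re)
    (hS : LSeriesSummable a s) :
    LSeries a s = c * s / (s - 1) +
      s * JJ (fun t => if 1 < t then ∑ k ∈ Icc 1 ⌊t⌋₊, a k - c * t else 0) s := by
  have hK0 : 0 ≤ K := (norm_nonneg _).trans (hK 0)
  have hs1 : s - 1 ≠ 0 := by
    intro h
    have : s.re = 1 := by rw [sub_eq_zero.mp h]; simp
    linarith
  have hO : (fun n ↦ ∑ k ∈ Icc 1 n, a k) =O[atTop] fun n : ℕ ↦ (n : ℝ) ^ (1 : ℝ) := by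
    apply Asymptotics.IsBigO.of_bound (K + ‖c‖)
    filter_upwards [eventually_ge_atTop 1] with n hn
    have hn1 : (1 : ℝ) ≤ n := by exact_mod_cast hn
    rw [Real.rpow_one, Real.norm_eq_abs, abs_of_nonneg (by positivity)]
    have : ∑ k ∈ Icc 1 n, a k = (∑ k ∈ Icc 1 n, a k - c * n) + c * n := by ring
    rw [this]
    calc _ ≤ ‖∑ k ∈ Icc 1 n, a k - c * n‖ + ‖c * (n : ℂ)‖ := norm_add_le _ _
      _ ≤ K + ‖c‖ * n := by
          gcongr
          · exact hK n
          · rw [norm_mul, Complex.norm_natCast]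
      _ ≤ (K + ‖c‖) * n := by nlinarith [norm_nonneg c]
  rw [LSeries_eq_mul_integral a zero_le_one hs hS hO]
  have h1 : ∫ t in Set.Ioi (1 : ℝ), c * (t : ℂ) ^ (-s) = c / (s - 1) := by
    rw [integral_const_mul, integral_Ioi_cpow_of_lt (by simpa using hs) one_pos]
    have : (-s + 1) = -(s - 1) := by ring
    rw [this]
    simp only [Complex.ofReal_one, Complex.one_cpow]
    field_simp
  have hBm := measurable_sub_mul a c
  have hBK := norm_sub_mul_le a c K hK
  have hint1 := JJ_integrable _ hBm (K + ‖c‖) hBK s (by linarith)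
  have hint2 : IntegrableOn (fun t : ℝ => c * (t : ℂ) ^ (-s)) (Set.Ioi 1) :=
    (integrableOn_Ioi_cpow_of_lt (by simpa using hs) one_pos).const_mul c
  have h2 : ∫ t in Set.Ioi (1 : ℝ), (∑ k ∈ Icc 1 ⌊t⌋₊, a k) * (t : ℂ) ^ (-(s + 1)) =
      JJ (fun t => if 1 < t then ∑ k ∈ Icc 1 ⌊t⌋₊, a k - c * t else 0) s + c / (s - 1) := by
    rw [← h1]
    unfold JJ
    rw [← integral_add hint1 hint2]
    apply setIntegral_congr_fun measurableSet_Ioi
    intro t ht
    have ht1 : 1 < t := ht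
    have ht0 : (t : ℂ) ≠ 0 := by
      exact_mod_cast (by linarith : t ≠ 0)
    simp only [if_pos ht1]
    have h3 : (t : ℂ) ^ (-s) = t * (t : ℂ) ^ (-(s + 1)) := by
      have : -s = 1 + -(s + 1) := by ring
      rw [this, Complex.cpow_add _ _ ht0, Complex.cpow_one]
    rw [h3]
    ring
  rw [h2]
  field_simp
  ring

/-! ### Analytic continuation -/

/-- the right half plane `Re s > 0` -/
def RHP : Set ℂ := {s : ℂ | 0 < s.re}

lemma isOpen_RHP : IsOpen RHP := isOpen_lt continuous_const Complex.continuous_re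

lemma isPreconnected_RHP : IsPreconnected RHP := by
  have : Convex ℝ RHP := convex_halfSpace_re_gt 0
  exact this.isPreconnected

lemma eqOn_RHP (f g : ℂ → ℂ) (hf : DifferentiableOn ℂ f RHP) (hg : DifferentiableOn ℂ g RHP)
    (h : ∀ s : ℂ, 1 < s.re → f s = g s) : EqOn f g RHP := by
  apply AnalyticOnNhd.eqOn_of_preconnected_of_eventuallyEq (z₀ := (2 : ℂ))
    (hf.analyticOnNhd isOpen_RHP) (hg.analyticOnNhd isOpen_RHP) isPreconnected_RHP
  · simp [RHP]
  · have : {s : ℂ | 1 < s.re} ∈ 𝓝 (2 : ℂ) :=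
      (isOpen_lt continuous_const Complex.continuous_re).mem_nhds (by simp)
    filter_upwards [this] with s hs using h s hs

variable {q : ℕ} [NeZero q]

/-- the tail coefficients of a character -/
noncomputable def tailCoeff (χ : DirichletCharacter ℂ q) (N : ℕ) (n : ℕ) : ℂ :=
  if N < n then χ n else 0

omit [NeZero q] in
lemma sum_tailCoeff (χ : DirichletCharacter ℂ q) (N n : ℕ) :
    ∑ k ∈ Finset.Icc 1 n, tailCoeff χ N k = ∑ k ∈ Finset.Icc 1 n, χ k - ∑ k ∈ Finset.Icc 1 (min n N), χ k := by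
  have h1 : ∑ k ∈ Finset.Icc 1 n, χ k = ∑ k ∈ Finset.Icc 1 n, tailCoeff χ N k +
      ∑ k ∈ Finset.Icc 1 n, (if N < k then 0 else χ k) := by
    rw [← Finset.sum_add_distrib]
    apply Finset.sum_congr rfl
    intro k _
    unfold tailCoeff
    split_ifs <;> simp
  have h2 : ∑ k ∈ Finset.Icc 1 n, (if N < k then 0 else χ (k : ZMod q)) = ∑ k ∈ Finset.Icc 1 (min n N), χ k := by
    have e : ∀ k ∈ Finset.Icc 1 n, (if N < k then (0 : ℂ) else χ (k : ZMod q)) =
        if k ≤ N then χ (k : ZMod q) else 0 := by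
      intro k _
      by_cases hk : N < k
      · rw [if_pos hk, if_neg (by omega)]
      · rw [if_neg hk, if_pos (by omega)]
    rw [Finset.sum_congr rfl e, ← Finset.sum_filter]
    apply Finset.sum_congr _ (fun _ _ => rfl)
    ext k
    simp only [Finset.mem_filter, Finset.mem_Icc, le_min_iff]
    omega
  rw [h1, h2]; ring

lemma norm_sum_Icc_char (χ : DirichletCharacter ℂ q) (hχ : χ ≠ 1) (n : ℕ) :
    ‖∑ k ∈ Finset.Icc 1 n, χ (k : ZMod q)‖ ≤ 2 * q + 2 := by
  have h := norm_sum_Icc_periodic q (fun x => χ x) (fun x => DirichletCharacter.norm_le_one χ x) n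
  rw [MulChar.sum_eq_zero_of_ne_one hχ] at h
  simpa using h

lemma norm_sum_tailCoeff (χ : DirichletCharacter ℂ q) (hχ : χ ≠ 1) (N n : ℕ) :
    ‖∑ k ∈ Finset.Icc 1 n, tailCoeff χ N k - 0 * n‖ ≤ 8 * q := by
  have hq : (1 : ℝ) ≤ q := by exact_mod_cast Nat.pos_of_ne_zero (NeZero.ne q)
  rw [zero_mul, sub_zero, sum_tailCoeff]
  calc _ ≤ ‖∑ k ∈ Finset.Icc 1 n, χ (k : ZMod q)‖ + ‖∑ k ∈ Finset.Icc 1 (min n N), χ (k : ZMod q)‖ :=
        norm_sub_le _ _
    _ ≤ (2 * q + 2) + (2 * q + 2) := by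
        gcongr
        · exact norm_sum_Icc_char χ hχ n
        · exact norm_sum_Icc_char χ hχ _
    _ ≤ 8 * q := by linarith

/-- the tail function -/
noncomputable def BB (χ : DirichletCharacter ℂ q) (N : ℕ) (t : ℝ) : ℂ :=
  if 1 < t then ∑ k ∈ Finset.Icc 1 ⌊t⌋₊, tailCoeff χ N k - 0 * t else 0

/-- Truncated series formula for a non-principal Dirichlet L-function in `Re s > 0`. -/
theorem LFunction_eq_trunc (χ : DirichletCharacter ℂ q) (hχ : χ ≠ 1) (N : ℕ) (s : ℂ)
    (hs : 0 < s.re) : DirichletCharacter.LFunction χ s =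
      ∑ n ∈ Finset.Icc 1 N, χ n * (n : ℂ) ^ (-s) + s * JJ (BB χ N) s := by
  have hK := norm_sum_tailCoeff χ hχ N
  have hm : Measurable (BB χ N) := measurable_sub_mul (tailCoeff χ N) 0
  have hB : ∀ t, ‖BB χ N t‖ ≤ 8 * q + ‖(0 : ℂ)‖ := norm_sub_mul_le (tailCoeff χ N) 0 (8 * q) hK
  refine eqOn_RHP (DirichletCharacter.LFunction χ)
    (fun s => ∑ n ∈ Finset.Icc 1 N, χ n * (n : ℂ) ^ (-s) + s * JJ (BB χ N) s)
    ((DirichletCharacter.differentiable_LFunction hχ).differentiableOn) ?_ ?_ hs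
  · intro s hs
    apply DifferentiableAt.differentiableWithinAt
    apply DifferentiableAt.add
    · apply DifferentiableAt.fun_sum
      intro n hn
      have hn0 : (n : ℂ) ≠ 0 := by
        have := (Finset.mem_Icc.mp hn).1
        exact_mod_cast (by omega : n ≠ 0)
      apply DifferentiableAt.const_mul
      exact (differentiableAt_id.neg).const_cpow (Or.inl hn0)
    · exact differentiableAt_id.mul (JJ_differentiableAt _ hm _ hB s hs)
  · intro s hs
    have hsum : LSeriesSummable (fun n => χ (n : ZMod q)) s :=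
      DirichletCharacter.LSeriesSummable_of_one_lt_re χ hs
    set a₁ : ℕ → ℂ := fun n => if n ≤ N then χ (n : ZMod q) else 0 with ha₁
    have ha1s : LSeriesSummable a₁ s := by
      apply LSeriesSummable_of_bounded_of_one_lt_re (m := 1) _ hs
      intro n _
      simp only [ha₁]
      split_ifs
      · exact DirichletCharacter.norm_le_one χ _
      · simp
    have ha2s : LSeriesSummable (tailCoeff χ N) s := by
      apply LSeriesSummable_of_bounded_of_one_lt_re (m := 1) _ hs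
      intro n _
      unfold tailCoeff
      split_ifs
      · exact DirichletCharacter.norm_le_one χ _
      · simp
    have h1 : LSeries (fun n => χ (n : ZMod q)) s = LSeries a₁ s + LSeries (tailCoeff χ N) s := by
      rw [← LSeries_add ha1s ha2s]
      congr 1
      funext n
      simp only [ha₁, tailCoeff, Pi.add_apply]
      by_cases h : n ≤ N
      · rw [if_pos h, if_neg (by omega), add_zero]
      · rw [if_neg h, if_pos (by omega), zero_add]
    rw [DirichletCharacter.LFunction_eq_LSeries χ hs, h1,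
      LSeries_eq_JJ (tailCoeff χ N) 0 (8 * q) hK s hs ha2s]
    have h2 : LSeries a₁ s = ∑ n ∈ Finset.Icc 1 N, χ n * (n : ℂ) ^ (-s) := by
      unfold LSeries
      rw [tsum_eq_sum (s := Finset.Icc 1 N)]
      · apply Finset.sum_congr rfl
        intro n hn
        rw [Finset.mem_Icc] at hn
        rw [LSeries.term_of_ne_zero (by omega)]
        simp only [ha₁]
        rw [if_pos hn.2, Complex.cpow_neg, div_eq_mul_inv]
      · intro n hn
        rw [Finset.mem_Icc, not_and_or] at hn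
        rcases Nat.eq_zero_or_pos n with h0 | h0
        · subst h0; simp
        · rw [LSeries.term_of_ne_zero (by omega)]
          simp only [ha₁]
          rw [if_neg (by omega), zero_div]
    rw [h2]
    have h3 : (0 : ℂ) * s / (s - 1) = 0 := by simp
    rw [h3, zero_add]
    rfl

omit [NeZero q] in
lemma BB_eq_zero (χ : DirichletCharacter ℂ q) (N : ℕ) (t : ℝ) (ht : t < N) : BB χ N t = 0 := by
  unfold BB
  split_ifs with h1
  · rw [zero_mul, sub_zero]
    apply Finset.sum_eq_zero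
    intro k hk
    rw [Finset.mem_Icc] at hk
    unfold tailCoeff
    rw [if_neg]
    have h2 : ⌊t⌋₊ < N := by
      rw [Nat.floor_lt (by linarith)]
      exact ht
    omega
  · rfl

/-- Truncation error for a non-principal Dirichlet L-function in `Re s > 0`. -/
theorem norm_LFunction_sub_le (χ : DirichletCharacter ℂ q) (hχ : χ ≠ 1) (N : ℕ) (hN : 1 ≤ N)
    (s : ℂ) (hs : 0 < s.re) :
    ‖DirichletCharacter.LFunction χ s - ∑ n ∈ Finset.Icc 1 N, χ n * (n : ℂ) ^ (-s)‖ ≤
      8 * q * ‖s‖ * (N : ℝ) ^ (-s.re) / s.re := by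
  have hK := norm_sum_tailCoeff χ hχ N
  have hB : ∀ t, ‖BB χ N t‖ ≤ 8 * q := by
    have := norm_sub_mul_le (tailCoeff χ N) 0 (8 * q) hK
    simpa [BB] using this
  rw [LFunction_eq_trunc χ hχ N s hs, add_sub_cancel_left, norm_mul]
  have h1 := JJ_norm_le (BB χ N) (8 * q) hB N (by exact_mod_cast hN) (BB_eq_zero χ N) s hs
  calc ‖s‖ * ‖JJ (BB χ N) s‖ ≤ ‖s‖ * (8 * q * (N : ℝ) ^ (-s.re) / s.re) := by gcongr
    _ = _ := by ring

/-- Polynomial bound for a non-principal Dirichlet L-function. -/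
theorem norm_LFunction_le (χ : DirichletCharacter ℂ q) (hχ : χ ≠ 1) (s : ℂ) (hs : 1 / 2 ≤ s.re) :
    ‖DirichletCharacter.LFunction χ s‖ ≤ 16 * q * ‖s‖ := by
  have hs0 : 0 < s.re := by linarith
  have hK := norm_sum_tailCoeff χ hχ 0
  have hB : ∀ t, ‖BB χ 0 t‖ ≤ 8 * q := by
    have := norm_sub_mul_le (tailCoeff χ 0) 0 (8 * q) hK
    simpa [BB] using this
  have hz : ∀ t : ℝ, t < 1 → BB χ 0 t = 0 := by
    intro t ht
    unfold BB
    rw [if_neg (by linarith)]
  rw [LFunction_eq_trunc χ hχ 0 s hs0]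
  have h1 := JJ_norm_le (BB χ 0) (8 * q) hB 1 le_rfl hz s hs0
  rw [Real.one_rpow, mul_one] at h1
  have h2 : ∑ n ∈ (Finset.Icc 1 0 : Finset ℕ), χ (n : ZMod q) * (n : ℂ) ^ (-s) = 0 := by simp
  rw [h2, zero_add, norm_mul]
  have h3 : 8 * (q : ℝ) / s.re ≤ 16 * q := by
    rw [div_le_iff₀ hs0]
    have : (0 : ℝ) ≤ q := by positivity
    nlinarith
  calc ‖s‖ * ‖JJ (BB χ 0) s‖ ≤ ‖s‖ * (16 * q) := by
        gcongr
        exact h1.trans h3
    _ = _ := by ring

/-- Formula for the principal character. -/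
theorem LFunctionTrivChar₁_eq (s : ℂ) (hs : 0 < s.re) :
    ∃ (c : ℂ) (B : ℝ → ℂ), ‖c‖ ≤ 1 ∧ (∀ t, ‖B t‖ ≤ 5 * q) ∧ (∀ t, t < 1 → B t = 0) ∧
      DirichletCharacter.LFunctionTrivChar₁ q s = c * s + (s - 1) * (s * JJ B s) := by
  have hq : 0 < q := Nat.pos_of_ne_zero (NeZero.ne q)
  have hq1 : (1 : ℝ) ≤ q := by exact_mod_cast hq
  set χ : DirichletCharacter ℂ q := 1 with hχ
  set c : ℂ := (∑ x : ZMod q, χ x) / q with hc
  have hcn : ‖c‖ ≤ 1 := by
    rw [hc, norm_div, Complex.norm_natCast, div_le_one (by exact_mod_cast hq)]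
    calc ‖∑ x : ZMod q, χ x‖ ≤ ∑ x : ZMod q, ‖χ x‖ := norm_sum_le _ _
      _ ≤ ∑ x : ZMod q, (1 : ℝ) := Finset.sum_le_sum fun x _ => DirichletCharacter.norm_le_one χ x
      _ = q := by simp [ZMod.card]
  set a : ℕ → ℂ := fun n => χ (n : ZMod q) with ha
  have hK : ∀ n : ℕ, ‖∑ k ∈ Finset.Icc 1 n, a k - c * n‖ ≤ 2 * q + 2 := fun n =>
    norm_sum_Icc_periodic q (fun x => χ x) (fun x => DirichletCharacter.norm_le_one χ x) n
  set B : ℝ → ℂ := fun t => if 1 < t then ∑ k ∈ Finset.Icc 1 ⌊t⌋₊, a k - c * t else 0 with hB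
  have hBm : Measurable B := measurable_sub_mul a c
  have hBK : ∀ t, ‖B t‖ ≤ 5 * q := fun t => by
    have := norm_sub_mul_le a c (2 * q + 2) hK t
    calc ‖B t‖ ≤ 2 * q + 2 + ‖c‖ := this
      _ ≤ 2 * q + 2 + 1 := by gcongr
      _ ≤ 5 * q := by linarith
  refine ⟨c, B, hcn, hBK, fun t ht => by simp only [hB]; rw [if_neg (by linarith)], ?_⟩
  refine eqOn_RHP (DirichletCharacter.LFunctionTrivChar₁ q)
    (fun s => c * s + (s - 1) * (s * JJ B s))
    (DirichletCharacter.differentiable_LFunctionTrivChar₁ q).differentiableOn ?_ ?_ hs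
  · intro s hs
    apply DifferentiableAt.differentiableWithinAt
    apply DifferentiableAt.add
    · exact differentiableAt_id.const_mul c
    · apply DifferentiableAt.mul
      · exact differentiableAt_id.sub_const 1
      · exact differentiableAt_id.mul (JJ_differentiableAt _ hBm _ hBK s hs)
  · intro s hs
    have hs1 : s ≠ 1 := by
      rintro rfl
      simp at hs
    have hs1' : s - 1 ≠ 0 := sub_ne_zero.mpr hs1
    have hsum : LSeriesSummable a s := DirichletCharacter.LSeriesSummable_of_one_lt_re χ hs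
    have h1 : DirichletCharacter.LFunctionTrivChar₁ q s =
        (s - 1) * DirichletCharacter.LFunction χ s := by
      unfold DirichletCharacter.LFunctionTrivChar₁
      rw [Function.update_of_ne hs1]
    rw [h1, DirichletCharacter.LFunction_eq_LSeries χ hs, LSeries_eq_JJ a c (2 * q + 2) hK s hs hsum]
    change (s - 1) * (c * s / (s - 1) + s * JJ B s) = c * s + (s - 1) * (s * JJ B s)
    field_simp

/-- Polynomial bound for `(s-1) L(s, χ₀)`. -/
theorem norm_LFunctionTrivChar₁_le (s : ℂ) (hs : 1 / 2 ≤ s.re) :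
    ‖DirichletCharacter.LFunctionTrivChar₁ q s‖ ≤ 11 * q * (‖s‖ + 1) ^ 2 := by
  have hs0 : 0 < s.re := by linarith
  have hq : 0 < q := Nat.pos_of_ne_zero (NeZero.ne q)
  have hq1 : (1 : ℝ) ≤ q := by exact_mod_cast hq
  obtain ⟨c, B, hc, hB, hB0, h⟩ := LFunctionTrivChar₁_eq (q := q) s hs0
  rw [h]
  have h1 := JJ_norm_le B (5 * q) hB 1 le_rfl hB0 s hs0
  rw [Real.one_rpow, mul_one] at h1
  have h3 : 5 * (q : ℝ) / s.re ≤ 10 * q := by
    rw [div_le_iff₀ hs0]
    nlinarith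
  have hsn : 0 ≤ ‖s‖ := norm_nonneg s
  calc ‖c * s + (s - 1) * (s * JJ B s)‖ ≤ ‖c * s‖ + ‖(s - 1) * (s * JJ B s)‖ := norm_add_le _ _
    _ = ‖c‖ * ‖s‖ + ‖s - 1‖ * (‖s‖ * ‖JJ B s‖) := by rw [norm_mul, norm_mul, norm_mul]
    _ ≤ 1 * ‖s‖ + (‖s‖ + 1) * (‖s‖ * (10 * q)) := by
        gcongr
        · calc ‖s - 1‖ ≤ ‖s‖ + ‖(1 : ℂ)‖ := norm_sub_le _ _
            _ = ‖s‖ + 1 := by simp
        · exact h1.trans h3
    _ ≤ 11 * q * (‖s‖ + 1) ^ 2 := by nlinarith [mul_nonneg hsn hsn]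

/-! ### Lower bound to the right of `1` -/

lemma tsum_norm_term_one_le (s : ℂ) (hs : 1 < s.re) :
    Summable (fun n : ℕ => ‖LSeries.term 1 s n‖) ∧
      ∑' n : ℕ, ‖LSeries.term 1 s n‖ ≤ s.re / (s.re - 1) + 1 := by
  set σ := s.re with hσ
  have hsum : LSeriesSummable (1 : ℕ → ℂ) (σ : ℂ) := by
    apply LSeriesSummable_of_bounded_of_one_lt_re (m := 1) (by simp) (by simpa using hs)
  have hterm : ∀ n : ℕ, LSeries.term 1 (σ : ℂ) n = ((‖LSeries.term 1 s n‖ : ℝ) : ℂ) := by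
    intro n
    rcases Nat.eq_zero_or_pos n with h0 | h0
    · subst h0; simp
    · have hn : (n : ℕ) ≠ 0 := by omega
      rw [LSeries.norm_term_eq, LSeries.term_of_ne_zero hn, if_neg hn]
      simp only [Pi.one_apply, norm_one]
      rw [Complex.ofReal_div, Complex.ofReal_cpow (by positivity)]
      simp [hσ]
  have hsn : Summable (fun n : ℕ => ‖LSeries.term 1 s n‖) := by
    have h1 : Summable (fun n : ℕ => ((‖LSeries.term 1 s n‖ : ℝ) : ℂ)) := by
      have h2 : Summable (LSeries.term (1 : ℕ → ℂ) (σ : ℂ)) := hsum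
      exact h2.congr hterm
    exact_mod_cast h1
  refine ⟨hsn, ?_⟩
  have h1 : LSeries (1 : ℕ → ℂ) (σ : ℂ) = ((∑' n : ℕ, ‖LSeries.term 1 s n‖ : ℝ) : ℂ) := by
    unfold LSeries
    rw [Complex.ofReal_tsum]
    exact tsum_congr hterm
  have h2 : ‖LSeries (1 : ℕ → ℂ) (σ : ℂ)‖ = ∑' n : ℕ, ‖LSeries.term 1 s n‖ := by
    rw [h1, Complex.norm_real, Real.norm_eq_abs, abs_of_nonneg (tsum_nonneg fun _ => norm_nonneg _)]
  rw [← h2]
  have hK : ∀ n : ℕ, ‖∑ k ∈ Finset.Icc 1 n, (1 : ℕ → ℂ) k - 1 * n‖ ≤ 0 := by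
    intro n; simp
  have h3 := LSeries_eq_JJ (1 : ℕ → ℂ) 1 0 hK (σ : ℂ) (by simpa using hs) hsum
  rw [h3]
  have hB := norm_sub_mul_le (1 : ℕ → ℂ) 1 0 hK
  have h4 := JJ_norm_le _ (0 + ‖(1 : ℂ)‖) hB 1 le_rfl (fun t ht => by rw [if_neg (by linarith)])
    (σ : ℂ) (by simp only [Complex.ofReal_re]; linarith)
  rw [Real.one_rpow] at h4
  have hσ0 : 0 < σ := by linarith
  have hσ1 : 0 < σ - 1 := by linarith
  calc _ ≤ ‖1 * (σ : ℂ) / ((σ : ℂ) - 1)‖ + ‖(σ : ℂ) * JJ (fun t => if 1 < t then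
          ∑ k ∈ Finset.Icc 1 ⌊t⌋₊, (1 : ℕ → ℂ) k - 1 * t else 0) (σ : ℂ)‖ := norm_add_le _ _
    _ ≤ σ / (σ - 1) + σ * ((0 + ‖(1 : ℂ)‖) * 1 / σ) := by
        apply add_le_add
        · rw [one_mul, ← Complex.ofReal_one, ← Complex.ofReal_sub, ← Complex.ofReal_div,
            Complex.norm_real, Real.norm_eq_abs, abs_of_nonneg (by positivity)]
        · rw [norm_mul, Complex.norm_real, Real.norm_eq_abs, abs_of_pos hσ0]
          gcongr
          simpa using h4
    _ = σ / (σ - 1) + 1 := by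
        simp only [norm_one]
        field_simp
        ring

/-- Lower bound for a Dirichlet L-function in `Re s > 1`. -/
theorem norm_LFunction_ge (χ : DirichletCharacter ℂ q) (s : ℂ) (hs : 1 < s.re) :
    (s.re - 1) / (2 * s.re) ≤ ‖DirichletCharacter.LFunction χ s‖ := by
  have h1 := DirichletCharacter.LSeries.mul_mu_eq_one χ hs
  rw [← DirichletCharacter.LFunction_eq_LSeries χ hs] at h1
  obtain ⟨hsn, hle⟩ := tsum_norm_term_one_le s hs
  set g : ℕ → ℂ := (fun n : ℕ => χ (n : ZMod q)) * fun n : ℕ => ((ArithmeticFunction.moebius n : ℤ) : ℂ)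
    with hg
  have hgle : ∀ n : ℕ, ‖LSeries.term g s n‖ ≤ ‖LSeries.term 1 s n‖ := by
    intro n
    apply LSeries.norm_term_le
    simp only [hg, Pi.mul_apply, norm_mul, Pi.one_apply, norm_one]
    have h2 : ‖((ArithmeticFunction.moebius n : ℤ) : ℂ)‖ ≤ 1 := by
      rw [Complex.norm_intCast]
      exact_mod_cast ArithmeticFunction.abs_moebius_le_one
    calc _ ≤ (1 : ℝ) * 1 := by
          gcongr
          exact DirichletCharacter.norm_le_one χ _
      _ = 1 := by ring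
  have hgn : ‖LSeries g s‖ ≤ s.re / (s.re - 1) + 1 := by
    unfold LSeries
    have hs2 : Summable (fun n => ‖LSeries.term g s n‖) :=
      Summable.of_nonneg_of_le (fun _ => norm_nonneg _) hgle hsn
    calc ‖∑' n, LSeries.term g s n‖ ≤ ∑' n, ‖LSeries.term g s n‖ := norm_tsum_le_tsum_norm hs2
      _ ≤ ∑' n, ‖LSeries.term 1 s n‖ := hs2.tsum_le_tsum hgle hsn
      _ ≤ _ := hle
  have h3 : ‖DirichletCharacter.LFunction χ s‖ * ‖LSeries g s‖ = 1 := by
    rw [← norm_mul]
    have : DirichletCharacter.LFunction χ s * LSeries g s = 1 := h1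
    rw [this, norm_one]
  have hσ1 : 0 < s.re - 1 := by linarith
  have hσ0 : 0 < s.re := by linarith
  have h4 : s.re / (s.re - 1) + 1 ≤ 2 * s.re / (s.re - 1) := by
    rw [div_add_one hσ1.ne']
    gcongr
    linarith
  have hL0 : 0 ≤ ‖DirichletCharacter.LFunction χ s‖ := norm_nonneg _
  have h5 : 1 ≤ ‖DirichletCharacter.LFunction χ s‖ * (2 * s.re / (s.re - 1)) := by
    calc (1 : ℝ) = ‖DirichletCharacter.LFunction χ s‖ * ‖LSeries g s‖ := h3.symm
      _ ≤ _ := by
          gcongr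
          exact hgn.trans h4
  rw [div_le_iff₀ (by positivity)]
  have h6 : ‖DirichletCharacter.LFunction χ s‖ * (2 * s.re / (s.re - 1)) =
      ‖DirichletCharacter.LFunction χ s‖ * (2 * s.re) / (s.re - 1) := by ring
  rw [h6, le_div_iff₀ hσ1] at h5
  linarith

end Pool.Agent.H90
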