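import Pool.Agent.H90.ZeroFreeMain

/-!
# Lower bounds for Dirichlet L-functions in the zero-free region
-/

namespace Pool.Agent.H90

open Complex Metric Set Filter Topology

section
variable {q : ℕ} [NeZero q]

/-- `|L(s,χ)| ≤ 300 log (Q (|t|+2))` for `Re s ≥ 1 - 1 / log (Q (|t|+2))`. -/
theorem norm_LFunction_le_log (χ : DirichletCharacter ℂ q) (hχ : χ ≠ 1) (Q : ℝ) (hqQ : (q : ℝ) ≤ Q)
    (s : ℂ) (l : ℝ) (hl : l = Real.log (Q * (|s.im| + 2))) (hl1 : 1 ≤ l)
    (hs1 : 1 - 1 / l ≤ s.re) (hs2 : 1 / 2 ≤ s.re) (hs3 : s.re ≤ 3) :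
    ‖DirichletCharacter.LFunction χ s‖ ≤ 300 * l := by
  have hq1 : (1 : ℝ) ≤ q := by exact_mod_cast Nat.pos_of_ne_zero (NeZero.ne q)
  have hQ1 : 1 ≤ Q := by linarith
  have hs0 : 0 < s.re := by linarith
  set t := |s.im| with ht
  have ht0 : 0 ≤ t := abs_nonneg _
  set X : ℝ := Q * (t + 2) with hX
  have hX2 : 2 ≤ X := by
    clear * - hX hQ1 ht0
    nlinarith
  have hX0 : 0 < X := by linarith
  have hl0 : 0 < l := by linarith
  set N : ℕ := ⌈X⌉₊ with hN
  have hNX : X ≤ N := Nat.le_ceil X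
  have hNX2 : (N : ℝ) ≤ 2 * X := by
    have := Nat.ceil_lt_add_one hX0.le
    linarith
  have hN1 : 1 ≤ N := by
    have : (1 : ℝ) ≤ N := by linarith
    exact_mod_cast this
  have hN0 : (0 : ℝ) < N := by linarith
  have hlogN : Real.log N ≤ 0.6932 + l := by
    calc Real.log N ≤ Real.log (2 * X) := Real.log_le_log hN0 hNX2
      _ = Real.log 2 + l := by rw [Real.log_mul (by norm_num) hX0.ne', hl]
      _ ≤ _ := by have := log_two_le'; linarith
  -- N^(1/l) ≤ 7.4
  have hNl : (N : ℝ) ^ (1 / l) ≤ 7.4 := by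
    rw [Real.rpow_def_of_pos hN0]
    have h1 : Real.log N * (1 / l) ≤ 2 := by
      rw [mul_one_div, div_le_iff₀ hl0]
      linarith
    calc Real.exp (Real.log N * (1 / l)) ≤ Real.exp 2 := Real.exp_le_exp.mpr h1
      _ = Real.exp 1 ^ 2 := by rw [← Real.exp_nat_mul]; norm_num
      _ ≤ 2.7182818286 ^ 2 := by gcongr; exact Real.exp_one_lt_d9.le
      _ ≤ 7.4 := by norm_num
  have hterm : ∀ n ∈ Finset.Icc 1 N, ‖χ (n : ZMod q) * (n : ℂ) ^ (-s)‖ ≤ 7.4 * (n : ℝ)⁻¹ := by
    intro n hn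
    rw [Finset.mem_Icc] at hn
    have hn0 : (0 : ℝ) < n := by exact_mod_cast (by omega : 0 < n)
    have hn1 : (1 : ℝ) ≤ n := by exact_mod_cast hn.1
    have hnN : (n : ℝ) ≤ N := by exact_mod_cast hn.2
    rw [norm_mul, Complex.norm_natCast_cpow_of_pos (by omega)]
    have h1 : (n : ℝ) ^ (-s).re = (n : ℝ) ^ (1 - s.re) * (n : ℝ)⁻¹ := by
      rw [← Real.rpow_neg_one, ← Real.rpow_add hn0]
      congr 1
      simp only [Complex.neg_re]
      ring
    have h2 : (n : ℝ) ^ (1 - s.re) ≤ 7.4 := by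
      calc (n : ℝ) ^ (1 - s.re) ≤ (n : ℝ) ^ (1 / l) := by
            apply Real.rpow_le_rpow_of_exponent_le hn1
            linarith
        _ ≤ (N : ℝ) ^ (1 / l) := by
            apply Real.rpow_le_rpow hn0.le hnN (by positivity)
        _ ≤ 7.4 := hNl
    rw [h1]
    calc _ ≤ 1 * (7.4 * (n : ℝ)⁻¹) := by
          gcongr
          exact DirichletCharacter.norm_le_one χ _
      _ = _ := one_mul _
  have hharm : ∑ n ∈ Finset.Icc 1 N, (n : ℝ)⁻¹ ≤ 1 + Real.log N := by
    have h1 := harmonic_le_one_add_log N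
    rw [harmonic_eq_sum_Icc] at h1
    push_cast at h1
    exact h1
  have hsum : ‖∑ n ∈ Finset.Icc 1 N, χ (n : ZMod q) * (n : ℂ) ^ (-s)‖ ≤ 7.4 * (1.6932 + l) := by
    calc _ ≤ ∑ n ∈ Finset.Icc 1 N, ‖χ (n : ZMod q) * (n : ℂ) ^ (-s)‖ := norm_sum_le _ _
      _ ≤ ∑ n ∈ Finset.Icc 1 N, 7.4 * (n : ℝ)⁻¹ := Finset.sum_le_sum hterm
      _ = 7.4 * ∑ n ∈ Finset.Icc 1 N, (n : ℝ)⁻¹ := by rw [Finset.mul_sum]
      _ ≤ 7.4 * (1 + Real.log N) := by gcongr
      _ ≤ _ := by linarith
  have htail := norm_LFunction_sub_le χ hχ N hN1 s hs0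
  have hNs : (N : ℝ) ^ (-s.re) ≤ 7.4 * (N : ℝ)⁻¹ := by
    have h1 : (N : ℝ) ^ (-s.re) = (N : ℝ) ^ (1 - s.re) * (N : ℝ)⁻¹ := by
      rw [← Real.rpow_neg_one, ← Real.rpow_add hN0]
      congr 1
      ring
    rw [h1]
    gcongr
    calc (N : ℝ) ^ (1 - s.re) ≤ (N : ℝ) ^ (1 / l) := by
          apply Real.rpow_le_rpow_of_exponent_le (by exact_mod_cast hN1)
          linarith
      _ ≤ 7.4 := hNl
  have hsn : ‖s‖ ≤ 3 + t := by
    calc ‖s‖ ≤ |s.re| + |s.im| := Complex.norm_le_abs_re_add_abs_im s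
      _ ≤ 3 + t := by rw [abs_of_pos hs0]; linarith
  have hqs : q * ‖s‖ ≤ 1.5 * X := by
    calc q * ‖s‖ ≤ Q * (3 + t) := by gcongr
      _ ≤ 1.5 * X := by
          rw [hX]
          clear * - hQ1 ht0
          nlinarith
  have hN' : X * (N : ℝ)⁻¹ ≤ 1 := by
    rw [← div_eq_mul_inv, div_le_one hN0]
    exact hNX
  have htail2 : 8 * q * ‖s‖ * (N : ℝ) ^ (-s.re) / s.re ≤ 178 := by
    rw [div_le_iff₀ hs0]
    calc 8 * q * ‖s‖ * (N : ℝ) ^ (-s.re) = 8 * (q * ‖s‖) * (N : ℝ) ^ (-s.re) := by ring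
      _ ≤ 8 * (1.5 * X) * (7.4 * (N : ℝ)⁻¹) := by gcongr
      _ = 88.8 * (X * (N : ℝ)⁻¹) := by ring
      _ ≤ 88.8 * 1 := by gcongr
      _ ≤ 178 * s.re := by linarith
  have hfin : ‖DirichletCharacter.LFunction χ s‖ ≤
      ‖DirichletCharacter.LFunction χ s - ∑ n ∈ Finset.Icc 1 N, χ n * (n : ℂ) ^ (-s)‖ +
        ‖∑ n ∈ Finset.Icc 1 N, χ (n : ZMod q) * (n : ℂ) ^ (-s)‖ := by
    calc ‖DirichletCharacter.LFunction χ s‖ = ‖(DirichletCharacter.LFunction χ s -
          ∑ n ∈ Finset.Icc 1 N, χ n * (n : ℂ) ^ (-s)) +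
          ∑ n ∈ Finset.Icc 1 N, χ (n : ZMod q) * (n : ℂ) ^ (-s)‖ := by rw [sub_add_cancel]
      _ ≤ _ := norm_add_le _ _
  linarith

/-- Lower bound at a point whose neighbourhood is zero-free. -/
lemma lower_of_zero_free (χ : DirichletCharacter ℂ q) (hχ : χ ≠ 1) (Q : ℝ) (hqQ : (q : ℝ) ≤ Q)
    (hzf : ∀ ρ : ℂ, DirichletCharacter.LFunction χ ρ = 0 →
        ρ.re < 1 - kap / 50 / Real.log (Q * (|ρ.im| + 2)))
    (s : ℂ) (l : ℝ) (hl : l = Real.log (Q * (|s.im| + 2))) (hl1 : 1600 / kap ≤ l)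
    (hs1 : 1 - kap / 400 / l ≤ s.re) :
    l ^ (-(18 : ℝ)) ≤ ‖DirichletCharacter.LFunction χ s‖ := by
  have hk := kap_pos
  have hk1 : kap ≤ 1 / 20000 := by unfold kap; norm_num
  have hq1 : (1 : ℝ) ≤ q := by exact_mod_cast Nat.pos_of_ne_zero (NeZero.ne q)
  have hQ1 : 1 ≤ Q := by linarith
  have hl600 : 32000000 ≤ l := by
    have : (32000000 : ℝ) ≤ 1600 / kap := by
      rw [le_div_iff₀ hk]
      unfold kap
      norm_num
    linarith
  have hl0 : 0 < l := by linarith
  set δ : ℝ := kap / 400 / l with hδ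
  have hδ0 : 0 < δ := by positivity
  have hδl : δ * l = kap / 400 := by rw [hδ]; field_simp
  have hδ1 : δ ≤ 1 / 1000 := by
    rw [hδ, div_le_iff₀ hl0]
    unfold kap
    clear * - hl0 hl600
    nlinarith
  -- δ/4 ≥ 1/l^2
  have hδ4 : 1 / l ^ 2 ≤ δ / 4 := by
    have h1 : kap * l ≥ 1600 := by
      rw [div_le_iff₀ hk] at hl1
      linarith
    rw [hδ, div_div, div_div, div_le_div_iff₀ (by positivity) (by positivity)]
    clear * - h1 hl0
    nlinarith
  have hrpow : l ^ (-(18 : ℝ)) = 1 / l ^ 18 := by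
    rw [Real.rpow_neg hl0.le, one_div]
    congr 1
    exact_mod_cast Real.rpow_natCast l 18
  rw [hrpow]
  have hl2 : 1 ≤ l := by linarith
  by_cases hcase : 1 + δ ≤ s.re
  · -- far to the right
    have h1 := norm_LFunction_ge χ s (by linarith)
    have h2 : δ / 4 ≤ (s.re - 1) / (2 * s.re) := by
      rw [div_le_div_iff₀ (by norm_num) (by linarith)]
      clear * - hcase hδ0 hδ1
      nlinarith
    have h3 : 1 / l ^ 18 ≤ 1 / l ^ 2 := by
      apply one_div_le_one_div_of_le (by positivity)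
      exact pow_le_pow_right₀ hl2 (by norm_num)
    linarith
  · push Not at hcase
    set t := s.im with ht
    set s₁ : ℂ := ((1 + δ : ℝ) : ℂ) + t * I with hs₁
    have hs₁re : s₁.re = 1 + δ := by simp [hs₁]
    have hs₁im : s₁.im = t := by simp [hs₁]
    set R : ℝ := 3 * δ with hR
    have hR0 : 0 < R := by positivity
    have hcoord : ∀ z ∈ ball (0 : ℂ) R, 1 - 2 * δ ≤ (s₁ + z).re ∧ (s₁ + z).re ≤ 1 + 4 * δ ∧
        |(s₁ + z).im| ≤ |t| + 1 := by
      intro z hz
      have hzR : ‖z‖ < R := by simpa using hz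
      have h1 := (Complex.abs_re_le_norm z).trans hzR.le
      have h2 := (Complex.abs_im_le_norm z).trans hzR.le
      rw [abs_le] at h1
      rw [Complex.add_re, Complex.add_im, hs₁re, hs₁im]
      refine ⟨by linarith, by linarith, ?_⟩
      calc |t + z.im| ≤ |t| + |z.im| := abs_add_le _ _
        _ ≤ |t| + 1 := by linarith
    have hlog : ∀ z ∈ ball (0 : ℂ) R, Real.log (Q * (|(s₁ + z).im| + 2)) ≤ 2 * l := by
      intro z hz
      obtain ⟨_, _, h3⟩ := hcoord z hz
      have h0 := abs_nonneg t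
      have h0' := abs_nonneg (s₁ + z).im
      calc Real.log (Q * (|(s₁ + z).im| + 2)) ≤ Real.log (2 * (Q * (|t| + 2))) := by
            apply Real.log_le_log (by positivity)
            have : Q * (|(s₁ + z).im| + 2) ≤ Q * (|t| + 1 + 2) := by gcongr
            clear * - this h0 hQ1
            nlinarith
        _ = Real.log 2 + l := by
            rw [Real.log_mul (by norm_num) (by positivity), hl]
        _ ≤ 2 * l := by have := log_two_le'; linarith
    have hlogge : ∀ z : ℂ, Real.log Q ≤ Real.log (Q * (|(s₁ + z).im| + 2)) := fun z =>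
      log_Q_le Q _ (by linarith)
    have hloggt : ∀ z : ℂ, 0 < Real.log (Q * (|(s₁ + z).im| + 2)) := fun z => by
      apply Real.log_pos
      have hab := abs_nonneg (s₁ + z).im
      clear * - hab hQ1
      nlinarith
    set F : ℂ → ℂ := fun z => DirichletCharacter.LFunction χ (s₁ + z) with hF
    have hFd : Differentiable ℂ F := by
      simp only [hF]
      exact (DirichletCharacter.differentiable_LFunction hχ).comp (differentiable_id.const_add s₁)
    have hFne : ∀ z ∈ ball (0 : ℂ) R, F z ≠ 0 := by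
      intro z hz hFz
      obtain ⟨h1, _, _⟩ := hcoord z hz
      have h2 := hzf (s₁ + z) hFz
      have h3 := hlog z hz
      have h4 := hloggt z
      have h5 : 4 * δ ≤ kap / 50 / Real.log (Q * (|(s₁ + z).im| + 2)) := by
        calc 4 * δ = kap / 50 / (2 * l) := by rw [hδ]; field_simp; ring
          _ ≤ _ := by gcongr
      linarith
    have hFU : ∀ z ∈ ball (0 : ℂ) R, ‖F z‖ ≤ l ^ 2 := by
      intro z hz
      obtain ⟨h1, h2, h3⟩ := hcoord z hz
      set l' := Real.log (Q * (|(s₁ + z).im| + 2)) with hl'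
      have h4 : l' ≤ 2 * l := hlog z hz
      by_cases hl'1 : 1 ≤ l'
      · have h5 := norm_LFunction_le_log χ hχ Q hqQ (s₁ + z) l' hl' hl'1 (by
          have : 1 / (2 * l) ≤ 1 / l' := by gcongr
          have h6 : 2 * δ ≤ 1 / (2 * l) := by
            rw [hδ, le_div_iff₀ (by positivity)]
            field_simp
            linarith
          linarith) (by linarith) (by linarith)
        calc ‖F z‖ ≤ 300 * l' := h5
          _ ≤ 300 * (2 * l) := by gcongr
          _ ≤ l ^ 2 := by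
            clear * - hl600
            nlinarith
      · -- small log: Q (|t|+2) < e, use the polynomial bound
        push Not at hl'1
        have h6 : Q * (|(s₁ + z).im| + 2) < 3 := by
          have h7 : 0 < Q * (|(s₁ + z).im| + 2) := by
            have := abs_nonneg (s₁ + z).im
            positivity
          have h8 := (Real.log_lt_iff_lt_exp h7).mp hl'1
          have := Real.exp_one_lt_d9
          linarith
        have h9 := norm_LFunction_le χ hχ (s₁ + z) (by linarith)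
        have h10 : ‖s₁ + z‖ ≤ 2 + |(s₁ + z).im| := by
          calc ‖s₁ + z‖ ≤ |(s₁ + z).re| + |(s₁ + z).im| := Complex.norm_le_abs_re_add_abs_im _
            _ ≤ 2 + |(s₁ + z).im| := by
                rw [abs_of_pos (by linarith)]
                linarith
        have h11 : (q : ℝ) * ‖s₁ + z‖ ≤ 3 := by
          calc (q : ℝ) * ‖s₁ + z‖ ≤ Q * (2 + |(s₁ + z).im|) := by gcongr
            _ ≤ 3 := by linarith
        calc ‖F z‖ ≤ 16 * q * ‖s₁ + z‖ := h9
          _ = 16 * (q * ‖s₁ + z‖) := by ring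
          _ ≤ 16 * 3 := by gcongr
          _ ≤ l ^ 2 := by
            clear * - hl600
            nlinarith
    obtain ⟨h, hhd, hh0, hh⟩ := exists_log_ball F R hR0 hFd.differentiableOn hFne
    have hF0 : δ / 4 ≤ ‖F 0‖ := by
      have h1 := norm_LFunction_ge χ s₁ (by rw [hs₁re]; linarith)
      rw [hs₁re] at h1
      have h2 : δ / 4 ≤ (1 + δ - 1) / (2 * (1 + δ)) := by
        rw [div_le_div_iff₀ (by norm_num) (by linarith)]
        clear * - hδ0 hδ1
        nlinarith
      have h3 : F 0 = DirichletCharacter.LFunction χ s₁ := by simp [hF]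
      rw [h3]
      linarith
    have hF0pos : 0 < ‖F 0‖ := by linarith [hF0, (by positivity : 0 < δ / 4)]
    set M : ℝ := Real.log (l ^ 4) with hM
    have hM0 : 0 < M := by
      apply Real.log_pos
      have : (1 : ℝ) < l := by linarith
      exact one_lt_pow₀ this (by norm_num)
    have hre : MapsTo h (ball 0 R) {z | z.re ≤ M} := by
      intro z hz
      have h1 := hFU z hz
      rw [hh z hz, norm_mul, Complex.norm_exp] at h1
      have h2 : 1 / l ^ 2 * Real.exp (h z).re ≤ l ^ 2 := by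
        calc _ ≤ ‖F 0‖ * Real.exp (h z).re := by
              gcongr
              exact hδ4.trans hF0
          _ ≤ l ^ 2 := h1
      have h3 : Real.exp (h z).re ≤ l ^ 4 := by
        rw [one_div, inv_mul_le_iff₀ (by positivity)] at h2
        calc _ ≤ l ^ 2 * l ^ 2 := h2
          _ = l ^ 4 := by ring
      change (h z).re ≤ M
      rw [hM, Real.le_log_iff_exp_le (by positivity)]
      exact h3
    set z₀ : ℂ := s - s₁ with hz₀
    have hz₀e : z₀ = ((s.re - (1 + δ) : ℝ) : ℂ) := by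
      apply Complex.ext
      · simp [hz₀, hs₁re]
      · simp [hz₀, hs₁im, ht]
    have hz₀n : ‖z₀‖ ≤ 2 * δ := by
      rw [hz₀e, Complex.norm_real, Real.norm_eq_abs, abs_le]
      constructor <;> linarith
    have hz₀b : z₀ ∈ ball (0 : ℂ) R := by
      simp only [mem_ball, dist_zero_right]
      linarith
    have hBC := Complex.borelCaratheodory_zero hM0 hhd hre hR0 hz₀b hh0
    have hBC2 : ‖h z₀‖ ≤ 4 * M := by
      refine hBC.trans ?_
      rw [div_le_iff₀ (by linarith)]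
      have : 2 * M * ‖z₀‖ ≤ 2 * M * (2 * δ) := by gcongr
      have h2 : 4 * M * δ ≤ 4 * M * (R - ‖z₀‖) := by
        gcongr
        linarith
      linarith
    have hre2 : -(4 * M) ≤ (h z₀).re := by
      have h1 := (Complex.abs_re_le_norm (h z₀)).trans hBC2
      rw [abs_le] at h1
      exact h1.1
    have hval : DirichletCharacter.LFunction χ s = F z₀ := by
      simp only [hF, hz₀]
      congr 1
      ring
    rw [hval, hh z₀ hz₀b, norm_mul, Complex.norm_exp]
    have hexp : 1 / l ^ 16 ≤ Real.exp (h z₀).re := by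
      calc 1 / l ^ 16 = Real.exp (-(4 * M)) := by
            rw [hM, Real.exp_neg, one_div]
            congr 1
            rw [show 4 * Real.log (l ^ 4) = Real.log ((l ^ 4) ^ 4) by
              rw [Real.log_pow (n := 4) (x := l ^ 4)]; push_cast; ring]
            rw [Real.exp_log (by positivity)]
            ring
        _ ≤ _ := Real.exp_le_exp.mpr hre2
    calc 1 / l ^ 18 = 1 / l ^ 2 * (1 / l ^ 16) := by
          rw [one_div_mul_one_div]; congr 1; ring
      _ ≤ ‖F 0‖ * Real.exp (h z₀).re := by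
          gcongr
          exact hδ4.trans hF0

end

/-- **Lower bounds for Dirichlet L-functions in the classical zero-free region**, outside the
multiples of one exceptional modulus. -/
theorem zeroFree : ∃ c₁ : ℝ, 0 < c₁ ∧ ∃ B : ℝ, ∀ Y : ℕ, ∃ Q₀ : ℝ, ∀ Q : ℝ, Q₀ ≤ Q →
    ∃ q₁ : ℕ, Y < q₁ ∧ ∀ q : ℕ, [NeZero q] → (q : ℝ) ≤ Q → ¬ q₁ ∣ q →
      ∀ χ : DirichletCharacter ℂ q, χ ≠ 1 → ∀ s : ℂ,
        1 - c₁ / Real.log (Q * (|s.im| + 2)) ≤ s.re →
          (Real.log (Q * (|s.im| + 2))) ^ (-B) ≤ ‖DirichletCharacter.LFunction χ s‖ := by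
  have hk := kap_pos
  refine ⟨kap / 400, by positivity, 18, fun Y => ?_⟩
  obtain ⟨Q₁, hQ₁⟩ := zero_free_region Y
  refine ⟨max Q₁ (Real.exp (1600 / kap)), fun Q hQ => ?_⟩
  have hQ1 : Q₁ ≤ Q := (le_max_left _ _).trans hQ
  have hQ2 : Real.exp (1600 / kap) ≤ Q := (le_max_right _ _).trans hQ
  have hQ0 : 0 < Q := (Real.exp_pos _).trans_le hQ2
  have hlQ : 1600 / kap ≤ Real.log Q := by
    rw [Real.le_log_iff_exp_le hQ0]; exact hQ2
  obtain ⟨q₁, hq₁, hmain⟩ := hQ₁ Q hQ1
  refine ⟨q₁, hq₁, ?_⟩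
  intro q _ hqQ hdvd χ hχ s hs
  exact lower_of_zero_free χ hχ Q hqQ (hmain q hqQ hdvd χ hχ) s _ rfl
    (hlQ.trans (log_Q_le Q _ hQ0)) hs

end Pool.Agent.H90
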