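import Pool.Agent.H90.ZeroFree

/-!
# Classical zero-free region with one exceptional modulus, and lower bounds for L-functions
-/

namespace Pool.Agent.H90

open Complex Metric Set Filter Topology

lemma log_div_kap_le (l : ℝ) (hl : 21 ≤ l) : Real.log (l / kap) ≤ l := by
  have hk := kap_pos
  have h1 : Real.log (l / kap) = Real.log 2 + Real.log (l / 2) + Real.log 20000 := by
    rw [← Real.log_mul (by norm_num) (by positivity), ← Real.log_mul (by positivity) (by norm_num)]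
    congr 1
    unfold kap
    ring
  have h2 : Real.log (l / 2) ≤ l / 2 - 1 := Real.log_le_sub_one_of_pos (by positivity)
  have h3 := log_le_of_pow (C := 20000) (by norm_num) 15 (by norm_num)
  have h4 := log_two_le'
  norm_num at h3
  rw [h1]
  linarith

/-- conductors of quadratic characters of modulus at most `Q` with a zero very close to one -/
def Bad (Q : ℝ) (f : ℕ) : Prop :=
  ∃ q : ℕ, ∃ _ : NeZero q, (q : ℝ) ≤ Q ∧ ∃ χ : DirichletCharacter ℂ q, χ ≠ 1 ∧ χ ^ 2 = 1 ∧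
    χ.conductor = f ∧ ∃ ρ : ℂ, DirichletCharacter.LFunction χ ρ = 0 ∧
      1 - kap / 50 / Real.log (Q * (|ρ.im| + 2)) ≤ ρ.re ∧
      |ρ.im| ≤ kap / Real.log (Q * (|ρ.im| + 2)) / 4

lemma log_Q_le (Q t : ℝ) (hQ : 0 < Q) : Real.log Q ≤ Real.log (Q * (|t| + 2)) := by
  apply Real.log_le_log hQ
  nlinarith [abs_nonneg t]

lemma pos_of_log {Q : ℝ} (hQ0 : 0 ≤ Q) (h : 0 < Real.log Q) : 0 < Q := by
  rcases hQ0.lt_or_eq with h1 | h1
  · exact h1
  · rw [← h1, Real.log_zero] at h
    exact absurd h (lt_irrefl _)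

lemma bad_unique (Q : ℝ) (hQ : 21 ≤ Real.log Q) (f f' : ℕ) (h : Bad Q f) (h' : Bad Q f') :
    f = f' := by
  obtain ⟨q, hq, hqQ, χ, hχ, hχ2, hf, ρ, hρ, h1, h2⟩ := h
  obtain ⟨q', hq', hqQ', ψ, hψ, hψ2, hf', ρ', hρ', h1', h2'⟩ := h'
  have hq1 : (1 : ℝ) ≤ q := by exact_mod_cast Nat.pos_of_ne_zero (NeZero.ne q)
  have hQ0 : 0 < Q := by linarith
  have hk := kap_pos
  have : NeZero (q * q') := ⟨mul_ne_zero (NeZero.ne q) (NeZero.ne q')⟩
  by_contra hne
  set χ' := DirichletCharacter.changeLevel (dvd_mul_right q q') χ with hχ'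
  set ψ' := DirichletCharacter.changeLevel (dvd_mul_left q' q) ψ with hψ'
  have a1 : χ' ≠ 1 := fun h => hχ ((DirichletCharacter.changeLevel_eq_one_iff _).mp h)
  have a2 : ψ' ≠ 1 := fun h => hψ ((DirichletCharacter.changeLevel_eq_one_iff _).mp h)
  have a3 : χ' ^ 2 = 1 := by rw [hχ', ← map_pow, hχ2, map_one]
  have a4 : ψ' ^ 2 = 1 := by rw [hψ', ← map_pow, hψ2, map_one]
  have c1 : χ'.conductor = f := by rw [hχ', DirichletCharacter.conductor_changeLevel, hf]
  have c2 : ψ'.conductor = f' := by rw [hψ', DirichletCharacter.conductor_changeLevel, hf']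
  have a5 : χ' * ψ' ≠ 1 := by
    intro h
    apply hne
    have h5 : χ' = ψ' := by
      have : ψ' * ψ' = 1 := by rw [← sq]; exact a4
      calc χ' = χ' * (ψ' * ψ') := by rw [this, mul_one]
        _ = (χ' * ψ') * ψ' := by rw [mul_assoc]
        _ = ψ' := by rw [h, one_mul]
    rw [← c1, ← c2, h5]
  have z1 : DirichletCharacter.LFunction χ' ρ = 0 := by
    rw [hχ', DirichletCharacter.LFunction_changeLevel _ χ (Or.inl hχ), hρ, zero_mul]
  have z2 : DirichletCharacter.LFunction ψ' ρ' = 0 := by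
    rw [hψ', DirichletCharacter.LFunction_changeLevel _ ψ (Or.inl hψ), hρ', zero_mul]
  have hl1 := log_Q_le Q ρ.im hQ0
  have hl2 := log_Q_le Q ρ'.im hQ0
  have hlQ : 0 < Real.log Q := by linarith
  refine landau_page χ' ψ' a1 a2 a5 a3 a4 Q ?_ ρ ρ' z1 z2 (Real.log Q) rfl (by linarith)
    (log_div_kap_le _ hQ) ?_ ?_ ?_ ?_
  · push_cast
    rw [sq]
    gcongr
  · have : kap / 50 / Real.log (Q * (|ρ.im| + 2)) ≤ kap / 50 / Real.log Q := by gcongr
    linarith
  · have : kap / 50 / Real.log (Q * (|ρ'.im| + 2)) ≤ kap / 50 / Real.log Q := by gcongr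
    linarith
  · refine h2.trans ?_
    gcongr
  · refine h2'.trans ?_
    gcongr

lemma bad_large (Y : ℕ) : ∃ Q₀ : ℝ, ∀ Q : ℝ, Q₀ ≤ Q → ∀ f, Bad Q f → Y < f := by
  have hk := kap_pos
  have hev : ∀ᶠ s in 𝓝 (1 : ℂ), ∀ f ∈ Finset.range (Y + 1), ∀ _ : NeZero f,
      ∀ ψ : DirichletCharacter ℂ f, ψ ≠ 1 → DirichletCharacter.LFunction ψ s ≠ 0 := by
    rw [Finset.eventually_all]
    intro f _
    by_cases hf : f = 0
    · filter_upwards with s h
      exact absurd hf h.out
    · have : NeZero f := ⟨hf⟩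
      have h1 : ∀ᶠ s in 𝓝 (1 : ℂ), ∀ ψ : DirichletCharacter ℂ f, ψ ≠ 1 →
          DirichletCharacter.LFunction ψ s ≠ 0 := by
        rw [Filter.eventually_all]
        intro ψ
        by_cases hψ : ψ = 1
        · filter_upwards with s h
          exact absurd hψ h
        · have h2 := (DirichletCharacter.differentiable_LFunction hψ).continuous.continuousAt.eventually_ne
            (DirichletCharacter.LFunction_apply_one_ne_zero hψ)
          filter_upwards [h2] with s hs _ using hs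
      filter_upwards [h1] with s hs _ ψ hψ
      convert hs ψ hψ
  obtain ⟨ε, hε, hball⟩ := Metric.eventually_nhds_iff.mp hev
  refine ⟨Real.exp (21 + 2 / ε), fun Q hQ f hbad => ?_⟩
  have hQ0 : 0 < Q := (Real.exp_pos _).trans_le hQ
  have hlQ : 21 + 2 / ε ≤ Real.log Q := by
    rw [Real.le_log_iff_exp_le hQ0]; exact hQ
  obtain ⟨q, hq, hqQ, χ, hχ, hχ2, hf, ρ, hρ, h1, h2⟩ := hbad
  by_contra hcon
  push Not at hcon
  set l := Real.log (Q * (|ρ.im| + 2)) with hl
  have hlge : 21 + 2 / ε ≤ l := hlQ.trans (log_Q_le Q ρ.im hQ0)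
  have hε2 : 0 < 2 / ε := by positivity
  have hl0 : 0 < l := by linarith
  have hβ1 : ρ.re < 1 := by
    by_contra h
    exact DirichletCharacter.LFunction_ne_zero_of_one_le_re χ (Or.inl hχ) (by linarith) hρ
  have hkl : kap / l ≤ 1 / l := by gcongr; unfold kap; norm_num
  have h1l : 1 / l < ε := by
    rw [div_lt_iff₀ hl0]
    have : 2 ≤ ε * l := by
      have h3 : 2 / ε ≤ l := by linarith
      rw [div_le_iff₀ hε] at h3
      linarith
    linarith
  have h1l' : 1 / l ≤ 1 := by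
    rw [div_le_one hl0]; linarith
  have hk50 : kap / 50 / l = (1 / 50) * (kap / l) := by ring
  have hklpos : 0 < kap / l := by positivity
  have hdist : dist ρ 1 < ε := by
    rw [dist_eq_norm]
    calc ‖ρ - 1‖ ≤ |(ρ - 1).re| + |(ρ - 1).im| := Complex.norm_le_abs_re_add_abs_im _
      _ ≤ kap / 50 / l + kap / l / 4 := by
          apply add_le_add
          · rw [Complex.sub_re, Complex.one_re, abs_sub_comm, abs_of_pos (by linarith)]
            linarith
          · simpa using h2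
      _ ≤ 1 / l := by rw [hk50]; linarith
      _ < ε := h1l
  have hcn : NeZero χ.conductor := ⟨DirichletCharacter.conductor_ne_zero χ⟩
  have hprim : DirichletCharacter.changeLevel χ.conductor_dvd_level χ.primitiveCharacter = χ :=
    DirichletCharacter.changeLevel_primitiveCharacter χ
  have hp1 : χ.primitiveCharacter ≠ 1 := by
    intro h
    apply hχ
    rw [← hprim, h, map_one]
  have hne := hball hdist χ.conductor (by rw [hf]; exact Finset.mem_range.mpr (by omega)) hcn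
    χ.primitiveCharacter hp1
  have hLeq := DirichletCharacter.LFunction_changeLevel χ.conductor_dvd_level χ.primitiveCharacter
    (s := ρ) (Or.inl hp1)
  rw [hprim, hρ] at hLeq
  have hρ0 : 0 < ρ.re := by
    have : kap / 50 / l ≤ 1 / 50 := by
      rw [hk50]
      linarith
    linarith
  rcases mul_eq_zero.mp hLeq.symm with h | h
  · exact hne h
  · rw [Finset.prod_eq_zero_iff] at h
    obtain ⟨p, hp, hp0⟩ := h
    have hpp : p.Prime := Nat.prime_of_mem_primeFactors hp
    have h3 : χ.primitiveCharacter p * (p : ℂ) ^ (-ρ) = 1 := (sub_eq_zero.mp hp0).symm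
    have h4 : ‖χ.primitiveCharacter (p : ZMod χ.conductor) * (p : ℂ) ^ (-ρ)‖ < 1 := by
      rw [norm_mul, Complex.norm_natCast_cpow_of_pos hpp.pos]
      have h5 : (p : ℝ) ^ (-ρ).re < 1 := by
        apply Real.rpow_lt_one_of_one_lt_of_neg
        · exact_mod_cast hpp.one_lt
        · simpa using hρ0
      have h6 := DirichletCharacter.norm_le_one χ.primitiveCharacter (p : ZMod χ.conductor)
      have h7 : 0 ≤ (p : ℝ) ^ (-ρ).re := by positivity
      calc _ ≤ 1 * (p : ℝ) ^ (-ρ).re := by gcongr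
        _ < 1 := by rw [one_mul]; exact h5
    rw [h3, norm_one] at h4
    exact lt_irrefl _ h4

/-- **Zero-free region** with at most one exceptional conductor. -/
theorem zero_free_region (Y : ℕ) : ∃ Q₀ : ℝ, ∀ Q : ℝ, Q₀ ≤ Q → ∃ q₁ : ℕ, Y < q₁ ∧
    ∀ q : ℕ, [NeZero q] → (q : ℝ) ≤ Q → ¬ q₁ ∣ q → ∀ χ : DirichletCharacter ℂ q, χ ≠ 1 → ∀ ρ : ℂ,
      DirichletCharacter.LFunction χ ρ = 0 →
        ρ.re < 1 - kap / 50 / Real.log (Q * (|ρ.im| + 2)) := by
  obtain ⟨Q₁, hQ₁⟩ := bad_large Y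
  refine ⟨max Q₁ (Real.exp 21), fun Q hQ => ?_⟩
  have hQ1 : Q₁ ≤ Q := (le_max_left _ _).trans hQ
  have hQ2 : Real.exp 21 ≤ Q := (le_max_right _ _).trans hQ
  have hQ0 : 0 < Q := (Real.exp_pos _).trans_le hQ2
  have hlQ : 21 ≤ Real.log Q := by
    rw [Real.le_log_iff_exp_le hQ0]; exact hQ2
  have key : ∀ q : ℕ, [NeZero q] → (q : ℝ) ≤ Q → ∀ χ : DirichletCharacter ℂ q, χ ≠ 1 → ∀ ρ : ℂ,
      DirichletCharacter.LFunction χ ρ = 0 →
        ρ.re < 1 - kap / 50 / Real.log (Q * (|ρ.im| + 2)) ∨ (Bad Q χ.conductor) := by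
    intro q _ hqQ χ hχ ρ hρ
    by_cases hre : ρ.re < 1 - kap / 50 / Real.log (Q * (|ρ.im| + 2))
    · exact Or.inl hre
    · right
      have hlge := hlQ.trans (log_Q_le Q ρ.im hQ0)
      by_cases hcase : χ ^ 2 ≠ 1 ∨ kap / Real.log (Q * (|ρ.im| + 2)) / 4 ≤ |ρ.im|
      · exact absurd (zero_free_generic χ hχ Q hqQ ρ hρ _ rfl (by linarith)
          (log_div_kap_le _ hlge) hcase) hre
      · push Not at hcase
        push Not at hre
        exact ⟨q, inferInstance, hqQ, χ, hχ, hcase.1, rfl, ρ, hρ, hre, hcase.2.le⟩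
  by_cases hex : ∃ f, Bad Q f
  · obtain ⟨f, hf⟩ := hex
    refine ⟨f, hQ₁ Q hQ1 f hf, ?_⟩
    intro q _ hqQ hdvd χ hχ ρ hρ
    rcases key q hqQ χ hχ ρ hρ with h | h
    · exact h
    · exfalso
      apply hdvd
      rw [bad_unique Q hlQ f χ.conductor hf h]
      exact χ.conductor_dvd_level
  · push Not at hex
    refine ⟨Y + 1, by omega, ?_⟩
    intro q _ hqQ hdvd χ hχ ρ hρ
    rcases key q hqQ χ hχ ρ hρ with h | h
    · exact h
    · exact absurd h (hex _)

end Pool.Agent.H90
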