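import Pool.Agent.H90.Landau
import Pool.Agent.H90.LBounds

/-!
# Inequalities for the real part of the logarithmic derivative of Dirichlet L-functions
-/

namespace Pool.Agent.H90

open Complex Metric Set Filter Topology

variable {q : ℕ} [NeZero q]

/-- the real part of `-L'/L` -/
noncomputable def DL (χ : DirichletCharacter ℂ q) (s : ℂ) : ℝ :=
  (-deriv (DirichletCharacter.LFunction χ) s / DirichletCharacter.LFunction χ s).re

/-- coefficients of `-L'/L` -/
noncomputable def LamChi (χ : DirichletCharacter ℂ q) : ℕ → ℂ :=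
  (fun n : ℕ => χ (n : ZMod q)) * fun n : ℕ => ((ArithmeticFunction.vonMangoldt n : ℝ) : ℂ)

lemma DL_hasSum (χ : DirichletCharacter ℂ q) (s : ℂ) (hs : 1 < s.re) :
    HasSum (fun n : ℕ => (LSeries.term (LamChi χ) s n).re) (DL χ s) := by
  have h1 : LSeriesSummable (LamChi χ) s :=
    DirichletCharacter.LSeriesSummable_twist_vonMangoldt χ hs
  have h2 : LSeries (LamChi χ) s =
      -deriv (DirichletCharacter.LFunction χ) s / DirichletCharacter.LFunction χ s := by
    rw [DirichletCharacter.deriv_LFunction_eq_deriv_LSeries χ hs,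
      DirichletCharacter.LFunction_eq_LSeries χ hs]
    exact DirichletCharacter.LSeries_twist_vonMangoldt_eq χ hs
  have h3 : HasSum (LSeries.term (LamChi χ) s)
      (-deriv (DirichletCharacter.LFunction χ) s / DirichletCharacter.LFunction χ s) := by
    rw [← h2]
    exact h1.hasSum
  exact Complex.hasSum_re h3

/-- `n^(-it)` -/
noncomputable def ut (t : ℝ) (n : ℕ) : ℂ := (n : ℂ) ^ (-((t : ℂ) * I))

lemma norm_ut (t : ℝ) (n : ℕ) (hn : n ≠ 0) : ‖ut t n‖ = 1 := by
  unfold ut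
  rw [Complex.norm_natCast_cpow_of_pos (Nat.pos_of_ne_zero hn)]
  simp

lemma ut_two (t : ℝ) (n : ℕ) : ut (2 * t) n = ut t n ^ 2 := by
  unfold ut
  rw [← Complex.cpow_nat_mul]
  congr 1
  push_cast
  ring

lemma ut_zero (n : ℕ) : ut 0 n = 1 := by
  unfold ut
  simp

omit [NeZero q] in
lemma term_re (χ : DirichletCharacter ℂ q) (σ t : ℝ) (n : ℕ) (hn : n ≠ 0) :
    (LSeries.term (LamChi χ) (σ + t * I) n).re =
      ArithmeticFunction.vonMangoldt n * (n : ℝ) ^ (-σ) * (χ (n : ZMod q) * ut t n).re := by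
  have hn' : (n : ℂ) ≠ 0 := by exact_mod_cast hn
  rw [LSeries.term_of_ne_zero hn]
  have h1 : LamChi χ n / (n : ℂ) ^ ((σ : ℂ) + t * I) =
      ((ArithmeticFunction.vonMangoldt n * (n : ℝ) ^ (-σ) : ℝ) : ℂ) * (χ (n : ZMod q) * ut t n) := by
    unfold LamChi ut
    simp only [Pi.mul_apply]
    rw [div_eq_mul_inv, ← Complex.cpow_neg]
    have h2 : -((σ : ℂ) + t * I) = (-σ : ℂ) + (-((t : ℂ) * I)) := by ring
    rw [h2, Complex.cpow_add _ _ hn', Complex.ofReal_mul, Complex.ofReal_cpow (by positivity)]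
    push_cast
    ring
  rw [h1, Complex.re_ofReal_mul]

lemma real_nonneg_aux (z : ℂ) (hz : ‖z‖ = 1) : 0 ≤ 3 + 4 * z.re + (z ^ 2).re := by
  have h1 : z.re ^ 2 + z.im ^ 2 = 1 := by
    have := Complex.sq_norm z
    rw [hz, Complex.normSq_apply] at this
    nlinarith
  have h2 : (z ^ 2).re = z.re ^ 2 - z.im ^ 2 := by
    rw [sq, Complex.mul_re]; ring
  rw [h2]
  nlinarith [sq_nonneg (1 + z.re)]

lemma trivChar_apply (n : ℕ) (χ : DirichletCharacter ℂ q) (h : χ (n : ZMod q) ≠ 0) :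
    (1 : DirichletCharacter ℂ q) (n : ZMod q) = 1 := by
  apply MulChar.one_apply
  by_contra hcon
  exact h (χ.map_nonunit hcon)

/-- `χ n` has norm one when nonzero -/
lemma norm_char (χ : DirichletCharacter ℂ q) (n : ℕ) (h : χ (n : ZMod q) ≠ 0) :
    ‖χ (n : ZMod q)‖ = 1 := by
  have hu : IsUnit (n : ZMod q) := by
    by_contra hcon
    exact h (χ.map_nonunit hcon)
  obtain ⟨u, hu⟩ := hu
  rw [← hu]
  exact DirichletCharacter.unit_norm_eq_one χ u

/-- The 3-4-1 inequality. -/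
theorem three_four_one (χ : DirichletCharacter ℂ q) (σ t : ℝ) (hσ : 1 < σ) :
    0 ≤ 3 * DL (1 : DirichletCharacter ℂ q) σ + 4 * DL χ (σ + t * I) +
      DL (χ ^ 2) (σ + 2 * t * I) := by
  have h0 := DL_hasSum (1 : DirichletCharacter ℂ q) (σ + (0 : ℝ) * I) (by simpa using hσ)
  have h1 := DL_hasSum χ (σ + t * I) (by simpa using hσ)
  have h2 := DL_hasSum (χ ^ 2) (σ + (2 * t : ℝ) * I) (by simpa using hσ)
  have hs := ((h0.mul_left 3).add (h1.mul_left 4)).add h2
  have e0 : (σ : ℂ) + ((0 : ℝ) : ℂ) * I = σ := by simp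
  have e2 : (σ : ℂ) + ((2 * t : ℝ) : ℂ) * I = σ + 2 * t * I := by push_cast; ring
  have hnn := hs.nonneg (fun n => by
    rcases Nat.eq_zero_or_pos n with hn | hn
    · subst hn; simp
    · have hn' : n ≠ 0 := by omega
      simp only [term_re _ _ _ n hn']
      have hΛ : 0 ≤ ArithmeticFunction.vonMangoldt n * (n : ℝ) ^ (-σ) :=
        mul_nonneg ArithmeticFunction.vonMangoldt_nonneg (by positivity)
      by_cases hχ : χ (n : ZMod q) = 0
      · have hz : (1 : DirichletCharacter ℂ q) (n : ZMod q) = 0 := by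
          apply MulChar.map_nonunit
          intro hu
          obtain ⟨u, hu⟩ := hu
          have := DirichletCharacter.unit_norm_eq_one χ u
          rw [hu, hχ] at this
          simp at this
        have hz2 : (χ ^ 2) (n : ZMod q) = 0 := by
          rw [MulChar.pow_apply' χ two_ne_zero, hχ]; simp
        rw [hz, hχ, hz2]
        simp
      · rw [trivChar_apply n χ hχ, MulChar.pow_apply' χ two_ne_zero, ut_zero, ut_two]
        set z := χ (n : ZMod q) * ut t n with hz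
        have hzn : ‖z‖ = 1 := by rw [hz, norm_mul, norm_char χ n hχ, norm_ut t n hn', one_mul]
        have h3 : χ (n : ZMod q) ^ 2 * ut t n ^ 2 = z ^ 2 := by rw [hz]; ring
        rw [h3]
        have h4 := real_nonneg_aux z hzn
        have h5 : 3 * (ArithmeticFunction.vonMangoldt n * (n : ℝ) ^ (-σ) * ((1 : ℂ) * 1).re) +
            4 * (ArithmeticFunction.vonMangoldt n * (n : ℝ) ^ (-σ) * z.re) +
            ArithmeticFunction.vonMangoldt n * (n : ℝ) ^ (-σ) * (z ^ 2).re =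
            (ArithmeticFunction.vonMangoldt n * (n : ℝ) ^ (-σ)) * (3 + 4 * z.re + (z ^ 2).re) := by
          simp only [mul_one, Complex.one_re]
          ring
        rw [h5]
        exact mul_nonneg hΛ h4)
  rw [e0, e2] at hnn
  exact hnn

omit [NeZero q] in
/-- A character with `χ² = 1` takes real values in `{-1, 0, 1}`. -/
lemma quad_values (χ : DirichletCharacter ℂ q) (h : χ ^ 2 = 1) (x : ZMod q) (hx : IsUnit x) :
    χ x = 1 ∨ χ x = -1 := by
  have h1 : (χ ^ 2) x = 1 := by rw [h]; exact MulChar.one_apply hx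
  rw [MulChar.pow_apply' χ two_ne_zero] at h1
  exact mul_self_eq_one_iff.mp (by rw [← sq]; exact h1)

lemma char_unit_of_ne_zero (χ : DirichletCharacter ℂ q) (x : ZMod q) (h : χ x ≠ 0) : IsUnit x := by
  by_contra hcon
  exact h (χ.map_nonunit hcon)

/-- The four character inequality. -/
theorem four_chars (χ ψ : DirichletCharacter ℂ q) (hχ : χ ^ 2 = 1) (hψ : ψ ^ 2 = 1) (σ : ℝ)
    (hσ : 1 < σ) :
    0 ≤ DL (1 : DirichletCharacter ℂ q) σ + DL χ σ + DL ψ σ + DL (χ * ψ) σ := by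
  have h0 := DL_hasSum (1 : DirichletCharacter ℂ q) (σ + (0 : ℝ) * I) (by simpa using hσ)
  have h1 := DL_hasSum χ (σ + (0 : ℝ) * I) (by simpa using hσ)
  have h2 := DL_hasSum ψ (σ + (0 : ℝ) * I) (by simpa using hσ)
  have h3 := DL_hasSum (χ * ψ) (σ + (0 : ℝ) * I) (by simpa using hσ)
  have hs := ((h0.add h1).add h2).add h3
  have e0 : (σ : ℂ) + ((0 : ℝ) : ℂ) * I = σ := by simp
  have hnn := hs.nonneg (fun n => by
    rcases Nat.eq_zero_or_pos n with hn | hn
    · subst hn; simp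
    · have hn' : n ≠ 0 := by omega
      simp only [term_re _ _ _ n hn', ut_zero, mul_one]
      have hΛ : 0 ≤ ArithmeticFunction.vonMangoldt n * (n : ℝ) ^ (-σ) :=
        mul_nonneg ArithmeticFunction.vonMangoldt_nonneg (by positivity)
      by_cases hu : IsUnit (n : ZMod q)
      · rw [MulChar.one_apply hu, MulChar.mul_apply]
        set L := ArithmeticFunction.vonMangoldt n * (n : ℝ) ^ (-σ) with hL
        rcases quad_values χ hχ _ hu with h | h <;> rcases quad_values ψ hψ _ hu with h' | h' <;>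
          rw [h, h'] <;> simp <;> nlinarith
      · rw [MulChar.map_nonunit _ hu, MulChar.map_nonunit _ hu, MulChar.map_nonunit _ hu,
          MulChar.map_nonunit _ hu]
        simp)
  rw [e0] at hnn
  exact hnn

/-! ### Upper bounds for `DL` -/

lemma norm_le_of_mem (s₀ z : ℂ) (h1 : 1 < s₀.re) (h2 : s₀.re ≤ 2) (hz : z ∈ closedBall s₀ (1 / 2)) :
    1 / 2 ≤ z.re ∧ ‖z‖ ≤ |s₀.im| + 5 / 2 := by
  have h3 : ‖z - s₀‖ ≤ 1 / 2 := by simpa [mem_closedBall, dist_eq_norm] using hz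
  have h4 := (Complex.abs_re_le_norm (z - s₀)).trans h3
  rw [abs_le, Complex.sub_re] at h4
  refine ⟨by linarith, ?_⟩
  have h5 : ‖s₀‖ ≤ |s₀.re| + |s₀.im| := Complex.norm_le_abs_re_add_abs_im s₀
  rw [abs_of_pos (by linarith)] at h5
  have h6 : ‖z‖ ≤ ‖z - s₀‖ + ‖s₀‖ := by
    calc ‖z‖ = ‖(z - s₀) + s₀‖ := by ring_nf
      _ ≤ _ := norm_add_le _ _
  linarith

/-- bound for a non-principal character -/
theorem DL_le_nonprincipal (χ : DirichletCharacter ℂ q) (hχ : χ ≠ 1) (Q : ℝ) (hqQ : (q : ℝ) ≤ Q)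
    (s₀ : ℂ) (h1 : 1 < s₀.re) (h2 : s₀.re ≤ 2) :
    DL χ s₀ ≤ 8 * Real.log (96 * (Q * (|s₀.im| + 2)) / (s₀.re - 1)) := by
  have hq1 : (1 : ℝ) ≤ q := by exact_mod_cast Nat.pos_of_ne_zero (NeZero.ne q)
  have hQ0 : 0 < Q := by linarith
  have hη : 0 < s₀.re - 1 := by linarith
  have hA : ∀ z ∈ closedBall s₀ (1 / 2), ‖DirichletCharacter.LFunction χ z‖ ≤
      24 * (Q * (|s₀.im| + 2)) := by
    intro z hz
    obtain ⟨h3, h4⟩ := norm_le_of_mem s₀ z h1 h2 hz
    calc _ ≤ 16 * q * ‖z‖ := norm_LFunction_le χ hχ z h3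
      _ ≤ 16 * Q * (|s₀.im| + 5 / 2) := by gcongr
      _ ≤ 24 * (Q * (|s₀.im| + 2)) := by
          nlinarith [abs_nonneg s₀.im, mul_nonneg (by linarith : (0 : ℝ) ≤ Q) (abs_nonneg s₀.im)]
  have ha : (s₀.re - 1) / 4 ≤ ‖DirichletCharacter.LFunction χ s₀‖ := by
    refine le_trans ?_ (norm_LFunction_ge χ s₀ h1)
    gcongr
    linarith
  have hz : ∀ z ∈ ball s₀ (1 / 2 / 2), DirichletCharacter.LFunction χ z = 0 → z.re ≤ s₀.re := by
    intro z _ hz0
    by_contra hcon
    exact DirichletCharacter.LFunction_ne_zero_of_one_le_re χ (Or.inl hχ) (by linarith) hz0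
  have hL := landau (DirichletCharacter.LFunction χ) s₀ (1 / 2) _ _ (by norm_num)
    ((DirichletCharacter.differentiable_LFunction hχ).differentiableOn) hA (by positivity) ha hz
  unfold DL
  rw [neg_div, Complex.neg_re]
  have e : 24 * (Q * (|s₀.im| + 2)) / ((s₀.re - 1) / 4) =
      96 * (Q * (|s₀.im| + 2)) / (s₀.re - 1) := by
    field_simp; ring
  rw [e] at hL
  norm_num at hL ⊢
  linarith

/-- bound for a non-principal character with a zero `ρ` -/
theorem DL_le_zero (χ : DirichletCharacter ℂ q) (hχ : χ ≠ 1) (Q : ℝ) (hqQ : (q : ℝ) ≤ Q)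
    (s₀ ρ : ℂ) (h1 : 1 < s₀.re) (h2 : s₀.re ≤ 2) (hρ : ‖s₀ - ρ‖ < 1 / 4)
    (hLρ : DirichletCharacter.LFunction χ ρ = 0) :
    DL χ s₀ ≤ 8 * Real.log (96 * (Q * (|s₀.im| + 2)) / (s₀.re - 1)) -
      (s₀.re - ρ.re) / ‖s₀ - ρ‖ ^ 2 * (1 - 4 * ‖s₀ - ρ‖ ^ 2) := by
  have hq1 : (1 : ℝ) ≤ q := by exact_mod_cast Nat.pos_of_ne_zero (NeZero.ne q)
  have hQ0 : 0 < Q := by linarith
  have hη : 0 < s₀.re - 1 := by linarith
  have hA : ∀ z ∈ closedBall s₀ (1 / 2), ‖DirichletCharacter.LFunction χ z‖ ≤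
      24 * (Q * (|s₀.im| + 2)) := by
    intro z hz
    obtain ⟨h3, h4⟩ := norm_le_of_mem s₀ z h1 h2 hz
    calc _ ≤ 16 * q * ‖z‖ := norm_LFunction_le χ hχ z h3
      _ ≤ 16 * Q * (|s₀.im| + 5 / 2) := by gcongr
      _ ≤ 24 * (Q * (|s₀.im| + 2)) := by
          nlinarith [abs_nonneg s₀.im, mul_nonneg (by linarith : (0 : ℝ) ≤ Q) (abs_nonneg s₀.im)]
  have ha : (s₀.re - 1) / 4 ≤ ‖DirichletCharacter.LFunction χ s₀‖ := by
    refine le_trans ?_ (norm_LFunction_ge χ s₀ h1)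
    gcongr
    linarith
  have hz : ∀ z ∈ ball s₀ (1 / 2 / 2), DirichletCharacter.LFunction χ z = 0 → z.re ≤ s₀.re := by
    intro z _ hz0
    by_contra hcon
    exact DirichletCharacter.LFunction_ne_zero_of_one_le_re χ (Or.inl hχ) (by linarith) hz0
  have hρb : ρ ∈ ball s₀ (1 / 2 / 2) := by
    rw [mem_ball, dist_comm, dist_eq_norm]
    norm_num
    linarith
  have hL := landau_zero (DirichletCharacter.LFunction χ) s₀ ρ (1 / 2) _ _ (by norm_num)
    ((DirichletCharacter.differentiable_LFunction hχ).differentiableOn) hA (by positivity) ha hz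
    hρb hLρ
  unfold DL
  rw [neg_div, Complex.neg_re]
  have e : 24 * (Q * (|s₀.im| + 2)) / ((s₀.re - 1) / 4) =
      96 * (Q * (|s₀.im| + 2)) / (s₀.re - 1) := by
    field_simp; ring
  have e2 : 1 - ‖s₀ - ρ‖ ^ 2 / (1 / 2) ^ 2 = 1 - 4 * ‖s₀ - ρ‖ ^ 2 := by ring
  rw [e, e2] at hL
  have e3 : (4 : ℝ) / (1 / 2) = 8 := by norm_num
  rw [e3] at hL
  linarith

/-- bound for the principal character -/
theorem DL_le_principal (Q : ℝ) (hqQ : (q : ℝ) ≤ Q)
    (s₀ : ℂ) (h1 : 1 < s₀.re) (h2 : s₀.re ≤ 2) :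
    DL (1 : DirichletCharacter ℂ q) s₀ ≤ (1 / (s₀ - 1)).re +
      8 * Real.log (176 * (Q * (|s₀.im| + 2)) ^ 2 / (s₀.re - 1) ^ 2) := by
  have hq1 : (1 : ℝ) ≤ q := by exact_mod_cast Nat.pos_of_ne_zero (NeZero.ne q)
  have hQ0 : 0 < Q := by linarith
  have hη : 0 < s₀.re - 1 := by linarith
  have hs1 : s₀ ≠ 1 := by
    rintro rfl
    simp at h1
  have hs1' : s₀ - 1 ≠ 0 := sub_ne_zero.mpr hs1
  have hA : ∀ z ∈ closedBall s₀ (1 / 2), ‖DirichletCharacter.LFunctionTrivChar₁ q z‖ ≤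
      44 * (Q * (|s₀.im| + 2)) ^ 2 := by
    intro z hz
    obtain ⟨h3, h4⟩ := norm_le_of_mem s₀ z h1 h2 hz
    have h0 := abs_nonneg s₀.im
    calc _ ≤ 11 * q * (‖z‖ + 1) ^ 2 := norm_LFunctionTrivChar₁_le z h3
      _ ≤ 11 * Q * (2 * (|s₀.im| + 2)) ^ 2 := by
          have h5 : ‖z‖ + 1 ≤ 2 * (|s₀.im| + 2) := by linarith
          gcongr
      _ = 44 * (Q * (|s₀.im| + 2) ^ 2) := by ring
      _ ≤ 44 * (Q * (|s₀.im| + 2)) ^ 2 := by
          have : Q * (|s₀.im| + 2) ^ 2 ≤ Q ^ 2 * (|s₀.im| + 2) ^ 2 := by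
            gcongr
            nlinarith
          nlinarith
  have hval : DirichletCharacter.LFunctionTrivChar₁ q s₀ =
      (s₀ - 1) * DirichletCharacter.LFunction (1 : DirichletCharacter ℂ q) s₀ := by
    unfold DirichletCharacter.LFunctionTrivChar₁
    rw [Function.update_of_ne hs1]
  have hLne : DirichletCharacter.LFunction (1 : DirichletCharacter ℂ q) s₀ ≠ 0 :=
    DirichletCharacter.LFunction_ne_zero_of_one_le_re _ (Or.inr hs1) h1.le
  have ha : (s₀.re - 1) ^ 2 / 4 ≤ ‖DirichletCharacter.LFunctionTrivChar₁ q s₀‖ := by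
    rw [hval, norm_mul]
    have h3 := norm_LFunction_ge (1 : DirichletCharacter ℂ q) s₀ h1
    have h4 : s₀.re - 1 ≤ ‖s₀ - 1‖ := by
      have := (le_abs_self _).trans (Complex.abs_re_le_norm (s₀ - 1))
      simpa using this
    have h5 : (s₀.re - 1) / 4 ≤ (s₀.re - 1) / (2 * s₀.re) := by
      gcongr
      linarith
    calc (s₀.re - 1) ^ 2 / 4 = (s₀.re - 1) * ((s₀.re - 1) / 4) := by ring
      _ ≤ _ := by
          gcongr
          exact h5.trans h3
  have hz : ∀ z ∈ ball s₀ (1 / 2 / 2), DirichletCharacter.LFunctionTrivChar₁ q z = 0 →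
      z.re ≤ s₀.re := by
    intro z _ hz0
    by_contra hcon
    have hz1 : z ≠ 1 := by
      rintro rfl
      simp only [Complex.one_re] at hcon
      linarith
    unfold DirichletCharacter.LFunctionTrivChar₁ at hz0
    rw [Function.update_of_ne hz1] at hz0
    rcases mul_eq_zero.mp hz0 with h | h
    · exact hz1 (sub_eq_zero.mp h)
    · exact DirichletCharacter.LFunction_ne_zero_of_one_le_re _ (Or.inr hz1) (by linarith) h
  have hL := landau (DirichletCharacter.LFunctionTrivChar₁ q) s₀ (1 / 2) _ _ (by norm_num)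
    ((DirichletCharacter.differentiable_LFunctionTrivChar₁ q).differentiableOn) hA (by positivity) ha hz
  have hder := DirichletCharacter.deriv_LFunctionTrivChar₁_apply_of_ne_one q hs1
  have e1 : deriv (DirichletCharacter.LFunctionTrivChar₁ q) s₀ /
      DirichletCharacter.LFunctionTrivChar₁ q s₀ = 1 / (s₀ - 1) -
      (-deriv (DirichletCharacter.LFunction (1 : DirichletCharacter ℂ q)) s₀ /
        DirichletCharacter.LFunction (1 : DirichletCharacter ℂ q) s₀) := by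
    rw [hder, hval]
    have : DirichletCharacter.LFunctionTrivChar q = DirichletCharacter.LFunction (1 : DirichletCharacter ℂ q) := rfl
    rw [this]
    field_simp
    ring
  rw [e1, Complex.sub_re] at hL
  have e : 44 * (Q * (|s₀.im| + 2)) ^ 2 / ((s₀.re - 1) ^ 2 / 4) =
      176 * (Q * (|s₀.im| + 2)) ^ 2 / (s₀.re - 1) ^ 2 := by
    field_simp; ring
  have e3 : (4 : ℝ) / (1 / 2) = 8 := by norm_num
  rw [e, e3] at hL
  unfold DL
  linarith

end Pool.Agent.H90
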