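import Pool.Agent.H90.ZFRegion

/-!
# A classical zero-free region for Dirichlet L-functions, with Landau-Page exceptional modulus
-/

namespace Pool.Agent.H90

open Complex Metric Set Filter Topology

/-- small absolute constant -/
noncomputable def kap : ℝ := 1 / 20000

lemma kap_pos : 0 < kap := by unfold kap; norm_num

lemma log_two_le' : Real.log 2 ≤ 0.6932 := by
  have := Real.log_two_lt_d9
  linarith

lemma log_le_of_pow {C : ℝ} (hC : 0 < C) (n : ℕ) (h : C ≤ 2 ^ n) : Real.log C ≤ n * 0.6932 := by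
  calc Real.log C ≤ Real.log (2 ^ n) := Real.log_le_log hC h
    _ = n * Real.log 2 := by rw [Real.log_pow]
    _ ≤ n * 0.6932 := by gcongr; exact log_two_le'

lemma log_h1 (C X η : ℝ) (hC : 0 < C) (hX : 0 < X) (hη : 0 < η) :
    Real.log (C * X / η) = Real.log C + Real.log X + Real.log (1 / η) := by
  have : C * X / η = C * X * (1 / η) := by ring
  rw [this, Real.log_mul (by positivity) (by positivity), Real.log_mul hC.ne' hX.ne']

lemma log_h2 (C X η : ℝ) (hC : 0 < C) (hX : 0 < X) (hη : 0 < η) :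
    Real.log (C * X ^ 2 / η ^ 2) = Real.log C + 2 * Real.log X + 2 * Real.log (1 / η) := by
  have : C * X ^ 2 / η ^ 2 = C * X ^ 2 * (1 / η) ^ 2 := by ring
  rw [this, Real.log_mul (by positivity) (by positivity), Real.log_mul hC.ne' (by positivity),
    Real.log_pow, Real.log_pow]
  push_cast
  ring

lemma inv_re_real (η : ℝ) : (1 / (((1 + η : ℝ) : ℂ) - 1)).re = 1 / η := by
  have : ((1 + η : ℝ) : ℂ) - 1 = ((η : ℝ) : ℂ) := by push_cast; ring
  rw [this, ← Complex.ofReal_one, ← Complex.ofReal_div, Complex.ofReal_re]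

lemma inv_re_cplx (η t : ℝ) : (1 / (((1 + η : ℝ) : ℂ) + 2 * t * I - 1)).re =
    η / (η ^ 2 + 4 * t ^ 2) := by
  have : ((1 + η : ℝ) : ℂ) + 2 * t * I - 1 = (η : ℂ) + (2 * t : ℝ) * I := by push_cast; ring
  rw [this, one_div, Complex.inv_re, Complex.normSq_add_mul_I]
  simp only [Complex.add_re, Complex.ofReal_re, Complex.mul_re, Complex.I_re, mul_zero,
    Complex.ofReal_im, Complex.I_im, mul_one, sub_self, add_zero]
  congr 1
  ring

section
variable {q : ℕ} [NeZero q]

/-- Zero-free region for complex characters, and for real characters away from the real axis. -/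
lemma zero_free_generic (χ : DirichletCharacter ℂ q) (hχ : χ ≠ 1) (Q : ℝ) (hqQ : (q : ℝ) ≤ Q)
    (ρ : ℂ) (hρ : DirichletCharacter.LFunction χ ρ = 0) (l : ℝ)
    (hl : l = Real.log (Q * (|ρ.im| + 2))) (hl7 : 7 ≤ l) (hlk : Real.log (l / kap) ≤ l)
    (hcase : χ ^ 2 ≠ 1 ∨ kap / l / 4 ≤ |ρ.im|) : ρ.re < 1 - kap / 50 / l := by
  by_contra hcon
  push Not at hcon
  have hk := kap_pos
  have hq1 : (1 : ℝ) ≤ q := by exact_mod_cast Nat.pos_of_ne_zero (NeZero.ne q)
  have hQ0 : 0 < Q := by linarith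
  have hl0 : 0 < l := by linarith
  set η : ℝ := kap / l with hη
  have hη0 : 0 < η := by positivity
  have hηl : η * l = kap := by rw [hη]; field_simp
  have hη1 : η ≤ 1 / 140000 := by
    rw [hη, div_le_iff₀ hl0]
    unfold kap
    linarith
  have hlη : Real.log (1 / η) ≤ l := by
    have : 1 / η = l / kap := by rw [hη, one_div_div]
    rw [this]; exact hlk
  have hβ1 : ρ.re < 1 := by
    by_contra h
    exact DirichletCharacter.LFunction_ne_zero_of_one_le_re χ (Or.inl hχ) (by linarith) hρ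
  set γ := ρ.im with hγ
  set x : ℝ := 1 + η - ρ.re with hx
  have hx1 : η < x := by rw [hx]; linarith
  have hx2 : x ≤ 1.02 * η := by
    have : kap / 50 / l = 0.02 * η := by rw [hη]; ring
    rw [hx]; linarith
  have hx0 : 0 < x := by linarith
  -- first term
  have hX0 : 0 < Q * (|γ| + 2) := by positivity
  have h2Q : Q * (|((1 + η : ℝ) : ℂ).im| + 2) ≤ Q * (|γ| + 2) := by
    simp only [Complex.ofReal_im, abs_zero]
    gcongr
    exact abs_nonneg γ
  have D0 := DL_le_principal (q := q) Q hqQ ((1 + η : ℝ) : ℂ) (by simpa using hη0)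
    (by simp only [Complex.ofReal_re]; linarith)
  rw [inv_re_real] at D0
  have e0 : (((1 + η : ℝ) : ℂ).re - 1) = η := by simp
  rw [e0] at D0
  have D0' : Real.log (176 * (Q * (|((1 + η : ℝ) : ℂ).im| + 2)) ^ 2 / η ^ 2) ≤ 5 * l := by
    calc _ ≤ Real.log (176 * (Q * (|γ| + 2)) ^ 2 / η ^ 2) := by
          apply Real.log_le_log
          · positivity
          · gcongr
      _ = Real.log 176 + 2 * Real.log (Q * (|γ| + 2)) + 2 * Real.log (1 / η) :=
          log_h2 _ _ _ (by norm_num) hX0 hη0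
      _ ≤ 5 * l := by
          rw [← hl]
          have := log_le_of_pow (C := 176) (by norm_num) 8 (by norm_num)
          norm_num at this
          linarith
  -- second term
  have hs0re : (((1 + η : ℝ) : ℂ) + γ * I).re = 1 + η := by simp
  have hs0im : (((1 + η : ℝ) : ℂ) + γ * I).im = γ := by simp
  have hdiff : (((1 + η : ℝ) : ℂ) + γ * I) - ρ = ((x : ℝ) : ℂ) := by
    apply Complex.ext
    · simp [hx]
    · simp [hγ]
  have hnorm : ‖(((1 + η : ℝ) : ℂ) + γ * I) - ρ‖ = x := by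
    rw [hdiff, Complex.norm_real, Real.norm_eq_abs, abs_of_pos hx0]
  have D1 := DL_le_zero χ hχ Q hqQ (((1 + η : ℝ) : ℂ) + γ * I) ρ (by rw [hs0re]; linarith)
    (by rw [hs0re]; linarith) (by rw [hnorm]; linarith) hρ
  rw [hnorm, hs0re, hs0im] at D1
  have e1 : (1 + η - 1) = η := by ring
  rw [e1] at D1
  have D1' : Real.log (96 * (Q * (|γ| + 2)) / η) ≤ 3 * l := by
    rw [log_h1 _ _ _ (by norm_num) hX0 hη0, ← hl]
    have := log_le_of_pow (C := 96) (by norm_num) 7 (by norm_num)
    norm_num at this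
    linarith
  have D1'' : (1 + η - ρ.re) / x ^ 2 * (1 - 4 * x ^ 2) = 1 / x - 4 * x := by
    rw [← hx]
    field_simp
  rw [D1''] at D1
  -- third term
  have hs2re : (((1 + η : ℝ) : ℂ) + 2 * γ * I).re = 1 + η := by simp
  have hs2im : (((1 + η : ℝ) : ℂ) + 2 * γ * I).im = 2 * γ := by simp
  have habs2 : |2 * γ| + 2 ≤ 2 * (|γ| + 2) := by
    rw [abs_mul, abs_two]; linarith
  have hlog2 : Real.log (2 * (Q * (|γ| + 2))) ≤ 0.6932 + l := by
    rw [Real.log_mul (by norm_num) hX0.ne', ← hl]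
    have := log_two_le'
    linarith
  have D2 : DL (χ ^ 2) (((1 + η : ℝ) : ℂ) + 2 * γ * I) ≤ 0.8 / η + 40 * l := by
    by_cases hχ2 : χ ^ 2 = 1
    · have hγ4 : η / 4 ≤ |γ| := by
        rcases hcase with h | h
        · exact absurd hχ2 h
        · exact h
      rw [hχ2]
      have D2 := DL_le_principal (q := q) Q hqQ (((1 + η : ℝ) : ℂ) + 2 * γ * I)
        (by rw [hs2re]; linarith) (by rw [hs2re]; linarith)
      rw [inv_re_cplx, hs2re, hs2im, e1] at D2
      have h5 : Real.log (176 * (Q * (|2 * γ| + 2)) ^ 2 / η ^ 2) ≤ 5 * l := by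
        calc _ ≤ Real.log (176 * (2 * (Q * (|γ| + 2))) ^ 2 / η ^ 2) := by
              apply Real.log_le_log (by positivity)
              have : Q * (|2 * γ| + 2) ≤ 2 * (Q * (|γ| + 2)) := by
                clear * - habs2 hQ0
                nlinarith
              gcongr
          _ = Real.log (704 * (Q * (|γ| + 2)) ^ 2 / η ^ 2) := by congr 1; ring
          _ = Real.log 704 + 2 * Real.log (Q * (|γ| + 2)) + 2 * Real.log (1 / η) :=
              log_h2 _ _ _ (by norm_num) hX0 hη0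
          _ ≤ 5 * l := by
              rw [← hl]
              have := log_le_of_pow (C := 704) (by norm_num) 10 (by norm_num)
              norm_num at this
              linarith
      have h6 : η / (η ^ 2 + 4 * γ ^ 2) ≤ 0.8 / η := by
        rw [div_le_div_iff₀ (by positivity) hη0]
        have : (η / 4) ^ 2 ≤ γ ^ 2 := by
          rw [← sq_abs γ]
          gcongr
        clear * - this
        nlinarith
      linarith
    · have D2 := DL_le_nonprincipal (χ ^ 2) hχ2 Q hqQ (((1 + η : ℝ) : ℂ) + 2 * γ * I)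
        (by rw [hs2re]; linarith) (by rw [hs2re]; linarith)
      rw [hs2re, hs2im, e1] at D2
      have h5 : Real.log (96 * (Q * (|2 * γ| + 2)) / η) ≤ 4 * l := by
        calc _ ≤ Real.log (96 * (2 * (Q * (|γ| + 2))) / η) := by
              apply Real.log_le_log (by positivity)
              have : Q * (|2 * γ| + 2) ≤ 2 * (Q * (|γ| + 2)) := by
                clear * - habs2 hQ0
                nlinarith
              gcongr
          _ = Real.log (192 * (Q * (|γ| + 2)) / η) := by congr 1; ring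
          _ = Real.log 192 + Real.log (Q * (|γ| + 2)) + Real.log (1 / η) :=
              log_h1 _ _ _ (by norm_num) hX0 hη0
          _ ≤ 4 * l := by
              rw [← hl]
              have := log_le_of_pow (C := 192) (by norm_num) 8 (by norm_num)
              norm_num at this
              linarith
      have h6 : 0 ≤ 0.8 / η := by positivity
      linarith
  have hmain := three_four_one χ (1 + η) γ (by linarith)
  -- combine
  have h1 : 4 / x ≤ 3.8 / η + 256 * l + 16 * x := by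
    have e3 : 3 * (1 / η) + 0.8 / η = 3.8 / η := by ring
    have e4 : 4 * (1 / x) = 4 / x := by ring
    linarith
  have h2 : 256 * l = 256 * kap / η := by rw [← hηl]; field_simp
  rw [h2, ← add_div] at h1
  have h3 : 4 / (1.02 * η) ≤ 4 / x := by gcongr
  have h4 : 4 / (1.02 * η) ≤ (3.8 + 256 * kap) / η + 16 * x := h3.trans h1
  have h5 : 4 / (1.02 * η) = (4 / 1.02) / η := by field_simp
  rw [h5] at h4
  have h6 : (4 / 1.02 - (3.8 + 256 * kap)) / η ≤ 16 * x := by
    rw [sub_div]; linarith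
  rw [div_le_iff₀ hη0] at h6
  have h7 : 16 * x * η ≤ 0.01 := by
    have : x * η ≤ (1.02 * (1 / 140000)) * (1 / 140000) := by
      gcongr
      linarith
    clear * - this
    nlinarith
  have h8 : (4 / 1.02 - (3.8 + 256 * kap)) ≤ 0.01 := h6.trans h7
  unfold kap at h8
  norm_num at h8

/-- Landau's repulsion of zeros of two different quadratic characters. -/
lemma landau_page (χ ψ : DirichletCharacter ℂ q) (hχ : χ ≠ 1) (hψ : ψ ≠ 1) (hχψ : χ * ψ ≠ 1)
    (hχ2 : χ ^ 2 = 1) (hψ2 : ψ ^ 2 = 1) (Q : ℝ) (hqQ : (q : ℝ) ≤ Q ^ 2) (ρ ρ' : ℂ)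
    (hρ : DirichletCharacter.LFunction χ ρ = 0) (hρ' : DirichletCharacter.LFunction ψ ρ' = 0)
    (l : ℝ) (hl : l = Real.log Q) (hl7 : 7 ≤ l) (hlk : Real.log (l / kap) ≤ l)
    (h1 : 1 - kap / 50 / l ≤ ρ.re) (h1' : 1 - kap / 50 / l ≤ ρ'.re)
    (h2 : |ρ.im| ≤ kap / l / 4) (h2' : |ρ'.im| ≤ kap / l / 4) : False := by
  have hk := kap_pos
  have hq1 : (1 : ℝ) ≤ q := by exact_mod_cast Nat.pos_of_ne_zero (NeZero.ne q)
  have hl0 : 0 < l := by linarith
  have hQ0 : Q ≠ 0 := by
    rintro rfl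
    rw [Real.log_zero] at hl
    linarith
  have hQ2 : 0 < Q ^ 2 := by positivity
  set η : ℝ := kap / l with hη
  have hη0 : 0 < η := by positivity
  have hηl : η * l = kap := by rw [hη]; field_simp
  have hη1 : η ≤ 1 / 140000 := by
    rw [hη, div_le_iff₀ hl0]
    unfold kap
    linarith
  have hlη : Real.log (1 / η) ≤ l := by
    have : 1 / η = l / kap := by rw [hη, one_div_div]
    rw [this]; exact hlk
  have e0 : (((1 + η : ℝ) : ℂ).re - 1) = η := by simp
  have ei : ((1 + η : ℝ) : ℂ).im = 0 := by simp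
  have er : ((1 + η : ℝ) : ℂ).re = 1 + η := by simp
  have hlogQ : Real.log (Q ^ 2 * (|(0 : ℝ)| + 2)) ≤ 2 * l + 0.6932 := by
    rw [abs_zero, zero_add, Real.log_mul hQ2.ne' (by norm_num), Real.log_pow, ← hl]
    have := log_two_le'
    push_cast
    linarith
  have hX0 : 0 < Q ^ 2 * (|(0 : ℝ)| + 2) := by positivity
  have B1 : Real.log (96 * (Q ^ 2 * (|(0 : ℝ)| + 2)) / η) ≤ 4 * l := by
    rw [log_h1 _ _ _ (by norm_num) hX0 hη0]
    have := log_le_of_pow (C := 96) (by norm_num) 7 (by norm_num)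
    norm_num at this
    linarith
  have B0 : Real.log (176 * (Q ^ 2 * (|(0 : ℝ)| + 2)) ^ 2 / η ^ 2) ≤ 7 * l := by
    rw [log_h2 _ _ _ (by norm_num) hX0 hη0]
    have := log_le_of_pow (C := 176) (by norm_num) 8 (by norm_num)
    norm_num at this
    linarith
  have D0 := DL_le_principal (q := q) (Q ^ 2) hqQ ((1 + η : ℝ) : ℂ) (by simpa using hη0)
    (by rw [er]; linarith)
  rw [inv_re_real, e0, ei] at D0
  have D3 := DL_le_nonprincipal (χ * ψ) hχψ (Q ^ 2) hqQ ((1 + η : ℝ) : ℂ) (by simpa using hη0)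
    (by rw [er]; linarith)
  rw [e0, ei] at D3
  -- the two zeros
  have key : ∀ (φ : DirichletCharacter ℂ q) (_ : φ ≠ 1) (r : ℂ)
      (_ : DirichletCharacter.LFunction φ r = 0) (_ : 1 - kap / 50 / l ≤ r.re)
      (_ : |r.im| ≤ η / 4), DL φ ((1 + η : ℝ) : ℂ) ≤ 32 * l - 0.9 / η := by
    intro φ hφ r hr hr1 hr2
    have hβ1 : r.re < 1 := by
      by_contra h
      exact DirichletCharacter.LFunction_ne_zero_of_one_le_re φ (Or.inl hφ) (by linarith) hr
    set x : ℝ := 1 + η - r.re with hx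
    have hx1 : η < x := by rw [hx]; linarith
    have hx2 : x ≤ 1.02 * η := by
      have : kap / 50 / l = 0.02 * η := by rw [hη]; ring
      rw [hx]; linarith
    have hx0 : 0 < x := by linarith
    have hnsq : ‖((1 + η : ℝ) : ℂ) - r‖ ^ 2 = x ^ 2 + r.im ^ 2 := by
      rw [← Complex.normSq_eq_norm_sq, Complex.normSq_apply]
      simp [hx]
      ring
    have him : r.im ^ 2 ≤ (η / 4) ^ 2 := by
      rw [← sq_abs]
      gcongr
    have hn2 : ‖((1 + η : ℝ) : ℂ) - r‖ ^ 2 ≤ 1.103 * η ^ 2 := by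
      rw [hnsq]
      clear * - him hx2 hx0 hη0
      nlinarith
    have hn2pos : 0 < ‖((1 + η : ℝ) : ℂ) - r‖ ^ 2 := by rw [hnsq]; positivity
    have hn : ‖((1 + η : ℝ) : ℂ) - r‖ < 1 / 4 := by
      have : ‖((1 + η : ℝ) : ℂ) - r‖ ^ 2 < (1 / 4) ^ 2 := by
        clear * - hn2 hη1 hη0
        nlinarith
      exact lt_of_pow_lt_pow_left₀ 2 (by norm_num) this
    have D := DL_le_zero φ hφ (Q ^ 2) hqQ ((1 + η : ℝ) : ℂ) r (by simpa using hη0)
      (by rw [er]; linarith) hn hr
    rw [e0, ei, er, ← hx] at D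
    have h3 : 0.9 / η ≤ x / ‖((1 + η : ℝ) : ℂ) - r‖ ^ 2 * (1 - 4 * ‖((1 + η : ℝ) : ℂ) - r‖ ^ 2) := by
      have h4 : η / (1.103 * η ^ 2) ≤ x / ‖((1 + η : ℝ) : ℂ) - r‖ ^ 2 := by gcongr
      have h5 : (0.999 : ℝ) ≤ 1 - 4 * ‖((1 + η : ℝ) : ℂ) - r‖ ^ 2 := by
        clear * - hn2 hη1 hη0
        nlinarith
      calc 0.9 / η ≤ η / (1.103 * η ^ 2) * 0.999 := by
            rw [div_mul_eq_mul_div, div_le_div_iff₀ hη0 (by positivity)]
            clear * - hη0
            nlinarith
        _ ≤ _ := by gcongr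
    linarith
  have D1 := key χ hχ ρ hρ h1 h2
  have D2 := key ψ hψ ρ' hρ' h1' h2'
  have hmain := four_chars χ ψ hχ2 hψ2 (1 + η) (by linarith)
  have h9 : 0.8 / η ≤ 152 * l := by
    have e5 : 0.9 / η + 0.9 / η - 1 / η = 0.8 / η := by ring
    linarith
  rw [div_le_iff₀ hη0] at h9
  have h10 : 152 * l * η = 152 * kap := by rw [← hηl]; ring
  rw [h10] at h9
  unfold kap at h9
  norm_num at h9

end

end Pool.Agent.H90
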