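import Pool.Agent.H90.MLS1

/-!
# Multiplicative large sieve
-/

set_option autoImplicit false

namespace Pool.Agent.H90.MLS

open Complex Finset

section fixed

variable {q : ℕ} [NeZero q]

/-- Parseval on `ZMod q` -/
lemma parseval (f : ZMod q → ℂ) :
    ∑ b : ZMod q, ‖∑ c : ZMod q, f c * ZMod.stdAddChar (b * c)‖ ^ 2 = q * ∑ c : ZMod q, ‖f c‖ ^ 2 := by
  classical
  have h1 : ((∑ b : ZMod q, ‖∑ c : ZMod q, f c * ZMod.stdAddChar (b * c)‖ ^ 2 : ℝ) : ℂ) =
      ((q * ∑ c : ZMod q, ‖f c‖ ^ 2 : ℝ) : ℂ) := by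
    have h2 : ∀ b : ZMod q, ((‖∑ c : ZMod q, f c * ZMod.stdAddChar (b * c)‖ ^ 2 : ℝ) : ℂ) =
        ∑ c : ZMod q, ∑ d : ZMod q, f c * (starRingEnd ℂ) (f d) * ZMod.stdAddChar (b * (c - d)) := by
      intro b
      rw [← Complex.normSq_eq_norm_sq, ← Complex.mul_conj, map_sum, Finset.sum_mul_sum]
      apply Finset.sum_congr rfl
      intro c _
      apply Finset.sum_congr rfl
      intro d _
      rw [RingHom.map_mul (starRingEnd ℂ), ← AddChar.map_neg_eq_conj]
      have : b * (c - d) = b * c + -(b * d) := by ring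
      rw [this, AddChar.map_add_eq_mul]
      ring
    rw [Complex.ofReal_sum]
    simp_rw [h2]
    rw [Finset.sum_comm]
    rw [Complex.ofReal_mul, Complex.ofReal_sum, Finset.mul_sum]
    apply Finset.sum_congr rfl
    intro c _
    rw [Finset.sum_comm, Finset.sum_eq_single c]
    · rw [← Finset.mul_sum, AddChar.sum_mulShift _ (ZMod.isPrimitive_stdAddChar q), if_pos (sub_self c),
        Complex.mul_conj, Complex.normSq_eq_norm_sq, ZMod.card]
      push_cast
      ring
    · intro d _ hd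
      rw [← Finset.mul_sum, AddChar.sum_mulShift _ (ZMod.isPrimitive_stdAddChar q), if_neg (by
        rw [sub_eq_zero]; exact fun h => hd h.symm)]
      simp
    · intro h; exact absurd (Finset.mem_univ c) h
  exact_mod_cast h1

lemma norm_char (χ : DirichletCharacter ℂ q) (c : ZMod q) : ‖χ c‖ = if IsUnit c then 1 else 0 := by
  split_ifs with h
  · obtain ⟨u, rfl⟩ := h
    exact DirichletCharacter.unit_norm_eq_one χ u
  · rw [MulChar.map_nonunit χ h, norm_zero]

lemma sum_norm_char_sq (χ : DirichletCharacter ℂ q) : ∑ c : ZMod q, ‖χ c‖ ^ 2 = q.totient := by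
  classical
  simp_rw [norm_char]
  have h1 : ∀ c : ZMod q, ((if IsUnit c then (1 : ℝ) else 0)) ^ 2 = if IsUnit c then 1 else 0 := by
    intro c; split_ifs <;> simp
  simp_rw [h1]
  rw [Finset.sum_boole]
  norm_cast
  rw [← ZMod.card_units_eq_totient, ← Finset.card_univ, ← Finset.card_map ⟨((↑) : (ZMod q)ˣ → ZMod q), Units.val_injective⟩]
  congr 1
  ext c
  simp only [Finset.mem_filter, Finset.mem_univ, true_and, Finset.mem_map, Function.Embedding.coeFn_mk]
  rfl

lemma norm_gaussSum_sq (χ : DirichletCharacter ℂ q) (hχ : χ.IsPrimitive) :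
    ‖gaussSum χ ZMod.stdAddChar‖ ^ 2 = q := by
  have h1 : ∀ b : ZMod q, ∑ c : ZMod q, χ c * ZMod.stdAddChar (b * c) =
      χ⁻¹ b * gaussSum χ ZMod.stdAddChar := by
    intro b
    rw [← gaussSum_mulShift_of_isPrimitive _ hχ b]
    rfl
  have h2 := parseval (fun c => χ c)
  simp_rw [h1, norm_mul, mul_pow] at h2
  rw [← Finset.sum_mul, sum_norm_char_sq, sum_norm_char_sq] at h2
  have h3 : (0 : ℝ) < q.totient := by
    exact_mod_cast Nat.totient_pos.mpr (Nat.pos_of_ne_zero (NeZero.ne q))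
  have h4 : (q.totient : ℝ) * ‖gaussSum χ ZMod.stdAddChar‖ ^ 2 = q.totient * q := by
    rw [h2]; ring
  exact mul_left_cancel₀ h3.ne' h4

/-- orthogonality: Bessel/Parseval over all characters -/
lemma sum_char_sq (W : ZMod q → ℂ) : ∑ χ : DirichletCharacter ℂ q, ‖∑ b : ZMod q, χ b * W b‖ ^ 2 =
    q.totient * ∑ b : ZMod q, (open Classical in if IsUnit b then ‖W b‖ ^ 2 else 0) := by
  classical
  have h1 : ((∑ χ : DirichletCharacter ℂ q, ‖∑ b : ZMod q, χ b * W b‖ ^ 2 : ℝ) : ℂ) =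
      ((q.totient * ∑ b : ZMod q, (if IsUnit b then ‖W b‖ ^ 2 else 0) : ℝ) : ℂ) := by
    have h2 : ∀ χ : DirichletCharacter ℂ q, ((‖∑ b : ZMod q, χ b * W b‖ ^ 2 : ℝ) : ℂ) =
        ∑ b : ZMod q, ∑ c : ZMod q, W c * (starRingEnd ℂ) (W b) * ((starRingEnd ℂ) (χ b) * χ c) := by
      intro χ
      rw [← Complex.normSq_eq_norm_sq, ← Complex.mul_conj, map_sum, mul_comm, Finset.sum_mul_sum]
      apply Finset.sum_congr rfl
      intro b _
      apply Finset.sum_congr rfl
      intro c _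
      rw [map_mul]
      ring
    rw [Complex.ofReal_sum]
    simp_rw [h2]
    rw [Finset.sum_comm, Complex.ofReal_mul, Complex.ofReal_sum, Finset.mul_sum]
    apply Finset.sum_congr rfl
    intro b _
    rw [Finset.sum_comm]
    simp_rw [← Finset.mul_sum]
    by_cases hb : IsUnit b
    · have h3 : ∀ c : ZMod q, ∑ χ : DirichletCharacter ℂ q, (starRingEnd ℂ) (χ b) * χ c =
          if b = c then (q.totient : ℂ) else 0 := by
        intro c
        rw [← DirichletCharacter.sum_char_inv_mul_char_eq ℂ hb c]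
        apply Finset.sum_congr rfl
        intro χ _
        congr 1
        have h4 : (starRingEnd ℂ) (χ b) = χ⁻¹ b := MulChar.star_apply' χ b
        rw [h4, MulChar.inv_apply]
        congr 1
        obtain ⟨u, rfl⟩ := hb
        rw [Ring.inverse_unit]
        exact (ZMod.inv_coe_unit u).symm
      simp_rw [h3]
      rw [Finset.sum_eq_single b]
      · rw [if_pos rfl, if_pos hb, Complex.mul_conj, Complex.normSq_eq_norm_sq]
        push_cast
        ring
      · intro c _ hc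
        rw [if_neg (fun h => hc h.symm), mul_zero]
      · intro h; exact absurd (Finset.mem_univ b) h
    · rw [if_neg hb]
      have h3 : ∀ c : ZMod q, ∑ χ : DirichletCharacter ℂ q, (starRingEnd ℂ) (χ b) * χ c = 0 := by
        intro c
        apply Finset.sum_eq_zero
        intro χ _
        rw [MulChar.map_nonunit χ hb]
        simp
      simp_rw [h3]
      simp
  exact_mod_cast h1

open Classical in
/-- the inequality for one modulus -/
lemma one_modulus (S : Finset ℕ) (a : ℕ → ℂ) :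
    (q : ℝ) / q.totient * ∑ χ ∈ (univ : Finset (DirichletCharacter ℂ q)).filter (fun χ => χ.IsPrimitive),
      ‖∑ n ∈ S, a n * χ n‖ ^ 2 ≤
    ∑ b : ZMod q, (if IsUnit b then
      ‖∑ n ∈ S, (starRingEnd ℂ) (a n) * ZMod.stdAddChar (b * (n : ZMod q))‖ ^ 2 else 0) := by
  have hφ : (0 : ℝ) < q.totient := by
    exact_mod_cast Nat.totient_pos.mpr (Nat.pos_of_ne_zero (NeZero.ne q))
  set W : ZMod q → ℂ := fun b => ∑ n ∈ S, (starRingEnd ℂ) (a n) * ZMod.stdAddChar (b * (n : ZMod q))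
    with hW
  have h1 : ∀ χ ∈ (univ : Finset (DirichletCharacter ℂ q)).filter (fun χ => χ.IsPrimitive),
      (q : ℝ) * ‖∑ n ∈ S, a n * χ n‖ ^ 2 = ‖∑ b : ZMod q, χ b * W b‖ ^ 2 := by
    intro χ hχ
    rw [Finset.mem_filter] at hχ
    have hprim := hχ.2
    have h2 : ∑ b : ZMod q, χ b * W b =
        (starRingEnd ℂ) (∑ n ∈ S, a n * χ n) * gaussSum χ ZMod.stdAddChar := by
      simp only [hW]
      simp_rw [Finset.mul_sum]
      rw [Finset.sum_comm, map_sum, Finset.sum_mul]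
      apply Finset.sum_congr rfl
      intro n _
      have h3 : (starRingEnd ℂ) (χ (n : ZMod q)) = χ⁻¹ (n : ZMod q) := MulChar.star_apply' χ _
      rw [map_mul, h3, mul_assoc, ← gaussSum_mulShift_of_isPrimitive _ hprim (n : ZMod q), gaussSum,
        Finset.mul_sum]
      apply Finset.sum_congr rfl
      intro b _
      rw [AddChar.mulShift_apply, mul_comm (n : ZMod q) b]
      ring
    rw [h2, norm_mul, mul_pow, norm_gaussSum_sq χ hprim, RCLike.norm_conj]
    ring
  have h2 : (q : ℝ) * ∑ χ ∈ (univ : Finset (DirichletCharacter ℂ q)).filter (fun χ => χ.IsPrimitive),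
      ‖∑ n ∈ S, a n * χ n‖ ^ 2 ≤ q.totient * ∑ b : ZMod q, (if IsUnit b then ‖W b‖ ^ 2 else 0) := by
    rw [Finset.mul_sum, Finset.sum_congr rfl h1, ← sum_char_sq W]
    exact Finset.sum_le_sum_of_subset_of_nonneg (Finset.filter_subset _ _)
      (fun _ _ _ => by positivity)
  rw [div_mul_eq_mul_div, div_le_iff₀ hφ]
  linarith

end fixed

/-- the exponential sum at a rational point -/
lemma norm_expsum (q b M N : ℕ) [NeZero q] (a : ℕ → ℂ) :
    ‖∑ n ∈ Ioc M (M + N), a n * ZMod.stdAddChar ((b : ZMod q) * (n : ZMod q))‖ =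
      ‖SS (fun n => a (M + 1 + n)) N ((b : ℝ) / q)‖ := by
  have hq : (q : ℂ) ≠ 0 := by exact_mod_cast NeZero.ne q
  have h1 : ∀ n : ℕ, ZMod.stdAddChar ((b : ZMod q) * (n : ZMod q)) = ee (n * ((b : ℝ) / q)) := by
    intro n
    have : ((b : ZMod q) * (n : ZMod q)) = (((b * n : ℕ) : ℤ) : ZMod q) := by push_cast; ring
    rw [this, ZMod.stdAddChar_coe]
    unfold ee
    congr 1
    push_cast
    field_simp
  have h2 : ∑ n ∈ Ioc M (M + N), a n * ZMod.stdAddChar ((b : ZMod q) * (n : ZMod q)) =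
      ee (((M + 1 : ℕ) : ℝ) * ((b : ℝ) / q)) * SS (fun n => a (M + 1 + n)) N ((b : ℝ) / q) := by
    have h3 : Ioc M (M + N) = (range N).map (addLeftEmbedding (M + 1)) := by
      ext n
      simp only [Finset.mem_Ioc, Finset.mem_map, Finset.mem_range, addLeftEmbedding_apply]
      constructor
      · intro h; exact ⟨n - (M + 1), by omega, by omega⟩
      · rintro ⟨m, hm, rfl⟩; omega
    rw [h3, Finset.sum_map]
    unfold SS
    rw [Finset.mul_sum]
    apply Finset.sum_congr rfl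
    intro n _
    rw [addLeftEmbedding_apply, h1]
    have : (((M + 1 + n : ℕ) : ℝ)) * ((b : ℝ) / q) =
        ((M + 1 : ℕ) : ℝ) * ((b : ℝ) / q) + n * ((b : ℝ) / q) := by push_cast; ring
    rw [this, ee_add]
    ring
  rw [h2, norm_mul, norm_ee, one_mul]

open Classical in
/-- residues as integers in `[1, q]` -/
lemma sum_units (q : ℕ) [NeZero q] (F : ZMod q → ℝ) :
    ∑ b : ZMod q, (if IsUnit b then F b else 0) =
      ∑ b ∈ (Icc 1 q).filter (fun b => b.Coprime q), F (b : ZMod q) := by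
  have hq : 0 < q := Nat.pos_of_ne_zero (NeZero.ne q)
  rw [← Finset.sum_filter]
  symm
  refine Finset.sum_nbij' (fun b : ℕ => (b : ZMod q)) (fun v => if v.val = 0 then q else v.val)
    ?_ ?_ ?_ ?_ ?_
  · intro b hb
    rw [Finset.mem_filter] at hb ⊢
    exact ⟨Finset.mem_univ _, (ZMod.isUnit_iff_coprime b q).mpr hb.2⟩
  · intro v hv
    rw [Finset.mem_filter] at hv
    have hv2 : IsUnit ((v.val : ℕ) : ZMod q) := by rw [ZMod.natCast_zmod_val]; exact hv.2
    rw [ZMod.isUnit_iff_coprime] at hv2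
    have hlt := ZMod.val_lt v
    rw [Finset.mem_filter, Finset.mem_Icc]
    split_ifs with h
    · rw [h] at hv2
      have : q = 1 := (Nat.coprime_zero_left q).mp hv2
      subst this
      exact ⟨⟨le_rfl, le_rfl⟩, Nat.coprime_one_right 1⟩
    · exact ⟨⟨by omega, hlt.le⟩, hv2⟩
  · intro b hb
    rw [Finset.mem_filter, Finset.mem_Icc] at hb
    rw [ZMod.val_natCast]
    rcases hb.1.2.lt_or_eq with h | h
    · rw [Nat.mod_eq_of_lt h, if_neg (by omega)]
    · rw [h, Nat.mod_self, if_pos rfl]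
  · intro v _
    split_ifs with h
    · rw [ZMod.natCast_self]
      exact ((ZMod.val_eq_zero v).mp h).symm
    · exact ZMod.natCast_zmod_val v
  · intro b _; rfl

open Classical in
/-- **Multiplicative large sieve.** -/
theorem mult_large_sieve (Q M N : ℕ) (a : ℕ → ℂ) :
    ∑ q ∈ Icc 1 Q, (q : ℝ) / q.totient *
      ∑ χ ∈ (univ : Finset (DirichletCharacter ℂ q)).filter (fun χ => χ.IsPrimitive),
        ‖∑ n ∈ Ioc M (M + N), a n * χ n‖ ^ 2 ≤
    4 * Real.pi * (N + (Q : ℝ) ^ 2) * ∑ n ∈ Ioc M (M + N), ‖a n‖ ^ 2 := by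
  rcases Nat.eq_zero_or_pos Q with hQ | hQ
  · subst hQ
    rw [Finset.Icc_eq_empty (by omega), Finset.sum_empty]
    have := Real.pi_pos
    have : 0 ≤ ∑ n ∈ Ioc M (M + N), ‖a n‖ ^ 2 := Finset.sum_nonneg fun _ _ => by positivity
    positivity
  have hQ' : (1 : ℝ) ≤ Q := by exact_mod_cast hQ
  set b : ℕ → ℂ := fun n => (starRingEnd ℂ) (a (M + 1 + n)) with hb
  have hE : ∑ n ∈ range N, ‖b n‖ ^ 2 = ∑ n ∈ Ioc M (M + N), ‖a n‖ ^ 2 := by
    have h3 : Ioc M (M + N) = (range N).map (addLeftEmbedding (M + 1)) := by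
      ext n
      simp only [Finset.mem_Ioc, Finset.mem_map, Finset.mem_range, addLeftEmbedding_apply]
      constructor
      · intro h; exact ⟨n - (M + 1), by omega, by omega⟩
      · rintro ⟨m, hm, rfl⟩; omega
    rw [h3, Finset.sum_map]
    apply Finset.sum_congr rfl
    intro n _
    rw [addLeftEmbedding_apply, hb]
    simp only [RCLike.norm_conj]
  -- one modulus
  have h1 : ∀ q ∈ Icc 1 Q, (q : ℝ) / q.totient *
      ∑ χ ∈ (univ : Finset (DirichletCharacter ℂ q)).filter (fun χ => χ.IsPrimitive),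
        ‖∑ n ∈ Ioc M (M + N), a n * χ n‖ ^ 2 ≤
      ∑ c ∈ (Icc 1 q).filter (fun c => c.Coprime q), ‖SS b N ((c : ℝ) / q)‖ ^ 2 := by
    intro q hq
    rw [Finset.mem_Icc] at hq
    have : NeZero q := ⟨by omega⟩
    refine (one_modulus (Ioc M (M + N)) a).trans (le_of_eq ?_)
    rw [sum_units q (fun v => ‖∑ n ∈ Ioc M (M + N), (starRingEnd ℂ) (a n) *
      ZMod.stdAddChar (v * (n : ZMod q))‖ ^ 2)]
    apply Finset.sum_congr rfl
    intro c _
    rw [norm_expsum q c M N (fun n => (starRingEnd ℂ) (a n))]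
  refine (Finset.sum_le_sum h1).trans ?_
  rw [Finset.sum_sigma']
  set P := (Icc 1 Q).sigma (fun q => (Icc 1 q).filter (fun c => c.Coprime q)) with hP
  have hmem : ∀ i ∈ P, 1 ≤ i.1 ∧ i.1 ≤ Q ∧ 1 ≤ i.2 ∧ i.2 ≤ i.1 ∧ i.2.Coprime i.1 := by
    intro i hi
    rw [hP, Finset.mem_sigma, Finset.mem_Icc, Finset.mem_filter, Finset.mem_Icc] at hi
    exact ⟨hi.1.1, hi.1.2, hi.2.1.1, hi.2.1.2, hi.2.2⟩
  have hQ2 : (0 : ℝ) < (Q : ℝ) ^ 2 := by positivity
  have hals := additive_large_sieve P (fun i => (i.2 : ℝ) / i.1) (1 / (2 * (Q : ℝ) ^ 2))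
    (1 / (2 * (Q : ℝ) ^ 2)) (by positivity) (by
      intro i hi
      obtain ⟨h2, h3, h4, h5, -⟩ := hmem i hi
      have h2' : (0 : ℝ) < i.1 := by exact_mod_cast h2
      have h3' : (i.1 : ℝ) ≤ Q := by exact_mod_cast h3
      have h4' : (1 : ℝ) ≤ i.2 := by exact_mod_cast h4
      have h5' : (i.2 : ℝ) ≤ i.1 := by exact_mod_cast h5
      constructor
      · have h6 : 1 / (Q : ℝ) ^ 2 ≤ (i.2 : ℝ) / i.1 := by
          rw [div_le_div_iff₀ hQ2 h2']
          nlinarith
        have h7 : 1 / (Q : ℝ) ^ 2 = 1 / (2 * (Q : ℝ) ^ 2) + 1 / (2 * (Q : ℝ) ^ 2) := by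
          field_simp; norm_num
        linarith
      · have h6 : (i.2 : ℝ) / i.1 ≤ 1 := by rw [div_le_one h2']; exact h5'
        linarith) (by
      intro i hi j hj hij
      obtain ⟨h2, h3, h4, h5, h6⟩ := hmem i hi
      obtain ⟨k2, k3, k4, k5, k6⟩ := hmem j hj
      have h2' : (0 : ℝ) < i.1 := by exact_mod_cast h2
      have k2' : (0 : ℝ) < j.1 := by exact_mod_cast k2
      have h3' : (i.1 : ℝ) ≤ Q := by exact_mod_cast h3
      have k3' : (j.1 : ℝ) ≤ Q := by exact_mod_cast k3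
      have hne : (i.2 : ℤ) * j.1 - j.2 * i.1 ≠ 0 := by
        intro h
        apply hij
        have h7 : i.2 * j.1 = j.2 * i.1 := by
          have : (i.2 : ℤ) * j.1 = j.2 * i.1 := by linarith
          exact_mod_cast this
        have h8 : i.1 ∣ j.1 := h6.symm.dvd_of_dvd_mul_left ⟨j.2, by rw [h7]; ring⟩
        have h9 : j.1 ∣ i.1 := k6.symm.dvd_of_dvd_mul_left ⟨i.2, by rw [← h7]; ring⟩
        have h10 : i.1 = j.1 := Nat.dvd_antisymm h8 h9
        have h11 : i.2 = j.2 := by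
          rw [h10] at h7
          exact Nat.eq_of_mul_eq_mul_right k2 h7
        obtain ⟨i1, i2⟩ := i
        obtain ⟨j1, j2⟩ := j
        simp only at h10 h11
        subst h10
        subst h11
        rfl
      have habs : (1 : ℝ) ≤ |(i.2 : ℝ) * j.1 - j.2 * i.1| := by
        have := Int.one_le_abs hne
        exact_mod_cast this
      have h7 : (i.2 : ℝ) / i.1 - j.2 / j.1 = ((i.2 : ℝ) * j.1 - j.2 * i.1) / (i.1 * j.1) := by
        field_simp
      rw [h7, abs_div, abs_of_pos (mul_pos h2' k2')]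
      have h8 : 2 * (1 / (2 * (Q : ℝ) ^ 2)) = 1 / (Q : ℝ) ^ 2 := by field_simp
      rw [h8]
      apply div_le_div₀ (abs_nonneg _) habs (mul_pos h2' k2')
      rw [sq]
      exact mul_le_mul h3' k3' k2'.le (by linarith)) b N
  refine hals.trans ?_
  rw [hE]
  have hE0 : 0 ≤ ∑ n ∈ Ioc M (M + N), ‖a n‖ ^ 2 := Finset.sum_nonneg fun _ _ => by positivity
  have hpi := Real.pi_gt_three
  have h9 : 1 / (2 * (1 / (2 * (Q : ℝ) ^ 2))) = (Q : ℝ) ^ 2 := by field_simp
  rw [h9]
  apply mul_le_mul_of_nonneg_right _ hE0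
  nlinarith

end Pool.Agent.H90.MLS
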