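import Pool.Agent.H90.Moll2

/-!
# Mollification: `L(s,χ) · M(s,χ)` is close to `1`
-/

namespace Pool.Agent.H90

open Complex MeasureTheory Set Filter Topology
open Pool.Agent.H16 (kfun)

/-- the mollifier weight -/
noncomputable def wt (δ ℓ m : ℝ) : ℝ :=
  (kfun (m / Real.exp (2 * δ * ℓ)) - kfun (m / Real.exp (δ * ℓ))) / (δ * ℓ)

variable {q : ℕ} [NeZero q]

lemma norm_LFunction_le_right (χ : DirichletCharacter ℂ q) (s : ℂ) (hs : 1 < s.re) :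
    ‖DirichletCharacter.LFunction χ s‖ ≤ s.re / (s.re - 1) + 1 := by
  rw [DirichletCharacter.LFunction_eq_LSeries χ hs]
  obtain ⟨hsn, hle⟩ := tsum_norm_term_one_le s hs
  have hgle : ∀ n : ℕ, ‖LSeries.term (fun n : ℕ => χ (n : ZMod q)) s n‖ ≤ ‖LSeries.term 1 s n‖ := by
    intro n
    apply LSeries.norm_term_le
    simp only [Pi.one_apply, norm_one]
    exact DirichletCharacter.norm_le_one χ _
  unfold LSeries
  have h1 : Summable (fun n : ℕ => ‖LSeries.term (fun n : ℕ => χ (n : ZMod q)) s n‖) :=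
    Summable.of_nonneg_of_le (fun _ => norm_nonneg _) hgle hsn
  exact (norm_tsum_le_tsum_norm h1).trans ((h1.tsum_le_tsum hgle hsn).trans hle)

lemma norm_inv_LFunction_le (χ : DirichletCharacter ℂ q) (s : ℂ) (hs : 1 < s.re) :
    ‖1 / DirichletCharacter.LFunction χ s‖ ≤ 2 * s.re / (s.re - 1) := by
  have h3 := norm_LFunction_ge χ s hs
  rw [norm_div, norm_one]
  have h4 : 0 < (s.re - 1) / (2 * s.re) := by
    apply div_pos <;> linarith
  calc 1 / ‖DirichletCharacter.LFunction χ s‖ ≤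
        1 / ((s.re - 1) / (2 * s.re)) := one_div_le_one_div_of_le h4 h3
    _ = _ := by rw [one_div_div]

/-- The deterministic core of the mollification bound. -/
theorem moll_core (χ : DirichletCharacter ℂ q) (hχ : χ ≠ 1) (δ ℓ η T M : ℝ) (hδ : 0 < δ) (hℓ : 1 ≤ ℓ)
    (hη : 0 < η) (hT : 0 < T) (s : ℂ) (hs : s.re = 1 + 1 / ℓ)
    (hlow : ∀ w : ℂ, -η ≤ w.re → |w.im| ≤ T → DirichletCharacter.LFunction χ (s + w) ≠ 0 ∧
      ‖1 / DirichletCharacter.LFunction χ (s + w)‖ ≤ M) :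
    ‖1 - DirichletCharacter.LFunction χ s *
        ∑ m ∈ Finset.Icc 1 ⌊Real.exp (2 * δ * ℓ)⌋₊, ((ArithmeticFunction.moebius m : ℤ) : ℂ) *
          ((wt δ ℓ m : ℝ) : ℂ) * χ m * (m : ℂ) ^ (-s)‖ ≤
      (ℓ + 2) / (2 * Real.pi * (δ * ℓ)) * (2 * (2 * Real.exp (2 * δ) * (3 * ℓ + 4)) / T +
        2 * (1 / ℓ + η) * (2 * Real.exp (2 * δ) * (M + (2 * ℓ + 2)) * (1 / T ^ 2)) +
        2 * T * (2 * Real.exp (-(η * δ * ℓ)) * (M + (2 * ℓ + 2)) * (1 / η ^ 2))) := by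
  have hℓ0 : 0 < ℓ := by linarith
  set Y₁ := Real.exp (δ * ℓ) with hY1
  set Y₂ := Real.exp (2 * δ * ℓ) with hY2
  have hd : 0 < δ * ℓ := by positivity
  have h1 : 1 ≤ Y₁ := Real.one_le_exp hd.le
  have h12 : Y₁ ≤ Y₂ := Real.exp_le_exp.mpr (by linarith)
  have hs1 : 1 < s.re := by
    rw [hs]
    have : 0 < 1 / ℓ := by positivity
    linarith
  have hLs : DirichletCharacter.LFunction χ s ≠ 0 := by
    have := (hlow 0 (by simp [hη.le]) (by simp [hT.le])).1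
    rwa [add_zero] at this
  -- bounds for `1/L`
  have hb1 : ‖1 / DirichletCharacter.LFunction χ s‖ ≤ 2 * ℓ + 2 := by
    refine (norm_inv_LFunction_le χ s hs1).trans (le_of_eq ?_)
    rw [hs]
    field_simp
    ring
  have hb2 : ∀ u : ℝ, ‖1 / DirichletCharacter.LFunction χ (s + vl (1 / ℓ) u)‖ ≤ ℓ + 2 := by
    intro u
    have hre : (s + vl (1 / ℓ) u).re = 1 + 2 / ℓ := by
      rw [Complex.add_re, vl_re, hs]; ring
    have hre1 : 1 < (s + vl (1 / ℓ) u).re := by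
      rw [hre]
      have : 0 < 2 / ℓ := by positivity
      linarith
    refine (norm_inv_LFunction_le χ _ hre1).trans (le_of_eq ?_)
    rw [hre]
    field_simp
    ring
  -- the function
  set f : ℂ → ℂ := fun w => 1 / DirichletCharacter.LFunction χ (s + w) with hf
  have hf0 : f 0 = 1 / DirichletCharacter.LFunction χ s := by simp [hf]
  obtain ⟨hint, hid⟩ := smooth_sum_sub χ s hs1 Y₁ Y₂ (1 / ℓ) h1 h12 (by positivity)
  have hdiff : DifferentiableOn ℂ f (Icc (-η) (1 / ℓ) ×ℂ Icc (-T) T) := by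
    intro w hw
    rw [Complex.mem_reProdIm] at hw
    apply DifferentiableAt.differentiableWithinAt
    have hL := (DirichletCharacter.differentiable_LFunction hχ) (s + w)
    have h2 : DifferentiableAt ℂ (fun w => DirichletCharacter.LFunction χ (s + w)) w :=
      hL.comp w (by fun_prop)
    exact (differentiableAt_const _).div h2 (hlow w hw.1.1 (abs_le.mpr hw.2)).1
  have hshift := shift_bound Y₁ Y₂ (1 / ℓ) η T (M + (2 * ℓ + 2)) (3 * ℓ + 4) h1 h12 (by positivity) hη hT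
    f hdiff (by
      intro w hw
      rw [Complex.mem_reProdIm] at hw
      refine (norm_sub_le _ _).trans ?_
      rw [hf0]
      exact add_le_add (hlow w hw.1.1 (abs_le.mpr hw.2)).2 hb1) (by
      intro u
      refine (norm_sub_le _ _).trans ?_
      rw [hf0]
      have := hb2 u
      calc _ ≤ (ℓ + 2) + (2 * ℓ + 2) := add_le_add this hb1
        _ = _ := by ring) (by
      rw [hf0]
      exact hint)
  have hYσ : Y₂ ^ (1 / ℓ) = Real.exp (2 * δ) := by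
    rw [hY2, ← Real.exp_mul]
    congr 1
    field_simp
  have hYη : Y₁ ^ (-η) = Real.exp (-(η * δ * ℓ)) := by
    rw [hY1, ← Real.exp_mul]
    congr 1
    ring
  rw [hYσ, hYη] at hshift
  -- the identity
  set J := ∫ u : ℝ, KK Y₁ Y₂ (1 / ℓ) u * (f (vl (1 / ℓ) u) - f 0) with hJ
  have hJ' : J = ∫ u : ℝ, KK Y₁ Y₂ (1 / ℓ) u * (1 / DirichletCharacter.LFunction χ (s + vl (1 / ℓ) u) -
      1 / DirichletCharacter.LFunction χ s) := by
    rw [hJ, hf0]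
  rw [← hJ'] at hid
  have hlog : Real.log Y₂ - Real.log Y₁ = δ * ℓ := by
    rw [hY1, hY2, Real.log_exp, Real.log_exp]; ring
  rw [hlog] at hid
  have hsum : ∑ m ∈ Finset.Icc 1 ⌊Y₂⌋₊, ((ArithmeticFunction.moebius m : ℤ) : ℂ) *
          ((wt δ ℓ m : ℝ) : ℂ) * χ m * (m : ℂ) ^ (-s) =
      (∑ m ∈ Finset.Icc 1 ⌊Y₂⌋₊, amu χ m * (m : ℂ) ^ (-s) *
        ((kfun (m / Y₂) - kfun (m / Y₁) : ℝ) : ℂ)) / ((δ * ℓ : ℝ) : ℂ) := by
    rw [Finset.sum_div]
    apply Finset.sum_congr rfl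
    intro m _
    unfold wt amu
    rw [← hY1, ← hY2]
    simp only [Pi.mul_apply]
    push_cast
    ring
  rw [hsum]
  set S := ∑ m ∈ Finset.Icc 1 ⌊Y₂⌋₊, amu χ m * (m : ℂ) ^ (-s) *
        ((kfun (m / Y₂) - kfun (m / Y₁) : ℝ) : ℂ) with hS
  have hdC : ((δ * ℓ : ℝ) : ℂ) ≠ 0 := by exact_mod_cast hd.ne'
  have hpi : (Real.pi : ℂ) ≠ 0 := by exact_mod_cast Real.pi_ne_zero
  have hfinal : 1 - DirichletCharacter.LFunction χ s * (S / ((δ * ℓ : ℝ) : ℂ)) =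
      -(DirichletCharacter.LFunction χ s) / (2 * Real.pi * ((δ * ℓ : ℝ) : ℂ)) * J := by
    rw [← hid]
    generalize ((δ * ℓ : ℝ) : ℂ) = d at hdC ⊢
    field_simp
    ring
  rw [hfinal, norm_mul, norm_div, norm_neg, norm_mul, norm_mul]
  have hL : ‖DirichletCharacter.LFunction χ s‖ ≤ ℓ + 2 := by
    refine (norm_LFunction_le_right χ s hs1).trans (le_of_eq ?_)
    rw [hs]
    field_simp
    ring
  have hnpi : ‖(Real.pi : ℂ)‖ = Real.pi := by
    rw [Complex.norm_real, Real.norm_of_nonneg Real.pi_pos.le]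
  have hnd : ‖((δ * ℓ : ℝ) : ℂ)‖ = δ * ℓ := by
    rw [Complex.norm_real, Real.norm_of_nonneg hd.le]
  have hn2 : ‖(2 : ℂ)‖ = 2 := by simp
  rw [hnpi, hnd, hn2]
  have hpos := Real.pi_pos
  gcongr

/-! ### asymptotics -/

lemma eventually_log_pow_le (n : ℕ) (C : ℝ) : ∀ᶠ ℓ : ℝ in atTop, C * (Real.log ℓ) ^ n ≤ ℓ := by
  have h := (Real.isLittleO_pow_log_id_atTop (n := n)).bound
    (c := 1 / (|C| + 1)) (by positivity)
  filter_upwards [h, eventually_ge_atTop (1 : ℝ)] with ℓ h1 h2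
  have hl : 0 ≤ Real.log ℓ := Real.log_nonneg h2
  rw [Real.norm_of_nonneg (by positivity), id, Real.norm_of_nonneg (by linarith)] at h1
  have h3 : (|C| + 1) * (Real.log ℓ) ^ n ≤ ℓ := by
    rw [one_div, ← div_eq_inv_mul, le_div_iff₀ (by positivity)] at h1
    linarith
  have h4 : C * (Real.log ℓ) ^ n ≤ (|C| + 1) * (Real.log ℓ) ^ n := by
    have := le_abs_self C
    gcongr
    linarith
  linarith

/-- **Mollification.** -/
theorem moll_small (δ : ℝ) (hδ : 0 < δ) (A : ℝ) (Y : ℕ) : ∃ L0 : ℝ, ∀ ℓ : ℝ, L0 ≤ ℓ →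
    ∃ q₁ : ℕ, Y < q₁ ∧ ∀ (q : ℕ) [NeZero q], Real.log q ≤ ℓ / (Real.log ℓ) ^ 2 → ¬ q₁ ∣ q →
      ∀ χ : DirichletCharacter ℂ q, χ ≠ 1 → ∀ t : ℝ, |t| ≤ ℓ ^ A →
        ‖1 - DirichletCharacter.LFunction χ ((1 + 1 / ℓ : ℝ) + t * Complex.I) *
          ∑ m ∈ Finset.Icc 1 ⌊Real.exp (2 * δ * ℓ)⌋₊, ((ArithmeticFunction.moebius m : ℤ) : ℂ) *
            ((wt δ ℓ m : ℝ) : ℂ) * χ m *
              (m : ℂ) ^ (-((1 + 1 / ℓ : ℝ) + t * Complex.I : ℂ))‖ ≤ ℓ ^ (-A) := by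
  obtain ⟨c₁, hc₁, B, hB⟩ := zeroFree
  obtain ⟨Q₀, hQ₀⟩ := hB Y
  set P : ℝ := |A| with hP
  set B' : ℝ := |B| with hB'
  have hP0 : 0 ≤ P := abs_nonneg _
  have hB0 : 0 ≤ B' := abs_nonneg _
  set D : ℝ := P + B' + 12 with hD
  set E : ℝ := D + B' + P + 7 with hE
  have hD0 : 12 ≤ D := by rw [hD]; linarith
  -- eventual conditions
  have hlogtop := Real.tendsto_log_atTop
  have ev : ∀ᶠ ℓ : ℝ in atTop, 4 ≤ ℓ ∧ 4 * Real.exp (2 * δ) ≤ ℓ ∧ 1 / δ ≤ ℓ ∧ 16 / c₁ ^ 2 ≤ ℓ ∧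
      2 ≤ Real.log ℓ ∧ 2 * E / (c₁ * δ) ≤ Real.log ℓ ∧ c₁ * (Real.log ℓ) ^ 2 ≤ ℓ ∧
      (D + 2) * (Real.log ℓ) ^ 3 ≤ ℓ ∧ Real.log (max Q₀ 1) * (Real.log ℓ) ^ 2 ≤ ℓ := by
    filter_upwards [eventually_ge_atTop (4 : ℝ), eventually_ge_atTop (4 * Real.exp (2 * δ)),
      eventually_ge_atTop (1 / δ), eventually_ge_atTop (16 / c₁ ^ 2),
      hlogtop.eventually_ge_atTop 2, hlogtop.eventually_ge_atTop (2 * E / (c₁ * δ)),
      eventually_log_pow_le 2 c₁, eventually_log_pow_le 3 (D + 2),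
      eventually_log_pow_le 2 (Real.log (max Q₀ 1))] with ℓ h1 h2 h3 h4 h5 h6 h7 h8 h9
    exact ⟨h1, h2, h3, h4, h5, h6, h7, h8, h9⟩
  obtain ⟨L0, hL0⟩ := eventually_atTop.mp ev
  refine ⟨L0, fun ℓ hℓ => ?_⟩
  obtain ⟨h1, h2, h3, h4, h5, h6, h7, h8, h9⟩ := hL0 ℓ hℓ
  have hℓ0 : 0 < ℓ := by linarith
  set lg := Real.log ℓ with hlg
  have hlg0 : 0 < lg := by linarith
  set x := ℓ / lg ^ 2 with hx
  have hx1 : (D + 2) * lg ≤ x := by
    rw [hx, le_div_iff₀ (by positivity)]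
    calc (D + 2) * lg * lg ^ 2 = (D + 2) * lg ^ 3 := by ring
      _ ≤ ℓ := h8
  have hx0 : 0 < x := by positivity
  set Qr := Real.exp x with hQr
  have hQ0 : Q₀ ≤ Qr := by
    have h10 : Real.log (max Q₀ 1) ≤ x := by
      rw [hx, le_div_iff₀ (by positivity)]; exact h9
    have h11 : 0 < max Q₀ 1 := lt_of_lt_of_le one_pos (le_max_right _ _)
    calc Q₀ ≤ max Q₀ 1 := le_max_left _ _
      _ = Real.exp (Real.log (max Q₀ 1)) := (Real.exp_log h11).symm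
      _ ≤ Qr := Real.exp_le_exp.mpr h10
  obtain ⟨q₁, hq₁, hmain⟩ := hQ₀ Qr hQ0
  refine ⟨q₁, hq₁, ?_⟩
  intro q _ hqx hdvd χ hχ t ht
  have hqQ : (q : ℝ) ≤ Qr := by
    have hq0 : (0 : ℝ) < q := by exact_mod_cast Nat.pos_of_ne_zero (NeZero.ne q)
    calc (q : ℝ) = Real.exp (Real.log q) := (Real.exp_log hq0).symm
      _ ≤ _ := Real.exp_le_exp.mpr hqx
  set s : ℂ := ((1 + 1 / ℓ : ℝ) : ℂ) + t * I with hs
  have hsre : s.re = 1 + 1 / ℓ := by simp [hs]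
  have hsim : s.im = t := by simp [hs]
  set η := c₁ * lg ^ 2 / (2 * ℓ) with hη
  have hη0 : 0 < η := by positivity
  set T := ℓ ^ D with hT
  have hT0 : 0 < T := by positivity
  set M := ℓ ^ B' with hM
  have hℓ1 : 1 ≤ ℓ := by linarith
  have hlow : ∀ w : ℂ, -η ≤ w.re → |w.im| ≤ T → DirichletCharacter.LFunction χ (s + w) ≠ 0 ∧
      ‖1 / DirichletCharacter.LFunction χ (s + w)‖ ≤ M := by
    intro w hw1 hw2
    set Λ := Real.log (Qr * (|(s + w).im| + 2)) with hΛ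
    have him : |(s + w).im| + 2 ≤ ℓ ^ (D + 1) := by
      rw [Complex.add_im, hsim]
      have h10 : |t| ≤ ℓ ^ D := ht.trans (Real.rpow_le_rpow_of_exponent_le hℓ1 (by
        have := le_abs_self A
        linarith))
      have h11 : (1 : ℝ) ≤ ℓ ^ D := Real.one_le_rpow hℓ1 (by linarith)
      calc |t + w.im| + 2 ≤ |t| + |w.im| + 2 := by linarith [abs_add_le t w.im]
        _ ≤ ℓ ^ D + ℓ ^ D + 2 * ℓ ^ D := by linarith
        _ = 4 * ℓ ^ D := by ring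
        _ ≤ ℓ * ℓ ^ D := by gcongr
        _ = ℓ ^ (D + 1) := by rw [Real.rpow_add hℓ0 D 1, Real.rpow_one]; ring
    have him0 : 0 < |(s + w).im| + 2 := by positivity
    have hΛle : Λ ≤ 2 * x := by
      rw [hΛ, Real.log_mul (Real.exp_pos x).ne' him0.ne', Real.log_exp]
      have h10 : Real.log (|(s + w).im| + 2) ≤ (D + 1) * lg := by
        rw [hlg, ← Real.log_rpow hℓ0]
        exact Real.log_le_log him0 him
      clear * - h10 hx1 hlg0
      nlinarith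
    have hΛge : x ≤ Λ := by
      rw [hΛ, Real.log_mul (Real.exp_pos x).ne' him0.ne', Real.log_exp]
      have h10 : 0 ≤ Real.log (|(s + w).im| + 2) := Real.log_nonneg (by
        linarith [abs_nonneg (s + w).im])
      linarith
    have hΛ1 : 1 ≤ Λ := by
      clear * - hΛge hx1 hlg0 h5 hD0
      nlinarith
    have hΛℓ : Λ ≤ ℓ := by
      refine hΛle.trans ?_
      rw [hx, mul_div_assoc', div_le_iff₀ (by positivity)]
      have h10 : 4 ≤ lg ^ 2 := by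
        clear * - h5
        nlinarith
      clear * - h10 hℓ0
      nlinarith
    have hcond : 1 - c₁ / Λ ≤ (s + w).re := by
      rw [Complex.add_re, hsre]
      have h10 : η ≤ c₁ / Λ := by
        have h11 : c₁ / (2 * x) ≤ c₁ / Λ := by gcongr
        have h12 : c₁ / (2 * x) = η := by
          rw [hx, hη]; field_simp
        linarith
      have h13 : 0 < 1 / ℓ := by positivity
      linarith
    have h10 := hmain q hqQ hdvd χ hχ (s + w) hcond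
    rw [← hΛ] at h10
    have h11 : 0 < Λ ^ (-B) := by positivity
    have h12 : 0 < ‖DirichletCharacter.LFunction χ (s + w)‖ := lt_of_lt_of_le h11 h10
    refine ⟨norm_pos_iff.mp h12, ?_⟩
    rw [norm_div, norm_one]
    calc 1 / ‖DirichletCharacter.LFunction χ (s + w)‖ ≤ 1 / Λ ^ (-B) :=
          one_div_le_one_div_of_le h11 h10
      _ = Λ ^ B := by rw [Real.rpow_neg (by linarith), one_div, inv_inv]
      _ ≤ Λ ^ B' := Real.rpow_le_rpow_of_exponent_le hΛ1 (le_abs_self B)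
      _ ≤ ℓ ^ B' := Real.rpow_le_rpow (by linarith) hΛℓ hB0
  refine (moll_core χ hχ δ ℓ η T M hδ hℓ1 hη0 hT0 s hsre hlow).trans ?_
  -- final numerics
  have hM1 : 1 ≤ M := Real.one_le_rpow hℓ1 hB0
  have hM' : M + (2 * ℓ + 2) ≤ ℓ ^ 2 * M := by
    have h10 : 0 ≤ ℓ ^ 2 - 1 := by
      clear * - hℓ1
      nlinarith
    have h11 : (ℓ ^ 2 - 1) * 1 ≤ (ℓ ^ 2 - 1) * M := mul_le_mul_of_nonneg_left hM1 h10
    clear * - h11 h1
    nlinarith
  have hM0 : 0 < M := by linarith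
  have hfac : (ℓ + 2) / (2 * Real.pi * (δ * ℓ)) ≤ ℓ := by
    have hpi := Real.pi_gt_three
    rw [div_le_iff₀ (by positivity)]
    have h10 : 1 ≤ δ * ℓ := by
      rw [div_le_iff₀ hδ] at h3; linarith
    have h11 : 6 ≤ 2 * Real.pi * (δ * ℓ) := by
      clear * - h10 hpi
      nlinarith
    calc ℓ + 2 ≤ ℓ * 6 := by linarith
      _ ≤ ℓ * (2 * Real.pi * (δ * ℓ)) := mul_le_mul_of_nonneg_left h11 hℓ0.le
  have hTinv : 1 / T = ℓ ^ (-D) := by rw [Real.rpow_neg hℓ0.le, one_div]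
  have hl2 : ℓ ^ 2 = ℓ ^ (2 : ℝ) := by norm_cast
  have ht1 : 2 * (2 * Real.exp (2 * δ) * (3 * ℓ + 4)) / T ≤ ℓ ^ (3 - D) := by
    calc 2 * (2 * Real.exp (2 * δ) * (3 * ℓ + 4)) / T =
          (4 * Real.exp (2 * δ)) * (3 * ℓ + 4) * (1 / T) := by ring
      _ ≤ ℓ * ℓ ^ 2 * (1 / T) := by
          gcongr
          clear * - h1
          nlinarith
      _ = ℓ ^ (3 - D) := by
          rw [hTinv, hl2]
          nth_rw 1 [← Real.rpow_one ℓ]
          rw [← Real.rpow_add hℓ0, ← Real.rpow_add hℓ0]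
          congr 1; ring
  have hση : 1 / ℓ + η ≤ 1 := by
    have h10 : 1 / ℓ ≤ 1 / 4 := one_div_le_one_div_of_le (by norm_num) h1
    have h11 : η ≤ 1 / 2 := by
      rw [hη, div_le_iff₀ (by positivity)]
      linarith
    linarith
  have ht2 : 2 * (1 / ℓ + η) * (2 * Real.exp (2 * δ) * (M + (2 * ℓ + 2)) * (1 / T ^ 2)) ≤
      ℓ ^ (B' + 3 - 2 * D) := by
    calc 2 * (1 / ℓ + η) * (2 * Real.exp (2 * δ) * (M + (2 * ℓ + 2)) * (1 / T ^ 2)) =
          (1 / ℓ + η) * (4 * Real.exp (2 * δ)) * (M + (2 * ℓ + 2)) * ((1 / T) * (1 / T)) := by ring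
      _ ≤ 1 * ℓ * (ℓ ^ 2 * M) * ((1 / T) * (1 / T)) := by gcongr
      _ = ℓ ^ (B' + 3 - 2 * D) := by
          rw [hTinv, hl2, hM, one_mul]
          nth_rw 1 [← Real.rpow_one ℓ]
          rw [← Real.rpow_add hℓ0, ← Real.rpow_add hℓ0, ← Real.rpow_add hℓ0, ← Real.rpow_add hℓ0]
          congr 1; ring
  have hexp : Real.exp (-(η * δ * ℓ)) ≤ ℓ ^ (-E) := by
    rw [Real.rpow_def_of_pos hℓ0]
    apply Real.exp_le_exp.mpr
    have h10 : η * δ * ℓ = c₁ * δ / 2 * lg * lg := by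
      rw [hη]; field_simp
    have h11 : E ≤ c₁ * δ / 2 * lg := by
      rw [div_le_iff₀ (by positivity)] at h6
      linarith
    rw [h10, ← hlg]
    clear * - h11 hlg0
    nlinarith
  have hηinv : 1 / η ^ 2 ≤ 4 / c₁ ^ 2 * ℓ ^ 2 := by
    have h10 : 1 / η ^ 2 = 4 / c₁ ^ 2 * ℓ ^ 2 * (1 / lg ^ 4) := by
      rw [hη]; field_simp; ring
    rw [h10]
    have h11 : 1 / lg ^ 4 ≤ 1 := by
      rw [div_le_one (by positivity)]
      exact one_le_pow₀ (by linarith)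
    have h12 : 0 ≤ 4 / c₁ ^ 2 * ℓ ^ 2 := by positivity
    exact mul_le_of_le_one_right h12 h11
  have ht3 : 2 * T * (2 * Real.exp (-(η * δ * ℓ)) * (M + (2 * ℓ + 2)) * (1 / η ^ 2)) ≤
      ℓ ^ (D + B' + 5 - E) := by
    calc 2 * T * (2 * Real.exp (-(η * δ * ℓ)) * (M + (2 * ℓ + 2)) * (1 / η ^ 2)) =
          4 * T * Real.exp (-(η * δ * ℓ)) * (M + (2 * ℓ + 2)) * (1 / η ^ 2) := by ring
      _ ≤ 4 * T * ℓ ^ (-E) * (ℓ ^ 2 * M) * (4 / c₁ ^ 2 * ℓ ^ 2) := by gcongr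
      _ = (16 / c₁ ^ 2) * (T * ℓ ^ (-E) * (ℓ ^ 2 * M) * ℓ ^ 2) := by ring
      _ ≤ ℓ * (T * ℓ ^ (-E) * (ℓ ^ 2 * M) * ℓ ^ 2) := by gcongr
      _ = ℓ ^ (D + B' + 5 - E) := by
          rw [hl2, hM, hT]
          nth_rw 1 [← Real.rpow_one ℓ]
          rw [← Real.rpow_add hℓ0, ← Real.rpow_add hℓ0, ← Real.rpow_add hℓ0, ← Real.rpow_add hℓ0,
            ← Real.rpow_add hℓ0]
          congr 1; ring
  have hbound : ∀ a : ℝ, a ≤ -P - 2 → ℓ ^ a ≤ ℓ ^ (-P - 2) := fun a ha =>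
    Real.rpow_le_rpow_of_exponent_le hℓ1 ha
  have hb1 := hbound (3 - D) (by rw [hD]; linarith)
  have hb2 := hbound (B' + 3 - 2 * D) (by rw [hD]; linarith)
  have hb3 := hbound (D + B' + 5 - E) (by rw [hE]; linarith)
  have hnn : 0 ≤ 2 * (2 * Real.exp (2 * δ) * (3 * ℓ + 4)) / T +
        2 * (1 / ℓ + η) * (2 * Real.exp (2 * δ) * (M + (2 * ℓ + 2)) * (1 / T ^ 2)) +
        2 * T * (2 * Real.exp (-(η * δ * ℓ)) * (M + (2 * ℓ + 2)) * (1 / η ^ 2)) := by positivity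
  calc _ ≤ ℓ * (3 * ℓ ^ (-P - 2)) := by
        apply mul_le_mul hfac _ hnn hℓ0.le
        linarith
    _ ≤ ℓ * (ℓ * ℓ ^ (-P - 2)) := by
        gcongr
        linarith
    _ = ℓ ^ (-P) := by
        nth_rw 1 2 [← Real.rpow_one ℓ]
        rw [← Real.rpow_add hℓ0, ← Real.rpow_add hℓ0]
        congr 1; ring
    _ ≤ ℓ ^ (-A) := Real.rpow_le_rpow_of_exponent_le hℓ1 (by
        have := le_abs_self A
        linarith)

end Pool.Agent.H90
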