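import Pool.Agent.H90.MT.T4

/-! Finite Maynard-Tao sieve: `T1`, `T2`, `T3`, `T4` in namespace `Pool.Agent.H90.MT`. -/
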