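import Mathlib

/-!
# Landau's lemma on the real part of the logarithmic derivative

A version with Blaschke factors, for functions all of whose zeros in the half disc lie to the left
of the centre.
-/

namespace Pool.Agent.H90

open Complex Metric Set Filter Topology

/-- A non-vanishing holomorphic function on a disc centred at zero has a logarithm. -/
lemma exists_log_ball (g : ℂ → ℂ) (R : ℝ) (hR : 0 < R) (hg : DifferentiableOn ℂ g (ball 0 R))
    (h0 : ∀ z ∈ ball (0 : ℂ) R, g z ≠ 0) :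
    ∃ h : ℂ → ℂ, DifferentiableOn ℂ h (ball 0 R) ∧ h 0 = 0 ∧
      ∀ z ∈ ball (0 : ℂ) R, g z = g 0 * Complex.exp (h z) := by
  have hder : DifferentiableOn ℂ (fun z => deriv g z / g z) (ball 0 R) :=
    (hg.deriv isOpen_ball).div hg h0
  obtain ⟨h, hh0, hh⟩ := (hder.isExactOn_ball).with_val_at 0 0
  have hdiff : DifferentiableOn ℂ h (ball 0 R) := fun z hz =>
    (hh z hz).differentiableAt.differentiableWithinAt
  refine ⟨h, hdiff, hh0, ?_⟩
  have hg' : ∀ z ∈ ball (0 : ℂ) R, HasDerivAt g (deriv g z) z := fun z hz =>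
    (hg.differentiableAt (isOpen_ball.mem_nhds hz)).hasDerivAt
  have hk : ∀ z ∈ ball (0 : ℂ) R, HasDerivAt (fun z => g z * Complex.exp (-h z)) 0 z := by
    intro z hz
    have h1 := (hg' z hz).mul ((hh z hz).neg.cexp)
    refine h1.congr_deriv ?_
    have h2 := h0 z hz
    have h3 : g z * (cexp (-h z) * -(deriv g z / g z)) = -(deriv g z * cexp (-h z)) * (g z / g z) := by
      ring
    change deriv g z * cexp (-h z) + g z * (cexp (-h z) * -(deriv g z / g z)) = 0
    rw [h3, div_self h2]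
    ring
  have hconst : ∀ z ∈ ball (0 : ℂ) R, g z * Complex.exp (-h z) = g 0 * Complex.exp (-h 0) := by
    intro z hz
    have hc := (convex_ball (0 : ℂ) R).is_const_of_fderivWithin_eq_zero (𝕜 := ℂ)
      (f := fun z => g z * Complex.exp (-h z))
      (fun w hw => (hk w hw).differentiableAt.differentiableWithinAt)
      (fun w hw => by
        rw [fderivWithin_of_isOpen isOpen_ball hw]
        ext
        simpa using (hk w hw).deriv)
      hz (mem_ball_self hR)
    exact hc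
  intro z hz
  have h1 := hconst z hz
  rw [hh0] at h1
  simp only [neg_zero, Complex.exp_zero, mul_one] at h1
  rw [← h1, mul_assoc, ← Complex.exp_add]
  simp

/-- Derivative bound at the centre for a holomorphic function with bounded real part. -/
lemma norm_deriv_le_of_re_le (h : ℂ → ℂ) (R : ℝ) (hR : 0 < R)
    (hd : DifferentiableOn ℂ h (ball 0 R)) (h0 : h 0 = 0) (M : ℝ) (hM : 0 < M)
    (hre : ∀ z ∈ ball (0 : ℂ) R, (h z).re ≤ M) : ‖deriv h 0‖ ≤ 2 * M / R := by
  have hbc : ∀ z ∈ ball (0 : ℂ) R, ‖h z‖ ≤ 2 * M * ‖z‖ / (R - ‖z‖) := fun z hz =>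
    Complex.borelCaratheodory_zero hM hd hre hR hz h0
  have hda : HasDerivAt h (deriv h 0) 0 :=
    (hd.differentiableAt (isOpen_ball.mem_nhds (mem_ball_self hR))).hasDerivAt
  have ht := (hasDerivAt_iff_tendsto_slope.mp hda).norm
  have ht2 : Tendsto (fun z : ℂ => 2 * M / (R - ‖z‖)) (𝓝[≠] 0) (𝓝 (2 * M / (R - ‖(0 : ℂ)‖))) := by
    apply Tendsto.mono_left _ nhdsWithin_le_nhds
    apply ContinuousAt.tendsto
    apply ContinuousAt.div continuousAt_const (by fun_prop)
    simpa using hR.ne'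
  rw [norm_zero, sub_zero] at ht2
  refine le_of_tendsto_of_tendsto ht ht2 ?_
  have hmem : ball (0 : ℂ) R ∈ 𝓝[≠] (0 : ℂ) :=
    mem_nhdsWithin_of_mem_nhds (isOpen_ball.mem_nhds (mem_ball_self hR))
  filter_upwards [hmem, self_mem_nhdsWithin] with z hz hz0
  have hz0' : z ≠ 0 := hz0
  have hzn : 0 < ‖z‖ := norm_pos_iff.mpr hz0'
  have hzR : ‖z‖ < R := by simpa using hz
  rw [slope_def_field, h0, sub_zero, sub_zero, norm_div, div_le_iff₀ hzn]
  calc ‖h z‖ ≤ 2 * M * ‖z‖ / (R - ‖z‖) := hbc z hz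
    _ = 2 * M / (R - ‖z‖) * ‖z‖ := by ring

/-- For a non-vanishing `g` on a disc of radius `R` with values in the closed unit disc,
`|g'/g (0)| ≤ 2 log (1 / |g 0|) / R`. -/
lemma norm_logDeriv_le (g : ℂ → ℂ) (R : ℝ) (hR : 0 < R) (hg : DifferentiableOn ℂ g (ball 0 R))
    (h0 : ∀ z ∈ ball (0 : ℂ) R, g z ≠ 0) (h1 : ∀ z ∈ ball (0 : ℂ) R, ‖g z‖ ≤ 1) :
    ‖deriv g 0 / g 0‖ ≤ 2 * Real.log (1 / ‖g 0‖) / R := by
  obtain ⟨h, hhd, hh0, hh⟩ := exists_log_ball g R hR hg h0
  have hg0 : g 0 ≠ 0 := h0 0 (mem_ball_self hR)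
  have hg0n : 0 < ‖g 0‖ := norm_pos_iff.mpr hg0
  have hM0 : 0 ≤ Real.log (1 / ‖g 0‖) :=
    Real.log_nonneg (by rw [le_div_iff₀ hg0n, one_mul]; exact h1 0 (mem_ball_self hR))
  have hre : ∀ z ∈ ball (0 : ℂ) R, (h z).re ≤ Real.log (1 / ‖g 0‖) := by
    intro z hz
    have h2 := h1 z hz
    rw [hh z hz, norm_mul, Complex.norm_exp] at h2
    rw [Real.le_log_iff_exp_le (by positivity), le_div_iff₀ hg0n, mul_comm]
    exact h2
  have hder : deriv g 0 = g 0 * deriv h 0 := by
    have hda : HasDerivAt h (deriv h 0) 0 :=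
      (hhd.differentiableAt (isOpen_ball.mem_nhds (mem_ball_self hR))).hasDerivAt
    have h3 : HasDerivAt (fun z => g 0 * Complex.exp (h z)) (g 0 * (Complex.exp (h 0) * deriv h 0)) 0 :=
      (hda.cexp).const_mul (g 0)
    have h4 : g =ᶠ[𝓝 0] fun z => g 0 * Complex.exp (h z) := by
      filter_upwards [isOpen_ball.mem_nhds (mem_ball_self hR)] with z hz using hh z hz
    rw [h4.deriv_eq, h3.deriv, hh0, Complex.exp_zero, one_mul]
  rw [hder, mul_div_cancel_left₀ _ hg0]
  have hle : ∀ ε > 0, ‖deriv h 0‖ ≤ 2 * (Real.log (1 / ‖g 0‖) + ε) / R := by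
    intro ε hε
    exact norm_deriv_le_of_re_le h R hR hhd hh0 _ (by linarith) (fun z hz => by
      have := hre z hz; linarith)
  apply le_of_forall_pos_le_add
  intro ε hε
  have h5 := hle (ε * R / 2) (by positivity)
  calc ‖deriv h 0‖ ≤ _ := h5
    _ = 2 * Real.log (1 / ‖g 0‖) / R + ε := by field_simp

/-- Division by a Blaschke factor. -/
lemma blaschke_step (F : ℂ → ℂ) (R : ℝ) (hR : 0 < R) (hF : DiffContOnCl ℂ F (ball 0 R))
    (hF1 : ∀ z ∈ closedBall (0 : ℂ) R, ‖F z‖ ≤ 1) (hF0 : F 0 ≠ 0) (w : ℂ) (hw : w ∈ ball (0 : ℂ) R)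
    (hFw : F w = 0) :
    ∃ G : ℂ → ℂ, DiffContOnCl ℂ G (ball 0 R) ∧ (∀ z ∈ closedBall (0 : ℂ) R, ‖G z‖ ≤ 1) ∧
      G 0 ≠ 0 ∧ ‖G 0‖ = ‖F 0‖ * (R / ‖w‖) ∧
      (∀ z ∈ ball (0 : ℂ) R, G z = 0 → F z = 0) ∧
      (deriv F 0 / F 0).re = (deriv G 0 / G 0).re + (-w.re / ‖w‖ ^ 2) * (1 - ‖w‖ ^ 2 / R ^ 2) := by
  have hw0 : w ≠ 0 := by rintro rfl; exact hF0 hFw
  have hwn : 0 < ‖w‖ := norm_pos_iff.mpr hw0
  have hwR : ‖w‖ < R := by simpa using hw
  set D : ℂ → ℂ := fun z => ((R : ℂ) ^ 2 - (starRingEnd ℂ) w * z) / R with hD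
  have hRc : (R : ℂ) ≠ 0 := by exact_mod_cast hR.ne'
  have hDd : Differentiable ℂ D := by
    intro z
    simp only [hD]
    fun_prop
  have hcl : closure (ball (0 : ℂ) R) = closedBall 0 R := closure_ball 0 hR.ne'
  have hFc : ContinuousOn F (closedBall 0 R) := by
    have := hF.continuousOn; rwa [hcl] at this
  have hFd : DifferentiableOn ℂ F (ball 0 R) := hF.differentiableOn
  have hnhds : ball (0 : ℂ) R ∈ 𝓝 w := isOpen_ball.mem_nhds hw
  have hds : DifferentiableOn ℂ (dslope F w) (ball 0 R) := (differentiableOn_dslope hnhds).mpr hFd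
  have hdc : ContinuousOn (dslope F w) (closedBall 0 R) :=
    (continuousOn_dslope (closedBall_mem_nhds_of_mem hw)).2 ⟨hFc, hFd.differentiableAt hnhds⟩
  set G : ℂ → ℂ := fun z => dslope F w z * D z with hG
  have hGd : DiffContOnCl ℂ G (ball 0 R) := by
    refine ⟨hds.mul hDd.differentiableOn, ?_⟩
    rw [hcl]
    exact hdc.mul hDd.continuous.continuousOn
  have hFz : ∀ z, F z = (z - w) * dslope F w z := by
    intro z
    have := sub_smul_dslope F w z
    rw [hFw, sub_zero, smul_eq_mul] at this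
    exact this.symm
  -- D does not vanish on closed ball
  have hDne : ∀ z ∈ closedBall (0 : ℂ) R, D z ≠ 0 := by
    intro z hz hcon
    have hzR : ‖z‖ ≤ R := by simpa using hz
    rw [hD] at hcon
    simp only [div_eq_zero_iff, hRc, or_false] at hcon
    have h1 : (R : ℂ) ^ 2 = (starRingEnd ℂ) w * z := sub_eq_zero.mp hcon
    have h2 : ‖(R : ℂ) ^ 2‖ = ‖w‖ * ‖z‖ := by rw [h1, norm_mul, RCLike.norm_conj]
    rw [norm_pow, Complex.norm_real, Real.norm_eq_abs, abs_of_pos hR] at h2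
    nlinarith [norm_nonneg z]
  -- on the boundary |D z| = |z - w|
  have hDb : ∀ z ∈ sphere (0 : ℂ) R, ‖D z‖ = ‖z - w‖ := by
    intro z hz
    have hzR : ‖z‖ = R := by simpa using hz
    have h1 : (R : ℂ) ^ 2 = z * (starRingEnd ℂ) z := by
      rw [Complex.mul_conj, Complex.normSq_eq_norm_sq, hzR]; push_cast; ring
    simp only [hD]
    rw [h1, norm_div, Complex.norm_real, Real.norm_eq_abs, abs_of_pos hR]
    have h2 : z * (starRingEnd ℂ) z - (starRingEnd ℂ) w * z = z * (starRingEnd ℂ) (z - w) := by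
      rw [map_sub]; ring
    rw [h2, norm_mul, RCLike.norm_conj, hzR]
    field_simp
  have hG1 : ∀ z ∈ closedBall (0 : ℂ) R, ‖G z‖ ≤ 1 := by
    have hfr : ∀ z ∈ frontier (ball (0 : ℂ) R), ‖G z‖ ≤ 1 := by
      intro z hz
      rw [frontier_ball 0 hR.ne'] at hz
      have hzc : z ∈ closedBall (0 : ℂ) R := sphere_subset_closedBall hz
      have h1 := hF1 z hzc
      rw [hFz z, norm_mul] at h1
      simp only [hG]
      rw [norm_mul, hDb z hz, mul_comm]
      exact h1
    intro z hz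
    exact Complex.norm_le_of_forall_mem_frontier_norm_le isBounded_ball hGd hfr (by rwa [hcl])
  have h0cb : (0 : ℂ) ∈ closedBall (0 : ℂ) R := by simp [hR.le]
  have h0b : (0 : ℂ) ∈ ball (0 : ℂ) R := mem_ball_self hR
  have hds0 : dslope F w 0 ≠ 0 := by
    intro h
    apply hF0
    rw [hFz 0, h, mul_zero]
  have hD0 : D 0 = R := by
    simp only [hD, mul_zero, sub_zero]
    field_simp
  have hG0 : G 0 ≠ 0 := mul_ne_zero hds0 (hDne 0 h0cb)
  refine ⟨G, hGd, hG1, hG0, ?_, ?_, ?_⟩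
  · have h1 : ‖F 0‖ = ‖w‖ * ‖dslope F w 0‖ := by
      rw [hFz 0, norm_mul, zero_sub, norm_neg]
    rw [h1]
    simp only [hG]
    rw [norm_mul, hD0, Complex.norm_real, Real.norm_eq_abs, abs_of_pos hR]
    field_simp
  · intro z hz hGz
    have h1 : dslope F w z = 0 := by
      rcases mul_eq_zero.mp hGz with h | h
      · exact h
      · exact absurd h (hDne z (ball_subset_closedBall hz))
    rw [hFz z, h1, mul_zero]
  · -- log derivatives
    have hdsd : HasDerivAt (dslope F w) (deriv (dslope F w) 0) 0 :=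
      (hds.differentiableAt (isOpen_ball.mem_nhds h0b)).hasDerivAt
    have hDder : HasDerivAt D (-(starRingEnd ℂ) w / R) 0 := by
      simp only [hD]
      have h1 : HasDerivAt (fun z : ℂ => (R : ℂ) ^ 2 - (starRingEnd ℂ) w * z)
          (0 - (starRingEnd ℂ) w * 1) 0 :=
        (hasDerivAt_const _ _).sub ((hasDerivAt_id (0 : ℂ)).const_mul _)
      have h2 := h1.div_const (R : ℂ)
      refine h2.congr_deriv ?_
      simp
    have hFder : HasDerivAt F (1 * dslope F w 0 + (0 - w) * deriv (dslope F w) 0) 0 := by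
      have h1 := (((hasDerivAt_id (0 : ℂ)).sub_const w).mul hdsd)
      exact h1.congr_of_eventuallyEq (Filter.Eventually.of_forall hFz)
    have hGder : HasDerivAt G (deriv (dslope F w) 0 * D 0 + dslope F w 0 * (-(starRingEnd ℂ) w / R))
        0 := hdsd.mul hDder
    have e1 : deriv F 0 / F 0 = -1 / w + deriv (dslope F w) 0 / dslope F w 0 := by
      rw [hFder.deriv, hFz 0]
      field_simp
      ring
    have e2 : deriv G 0 / G 0 = deriv (dslope F w) 0 / dslope F w 0 - (starRingEnd ℂ) w / R ^ 2 := by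
      rw [hGder.deriv]
      simp only [hG]
      rw [hD0]
      field_simp
      ring
    have e3 : deriv F 0 / F 0 = deriv G 0 / G 0 + (-1 / w + (starRingEnd ℂ) w / R ^ 2) := by
      rw [e1, e2]; ring
    rw [e3, Complex.add_re]
    congr 1
    have e4 : -1 / w = -(starRingEnd ℂ) w / (‖w‖ ^ 2 : ℝ) := by
      have h1 : w * (starRingEnd ℂ) w = ((‖w‖ ^ 2 : ℝ) : ℂ) := by
        rw [Complex.mul_conj, Complex.normSq_eq_norm_sq]
      have h2 : ((‖w‖ ^ 2 : ℝ) : ℂ) ≠ 0 := by
        exact_mod_cast (by positivity : (‖w‖ ^ 2 : ℝ) ≠ 0)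
      rw [div_eq_div_iff hw0 h2, ← h1]
      ring
    rw [e4, Complex.add_re]
    have e5 : (-(starRingEnd ℂ) w / ((‖w‖ ^ 2 : ℝ) : ℂ)).re = -w.re / ‖w‖ ^ 2 := by
      rw [Complex.div_ofReal_re, Complex.neg_re, Complex.conj_re]
    have e6 : ((starRingEnd ℂ) w / (R : ℂ) ^ 2).re = w.re / R ^ 2 := by
      rw [← Complex.ofReal_pow, Complex.div_ofReal_re, Complex.conj_re]
    rw [e5, e6]
    field_simp
    ring

/-- Landau's lemma, without a distinguished zero. -/
lemma landau_aux (R : ℝ) (hR : 0 < R) (n : ℕ) : ∀ F : ℂ → ℂ, DiffContOnCl ℂ F (ball 0 R) →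
    (∀ z ∈ closedBall (0 : ℂ) R, ‖F z‖ ≤ 1) → F 0 ≠ 0 → (1 / 2 : ℝ) ^ n ≤ ‖F 0‖ →
    (∀ z ∈ ball (0 : ℂ) (R / 2), F z = 0 → z.re ≤ 0) →
    -(4 / R * Real.log (1 / ‖F 0‖)) ≤ (deriv F 0 / F 0).re := by
  induction n with
  | zero =>
    intro F hF hF1 hF0 hn hz
    have hne : ∀ z ∈ ball (0 : ℂ) (R / 2), F z ≠ 0 := by
      intro w hw hFw
      have hw' : w ∈ ball (0 : ℂ) R := ball_subset_ball (by linarith) hw
      obtain ⟨G, hGd, hG1, hG0, hGn, -, -⟩ := blaschke_step F R hR hF hF1 hF0 w hw' hFw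
      have hw0 : w ≠ 0 := by rintro rfl; exact hF0 hFw
      have hwn : 0 < ‖w‖ := norm_pos_iff.mpr hw0
      have hwR : ‖w‖ < R / 2 := by simpa using hw
      have h1 := hG1 0 (by simp [hR.le])
      rw [hGn] at h1
      have h2 : 2 < R / ‖w‖ := by rw [lt_div_iff₀ hwn]; linarith
      simp only [pow_zero] at hn
      nlinarith
    have h1 := norm_logDeriv_le F (R / 2) (by positivity)
      (hF.differentiableOn.mono (ball_subset_ball (by linarith))) hne
      (fun z hz => hF1 z (ball_subset_closedBall (ball_subset_ball (by linarith) hz)))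
    have h2 := Complex.abs_re_le_norm (deriv F 0 / F 0)
    have h3 := neg_abs_le (deriv F 0 / F 0).re
    have h4 : 2 * Real.log (1 / ‖F 0‖) / (R / 2) = 4 / R * Real.log (1 / ‖F 0‖) := by
      field_simp; ring
    rw [h4] at h1
    linarith
  | succ n ih =>
    intro F hF hF1 hF0 hn hz
    by_cases hex : ∃ w ∈ ball (0 : ℂ) (R / 2), F w = 0
    · obtain ⟨w, hw, hFw⟩ := hex
      have hw' : w ∈ ball (0 : ℂ) R := ball_subset_ball (by linarith) hw
      obtain ⟨G, hGd, hG1, hG0, hGn, hGz, hGre⟩ := blaschke_step F R hR hF hF1 hF0 w hw' hFw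
      have hw0 : w ≠ 0 := by rintro rfl; exact hF0 hFw
      have hwn : 0 < ‖w‖ := norm_pos_iff.mpr hw0
      have hwR : ‖w‖ < R / 2 := by simpa using hw
      have hF0n : 0 < ‖F 0‖ := norm_pos_iff.mpr hF0
      have h2 : 2 < R / ‖w‖ := by rw [lt_div_iff₀ hwn]; linarith
      have hGF : 2 * ‖F 0‖ ≤ ‖G 0‖ := by rw [hGn]; nlinarith
      have h3 := ih G hGd hG1 hG0 (by rw [pow_succ] at hn; linarith)
        (fun z hzb hGz0 => hz z hzb (hGz z (ball_subset_ball (by linarith) hzb) hGz0))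
      rw [hGre]
      have h4 : Real.log (1 / ‖G 0‖) ≤ Real.log (1 / ‖F 0‖) := by
        apply Real.log_le_log
        · exact one_div_pos.mpr (norm_pos_iff.mpr hG0)
        · exact one_div_le_one_div_of_le hF0n (by linarith)
      have h5 : 0 ≤ (-w.re / ‖w‖ ^ 2) * (1 - ‖w‖ ^ 2 / R ^ 2) := by
        apply mul_nonneg
        · apply div_nonneg _ (by positivity)
          have := hz w hw hFw
          linarith
        · rw [sub_nonneg, div_le_one (by positivity)]
          nlinarith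
      have h6 : 4 / R * Real.log (1 / ‖G 0‖) ≤ 4 / R * Real.log (1 / ‖F 0‖) := by gcongr
      linarith
    · push Not at hex
      have h1 := norm_logDeriv_le F (R / 2) (by positivity)
        (hF.differentiableOn.mono (ball_subset_ball (by linarith))) hex
        (fun z hz => hF1 z (ball_subset_closedBall (ball_subset_ball (by linarith) hz)))
      have h2 := Complex.abs_re_le_norm (deriv F 0 / F 0)
      have h3 := neg_abs_le (deriv F 0 / F 0).re
      have h4 : 2 * Real.log (1 / ‖F 0‖) / (R / 2) = 4 / R * Real.log (1 / ‖F 0‖) := by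
        field_simp; ring
      rw [h4] at h1
      linarith

/-- Landau's lemma: `f` differentiable, bounded by `A` on the closed disc of radius `R` about `c`,
`|f c| ≥ a > 0`, zeros in the half disc to the left of `c`. -/
theorem landau (f : ℂ → ℂ) (c : ℂ) (R A a : ℝ) (hR : 0 < R) (hf : DifferentiableOn ℂ f (closedBall c R))
    (hA : ∀ z ∈ closedBall c R, ‖f z‖ ≤ A) (ha : 0 < a) (hfa : a ≤ ‖f c‖)
    (hz : ∀ z ∈ ball c (R / 2), f z = 0 → z.re ≤ c.re) :
    -(4 / R * Real.log (A / a)) ≤ (deriv f c / f c).re := by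
  have hfc : 0 < ‖f c‖ := ha.trans_le hfa
  have hcc : c ∈ closedBall c R := by simp [hR.le]
  have hApos : 0 < A := hfc.trans_le (hA c hcc)
  have hAc : (A : ℂ) ≠ 0 := by exact_mod_cast hApos.ne'
  set F : ℂ → ℂ := fun z => f (c + z) / A with hF
  have hmaps : MapsTo (fun z : ℂ => c + z) (closedBall 0 R) (closedBall c R) := by
    intro z hz
    simp only [mem_closedBall, dist_zero_right] at hz
    simpa [mem_closedBall, dist_eq_norm] using hz
  have hFd : DifferentiableOn ℂ F (closedBall 0 R) := by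
    simp only [hF]
    apply DifferentiableOn.div_const
    exact hf.comp (by fun_prop) hmaps
  have hFdc : DiffContOnCl ℂ F (ball 0 R) := by
    apply DifferentiableOn.diffContOnCl
    rwa [closure_ball 0 hR.ne']
  have hF1 : ∀ z ∈ closedBall (0 : ℂ) R, ‖F z‖ ≤ 1 := by
    intro z hz
    simp only [hF]
    rw [norm_div, Complex.norm_real, Real.norm_eq_abs, abs_of_pos hApos, div_le_one hApos]
    exact hA _ (hmaps hz)
  have hF0' : F 0 = f c / A := by simp [hF]
  have hF0 : F 0 ≠ 0 := by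
    rw [hF0']
    exact div_ne_zero (norm_pos_iff.mp hfc) hAc
  have hFn : ‖F 0‖ = ‖f c‖ / A := by
    rw [hF0', norm_div, Complex.norm_real, Real.norm_eq_abs, abs_of_pos hApos]
  obtain ⟨n, hn⟩ := exists_pow_lt_of_lt_one (norm_pos_iff.mpr hF0) (by norm_num : (1 / 2 : ℝ) < 1)
  have hmain := landau_aux R hR n F hFdc hF1 hF0 hn.le (by
    intro z hzb hFz
    have h1 : c + z ∈ ball c (R / 2) := by
      simpa [mem_ball, dist_eq_norm] using hzb
    have h2 : f (c + z) = 0 := by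
      simp only [hF, div_eq_zero_iff, hAc, or_false] at hFz
      exact hFz
    have h3 := hz _ h1 h2
    simp only [Complex.add_re] at h3
    linarith)
  have hder : deriv F 0 / F 0 = deriv f c / f c := by
    have h1 : deriv F 0 = deriv f c / A := by
      simp only [hF]
      rw [deriv_div_const, deriv_comp_const_add, add_zero]
    rw [h1, hF0']
    field_simp
  rw [hder, hFn] at hmain
  have hlog : Real.log (1 / (‖f c‖ / A)) ≤ Real.log (A / a) := by
    rw [one_div_div]
    apply Real.log_le_log (by positivity)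
    gcongr
  have : 4 / R * Real.log (1 / (‖f c‖ / A)) ≤ 4 / R * Real.log (A / a) := by gcongr
  linarith

/-- Landau's lemma with a distinguished zero `ρ`. -/
theorem landau_zero (f : ℂ → ℂ) (c ρ : ℂ) (R A a : ℝ) (hR : 0 < R)
    (hf : DifferentiableOn ℂ f (closedBall c R))
    (hA : ∀ z ∈ closedBall c R, ‖f z‖ ≤ A) (ha : 0 < a) (hfa : a ≤ ‖f c‖)
    (hz : ∀ z ∈ ball c (R / 2), f z = 0 → z.re ≤ c.re) (hρ : ρ ∈ ball c (R / 2)) (hfρ : f ρ = 0) :
    -(4 / R * Real.log (A / a)) + (c.re - ρ.re) / ‖c - ρ‖ ^ 2 * (1 - ‖c - ρ‖ ^ 2 / R ^ 2) ≤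
      (deriv f c / f c).re := by
  have hfc : 0 < ‖f c‖ := ha.trans_le hfa
  have hcc : c ∈ closedBall c R := by simp [hR.le]
  have hApos : 0 < A := hfc.trans_le (hA c hcc)
  have hAc : (A : ℂ) ≠ 0 := by exact_mod_cast hApos.ne'
  set F : ℂ → ℂ := fun z => f (c + z) / A with hF
  have hmaps : MapsTo (fun z : ℂ => c + z) (closedBall 0 R) (closedBall c R) := by
    intro z hz
    simp only [mem_closedBall, dist_zero_right] at hz
    simpa [mem_closedBall, dist_eq_norm] using hz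
  have hFd : DifferentiableOn ℂ F (closedBall 0 R) := by
    simp only [hF]
    apply DifferentiableOn.div_const
    exact hf.comp (by fun_prop) hmaps
  have hFdc : DiffContOnCl ℂ F (ball 0 R) := by
    apply DifferentiableOn.diffContOnCl
    rwa [closure_ball 0 hR.ne']
  have hF1 : ∀ z ∈ closedBall (0 : ℂ) R, ‖F z‖ ≤ 1 := by
    intro z hz
    simp only [hF]
    rw [norm_div, Complex.norm_real, Real.norm_eq_abs, abs_of_pos hApos, div_le_one hApos]
    exact hA _ (hmaps hz)
  have hF0' : F 0 = f c / A := by simp [hF]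
  have hF0 : F 0 ≠ 0 := by
    rw [hF0']
    exact div_ne_zero (norm_pos_iff.mp hfc) hAc
  have hFn : ‖F 0‖ = ‖f c‖ / A := by
    rw [hF0', norm_div, Complex.norm_real, Real.norm_eq_abs, abs_of_pos hApos]
  have hzF : ∀ z ∈ ball (0 : ℂ) (R / 2), F z = 0 → z.re ≤ 0 := by
    intro z hzb hFz
    have h1 : c + z ∈ ball c (R / 2) := by
      simpa [mem_ball, dist_eq_norm] using hzb
    have h2 : f (c + z) = 0 := by
      simp only [hF, div_eq_zero_iff, hAc, or_false] at hFz
      exact hFz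
    have h3 := hz _ h1 h2
    simp only [Complex.add_re] at h3
    linarith
  have hw2 : ρ - c ∈ ball (0 : ℂ) (R / 2) := by
    simpa [mem_ball, dist_eq_norm] using hρ
  have hw : ρ - c ∈ ball (0 : ℂ) R := ball_subset_ball (by linarith) hw2
  have hFw : F (ρ - c) = 0 := by simp [hF, hfρ]
  obtain ⟨G, hGd, hG1, hG0, hGn, hGz, hGre⟩ := blaschke_step F R hR hFdc hF1 hF0 (ρ - c) hw hFw
  obtain ⟨n, hn⟩ := exists_pow_lt_of_lt_one (norm_pos_iff.mpr hG0) (by norm_num : (1 / 2 : ℝ) < 1)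
  have hmain := landau_aux R hR n G hGd hG1 hG0 hn.le (fun z hzb hGz0 =>
    hzF z hzb (hGz z (ball_subset_ball (by linarith) hzb) hGz0))
  have hder : deriv F 0 / F 0 = deriv f c / f c := by
    have h1 : deriv F 0 = deriv f c / A := by
      simp only [hF]
      rw [deriv_div_const, deriv_comp_const_add, add_zero]
    rw [h1, hF0']
    field_simp
  have hwne : ρ - c ≠ 0 := by
    intro h
    rw [h] at hFw
    exact hF0 hFw
  have hwn : 0 < ‖ρ - c‖ := norm_pos_iff.mpr hwne
  have hwR : ‖ρ - c‖ < R := by simpa using hw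
  have hGF : ‖F 0‖ ≤ ‖G 0‖ := by
    rw [hGn]
    have : 1 ≤ R / ‖ρ - c‖ := by rw [le_div_iff₀ hwn]; linarith
    nlinarith [norm_nonneg (F 0)]
  have hlog : Real.log (1 / ‖G 0‖) ≤ Real.log (A / a) := by
    apply Real.log_le_log (one_div_pos.mpr (norm_pos_iff.mpr hG0))
    calc 1 / ‖G 0‖ ≤ 1 / ‖F 0‖ := one_div_le_one_div_of_le (norm_pos_iff.mpr hF0) hGF
      _ = A / ‖f c‖ := by rw [hFn, one_div_div]
      _ ≤ A / a := by gcongr
  have h7 : 4 / R * Real.log (1 / ‖G 0‖) ≤ 4 / R * Real.log (A / a) := by gcongr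
  rw [hder] at hGre
  rw [hGre, norm_sub_rev c ρ]
  have h8 : -(ρ - c).re = c.re - ρ.re := by simp
  rw [h8]
  linarith

end Pool.Agent.H90
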