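import Mathlib

/-!
# Additive large sieve (Gallagher's method)
-/

set_option autoImplicit false

namespace Pool.Agent.H90.MLS

open Complex MeasureTheory Finset

/-- `e(x) = exp (2 π i x)` -/
noncomputable def ee (x : ℝ) : ℂ := Complex.exp ((2 * Real.pi * x : ℝ) * I)

lemma norm_ee (x : ℝ) : ‖ee x‖ = 1 := Complex.norm_exp_ofReal_mul_I _

lemma ee_add (x y : ℝ) : ee (x + y) = ee x * ee y := by
  unfold ee
  rw [← Complex.exp_add]
  congr 1
  push_cast
  ring

lemma ee_zero : ee 0 = 1 := by simp [ee]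

lemma ee_intCast (k : ℤ) : ee k = 1 := by
  unfold ee
  rw [Complex.exp_eq_one_iff]
  exact ⟨k, by push_cast; ring⟩

lemma conj_ee (x : ℝ) : (starRingEnd ℂ) (ee x) = ee (-x) := by
  unfold ee
  rw [← Complex.exp_conj]
  congr 1
  rw [map_mul, Complex.conj_I, Complex.conj_ofReal]
  push_cast
  ring

lemma continuous_ee_mul (c : ℝ) : Continuous (fun x : ℝ => ee (c * x)) := by
  unfold ee
  fun_prop

lemma hasDerivAt_ee_mul (c x : ℝ) :
    HasDerivAt (fun x : ℝ => ee (c * x)) ((2 * Real.pi * c : ℝ) * I * ee (c * x)) x := by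
  unfold ee
  have h1 : HasDerivAt (fun x : ℝ => (((2 * Real.pi * (c * x) : ℝ) : ℂ) * I))
      (((2 * Real.pi * c : ℝ) : ℂ) * I) x := by
    have h2 : HasDerivAt (fun x : ℝ => 2 * Real.pi * (c * x)) (2 * Real.pi * c) x := by
      have := ((hasDerivAt_id x).const_mul c).const_mul (2 * Real.pi)
      simpa using this
    exact h2.ofReal_comp.mul_const I
  have h3 := h1.cexp
  convert h3 using 1
  ring

lemma integral_ee (k : ℤ) (hk : k ≠ 0) (c : ℝ) : ∫ x in c..(c + 1), ee (k * x) = 0 := by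
  have hk' : ((2 * Real.pi * k : ℝ) : ℂ) * I ≠ 0 := by
    apply mul_ne_zero _ I_ne_zero
    have : (2 * Real.pi * (k : ℝ)) ≠ 0 := by
      have h1 : (k : ℝ) ≠ 0 := by exact_mod_cast hk
      have := Real.pi_pos
      positivity
    exact_mod_cast this
  have h1 : ∀ x : ℝ, ee (k * x) = Complex.exp (((2 * Real.pi * k : ℝ) : ℂ) * I * x) := by
    intro x
    unfold ee
    congr 1
    push_cast
    ring
  simp_rw [h1]
  rw [integral_exp_mul_complex hk', ← h1, ← h1]
  have h2 : (k : ℝ) * (c + 1) = k * c + k := by ring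
  rw [h2, ee_add, ee_intCast, mul_one, sub_self, zero_div]

/-- trigonometric polynomial -/
noncomputable def SS (a : ℕ → ℂ) (N : ℕ) (x : ℝ) : ℂ := ∑ n ∈ range N, a n * ee (n * x)

lemma continuous_SS (a : ℕ → ℂ) (N : ℕ) : Continuous (SS a N) := by
  unfold SS
  exact continuous_finsetSum _ fun n _ => continuous_const.mul (continuous_ee_mul n)

lemma hasDerivAt_SS (a : ℕ → ℂ) (N : ℕ) (x : ℝ) :
    HasDerivAt (SS a N) (SS (fun n => a n * ((2 * Real.pi * n : ℝ) * I)) N x) x := by
  unfold SS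
  refine (HasDerivAt.fun_sum fun (n : ℕ) _ => (hasDerivAt_ee_mul n x).const_mul (a n)).congr_deriv ?_
  apply Finset.sum_congr rfl
  intro n _
  ring

lemma norm_sq_SS (a : ℕ → ℂ) (N : ℕ) (x : ℝ) : ((‖SS a N x‖ ^ 2 : ℝ) : ℂ) =
    ∑ n ∈ range N, ∑ m ∈ range N, a n * (starRingEnd ℂ) (a m) * ee (((n : ℤ) - m : ℤ) * x) := by
  rw [← Complex.normSq_eq_norm_sq, ← Complex.mul_conj]
  unfold SS
  rw [map_sum, Finset.sum_mul_sum]
  apply Finset.sum_congr rfl
  intro n _
  apply Finset.sum_congr rfl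
  intro m _
  rw [map_mul, conj_ee]
  have : (((n : ℤ) - m : ℤ) : ℝ) * x = n * x + -(m * x) := by push_cast; ring
  rw [this, ee_add]
  ring

/-- Parseval -/
lemma integral_norm_sq_SS (a : ℕ → ℂ) (N : ℕ) (c : ℝ) :
    ∫ x in c..(c + 1), ‖SS a N x‖ ^ 2 = ∑ n ∈ range N, ‖a n‖ ^ 2 := by
  have h1 : ((∫ x in c..(c + 1), ‖SS a N x‖ ^ 2 : ℝ) : ℂ) = ((∑ n ∈ range N, ‖a n‖ ^ 2 : ℝ) : ℂ) := by
    rw [← intervalIntegral.integral_ofReal]
    simp_rw [norm_sq_SS]
    rw [intervalIntegral.integral_finsetSum, Complex.ofReal_sum]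
    · apply Finset.sum_congr rfl
      intro n hn
      rw [intervalIntegral.integral_finsetSum]
      · rw [Finset.sum_eq_single n]
        · rw [intervalIntegral.integral_const_mul]
          have : ∀ x : ℝ, ee ((((n : ℤ) - n : ℤ) : ℝ) * x) = 1 := by
            intro x; rw [sub_self, Int.cast_zero, zero_mul, ee_zero]
          simp_rw [this]
          rw [intervalIntegral.integral_const, add_sub_cancel_left, one_smul, mul_one,
            Complex.mul_conj, Complex.normSq_eq_norm_sq]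
        · intro m _ hm
          rw [intervalIntegral.integral_const_mul, integral_ee _ _ c, mul_zero]
          omega
        · intro h; exact absurd hn h
      · intro m _
        exact (continuous_const.mul (continuous_ee_mul _)).intervalIntegrable _ _
    · intro n _
      exact (continuous_finsetSum _ fun m _ =>
        continuous_const.mul (continuous_ee_mul _)).intervalIntegrable _ _
  exact_mod_cast h1

/-- Gallagher's lemma (with a weaker constant) -/
lemma gallagher (f f' : ℝ → ℂ) (hf : ∀ x, HasDerivAt f (f' x) x) (hf' : Continuous f') (x h : ℝ)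
    (hh : 0 < h) : ‖f x‖ ^ 2 ≤ 1 / (2 * h) * (∫ u in (x - h)..(x + h), ‖f u‖ ^ 2) +
      2 * ∫ u in (x - h)..(x + h), ‖f u‖ * ‖f' u‖ := by
  have hfc : Continuous f := continuous_iff_continuousAt.mpr fun x => (hf x).continuousAt
  have hd : ∀ u, HasDerivAt (fun u => ‖f u‖ ^ 2) (2 * inner ℝ (f u) (f' u)) u := fun u =>
    (hf u).norm_sq
  have hcd : Continuous (fun u => 2 * inner ℝ (f u) (f' u)) := by fun_prop
  have hcn : Continuous (fun u => ‖f u‖ * ‖f' u‖) := by fun_prop
  have hle : ∀ u, ‖2 * inner ℝ (f u) (f' u)‖ ≤ 2 * (‖f u‖ * ‖f' u‖) := by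
    intro u
    rw [norm_mul, Real.norm_ofNat]
    gcongr
    exact norm_inner_le_norm _ _
  set J := ∫ u in (x - h)..(x + h), ‖f u‖ * ‖f' u‖ with hJ
  have key : ∀ u ∈ Set.Icc (x - h) (x + h), ‖f x‖ ^ 2 ≤ ‖f u‖ ^ 2 + 2 * J := by
    intro u hu
    have h1 : ∫ v in u..x, 2 * inner ℝ (f v) (f' v) = ‖f x‖ ^ 2 - ‖f u‖ ^ 2 :=
      intervalIntegral.integral_eq_sub_of_hasDerivAt (fun v _ => hd v)
        (hcd.intervalIntegrable _ _)
    have h2 : ‖∫ v in u..x, 2 * inner ℝ (f v) (f' v)‖ ≤ 2 * J := by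
      calc ‖∫ v in u..x, 2 * inner ℝ (f v) (f' v)‖
          ≤ |∫ v in u..x, 2 * (‖f v‖ * ‖f' v‖)| := by
            apply intervalIntegral.norm_integral_le_abs_of_norm_le
            · exact Filter.Eventually.of_forall fun v => hle v
            · exact (continuous_const.mul hcn).intervalIntegrable _ _
        _ ≤ |∫ v in (x - h)..(x + h), 2 * (‖f v‖ * ‖f' v‖)| := by
            apply intervalIntegral.abs_integral_mono_interval
            · rw [Set.uIoc_of_le (by linarith : x - h ≤ x + h)]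
              rcases le_total u x with hux | hux
              · rw [Set.uIoc_of_le hux]
                exact Set.Ioc_subset_Ioc hu.1 (by linarith)
              · rw [Set.uIoc_of_ge hux]
                exact Set.Ioc_subset_Ioc (by linarith) hu.2
            · exact Filter.Eventually.of_forall fun v => by positivity
            · exact (continuous_const.mul hcn).intervalIntegrable _ _
        _ = 2 * J := by
            rw [intervalIntegral.integral_const_mul, ← hJ]
            apply abs_of_nonneg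
            have : 0 ≤ J := intervalIntegral.integral_nonneg (by linarith) fun v _ => by positivity
            positivity
    rw [h1] at h2
    have h3 := le_trans (le_abs_self _) h2
    linarith
  have h4 : ∫ _u in (x - h)..(x + h), ‖f x‖ ^ 2 ≤ ∫ u in (x - h)..(x + h), (‖f u‖ ^ 2 + 2 * J) := by
    apply intervalIntegral.integral_mono_on (by linarith)
    · exact continuous_const.intervalIntegrable _ _
    · exact ((hfc.norm.pow 2).add continuous_const).intervalIntegrable _ _
    · exact key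
  have h40 : ∫ u in (x - h)..(x + h), (‖f u‖ ^ 2 + 2 * J) =
      (∫ u in (x - h)..(x + h), ‖f u‖ ^ 2) + ∫ _u in (x - h)..(x + h), 2 * J :=
    intervalIntegral.integral_add ((hfc.norm.pow 2).intervalIntegrable _ _)
      (continuous_const.intervalIntegrable _ _)
  rw [h40] at h4
  simp only [intervalIntegral.integral_const, smul_eq_mul] at h4
  have e : x + h - (x - h) = 2 * h := by ring
  rw [e] at h4
  have h5 : ‖f x‖ ^ 2 * (2 * h) ≤ (∫ u in (x - h)..(x + h), ‖f u‖ ^ 2) + 2 * J * (2 * h) := by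
    linarith
  have h6 : ‖f x‖ ^ 2 ≤ ((∫ u in (x - h)..(x + h), ‖f u‖ ^ 2) + 2 * J * (2 * h)) / (2 * h) := by
    rw [le_div_iff₀ (by positivity)]
    exact h5
  refine h6.trans (le_of_eq ?_)
  field_simp

/-- sum of integrals over disjoint intervals -/
lemma sum_integral_le {ι : Type*} (P : Finset ι) (x : ι → ℝ) (h c : ℝ) (hh : 0 < h) (g : ℝ → ℝ)
    (hg : Continuous g) (hg0 : ∀ u, 0 ≤ g u) (hx : ∀ i ∈ P, c ≤ x i - h ∧ x i + h ≤ c + 1)
    (hsep : ∀ i ∈ P, ∀ j ∈ P, i ≠ j → 2 * h ≤ |x i - x j|) :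
    ∑ i ∈ P, ∫ u in (x i - h)..(x i + h), g u ≤ ∫ u in c..(c + 1), g u := by
  have h1 : ∀ i ∈ P, ∫ u in (x i - h)..(x i + h), g u = ∫ u in Set.Ioc (x i - h) (x i + h), g u :=
    fun i _ => intervalIntegral.integral_of_le (by linarith)
  rw [Finset.sum_congr rfl h1, intervalIntegral.integral_of_le (by linarith : c ≤ c + 1)]
  have hint : IntegrableOn g (Set.Ioc c (c + 1)) := 
    (hg.integrableOn_Icc).mono_set Set.Ioc_subset_Icc_self
  have hsub : (⋃ i ∈ P, Set.Ioc (x i - h) (x i + h)) ⊆ Set.Ioc c (c + 1) := by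
    intro u hu
    simp only [Set.mem_iUnion] at hu
    obtain ⟨i, hi, hu⟩ := hu
    have := hx i hi
    exact ⟨by linarith [hu.1], by linarith [hu.2]⟩
  rw [← integral_biUnion_finset]
  · exact setIntegral_mono_set hint (Filter.Eventually.of_forall hg0)
      (Filter.Eventually.of_forall hsub)
  · intro i _; exact measurableSet_Ioc
  · intro i hi j hj hij
    rw [Function.onFun, Set.disjoint_left]
    intro u hu hu'
    have h2 := hsep i hi j hj hij
    rcases le_total (x i) (x j) with h3 | h3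
    · rw [abs_of_nonpos (by linarith)] at h2
      linarith [hu.1, hu.2, hu'.1, hu'.2]
    · rw [abs_of_nonneg (by linarith)] at h2
      linarith [hu.1, hu.2, hu'.1, hu'.2]
  · intro i hi
    apply hint.mono_set
    have := hx i hi
    exact Set.Ioc_subset_Ioc this.1 this.2

/-- **Additive large sieve.** -/
theorem additive_large_sieve {ι : Type*} (P : Finset ι) (x : ι → ℝ) (h c : ℝ) (hh : 0 < h)
    (hx : ∀ i ∈ P, c ≤ x i - h ∧ x i + h ≤ c + 1)
    (hsep : ∀ i ∈ P, ∀ j ∈ P, i ≠ j → 2 * h ≤ |x i - x j|) (a : ℕ → ℂ) (N : ℕ) :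
    ∑ i ∈ P, ‖SS a N (x i)‖ ^ 2 ≤ (1 / (2 * h) + 4 * Real.pi * N) * ∑ n ∈ range N, ‖a n‖ ^ 2 := by
  rcases Nat.eq_zero_or_pos N with hN | hN
  · subst hN
    simp [SS]
  have hN' : (0 : ℝ) < N := by exact_mod_cast hN
  have hpi := Real.pi_pos
  set a' : ℕ → ℂ := fun n => a n * ((2 * Real.pi * n : ℝ) * I) with ha'
  set E := ∑ n ∈ range N, ‖a n‖ ^ 2 with hE
  have hE0 : 0 ≤ E := Finset.sum_nonneg fun _ _ => by positivity
  have hc1 := continuous_SS a N
  have hc2 := continuous_SS a' N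
  have hpt : ∀ i ∈ P, ‖SS a N (x i)‖ ^ 2 ≤ 1 / (2 * h) * (∫ u in (x i - h)..(x i + h), ‖SS a N u‖ ^ 2) +
      2 * ∫ u in (x i - h)..(x i + h), ‖SS a N u‖ * ‖SS a' N u‖ := fun i _ =>
    gallagher (SS a N) (SS a' N) (hasDerivAt_SS a N) hc2 (x i) h hh
  have h1 := sum_integral_le P x h c hh (fun u => ‖SS a N u‖ ^ 2) (by fun_prop)
    (fun u => by positivity) hx hsep
  have h2 := sum_integral_le P x h c hh (fun u => ‖SS a N u‖ * ‖SS a' N u‖) (by fun_prop)
    (fun u => by positivity) hx hsep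
  rw [integral_norm_sq_SS] at h1
  have h3 : ∫ u in c..(c + 1), ‖SS a N u‖ * ‖SS a' N u‖ ≤ 2 * Real.pi * N * E := by
    have h4 : ∀ u, ‖SS a N u‖ * ‖SS a' N u‖ ≤
        Real.pi * N * ‖SS a N u‖ ^ 2 + 1 / (4 * Real.pi * N) * ‖SS a' N u‖ ^ 2 := by
      intro u
      have h5 : 0 ≤ (2 * Real.pi * N * ‖SS a N u‖ - ‖SS a' N u‖) ^ 2 := sq_nonneg _
      have h6 : Real.pi * N * ‖SS a N u‖ ^ 2 + 1 / (4 * Real.pi * N) * ‖SS a' N u‖ ^ 2 -
          ‖SS a N u‖ * ‖SS a' N u‖ =
          (2 * Real.pi * N * ‖SS a N u‖ - ‖SS a' N u‖) ^ 2 / (4 * Real.pi * N) := by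
        field_simp
        ring
      have h7 : 0 ≤ (2 * Real.pi * N * ‖SS a N u‖ - ‖SS a' N u‖) ^ 2 / (4 * Real.pi * N) := by
        positivity
      linarith
    have h5 : ∫ u in c..(c + 1), ‖SS a N u‖ * ‖SS a' N u‖ ≤
        ∫ u in c..(c + 1), (Real.pi * N * ‖SS a N u‖ ^ 2 +
          1 / (4 * Real.pi * N) * ‖SS a' N u‖ ^ 2) := by
      apply intervalIntegral.integral_mono_on (by linarith)
      · exact (hc1.norm.mul hc2.norm).intervalIntegrable _ _
      · exact Continuous.intervalIntegrable (by fun_prop) _ _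
      · intro u _; exact h4 u
    rw [intervalIntegral.integral_add (Continuous.intervalIntegrable (by fun_prop) _ _)
      (Continuous.intervalIntegrable (by fun_prop) _ _), intervalIntegral.integral_const_mul,
      intervalIntegral.integral_const_mul, integral_norm_sq_SS, integral_norm_sq_SS] at h5
    have h6 : ∑ n ∈ range N, ‖a' n‖ ^ 2 ≤ (2 * Real.pi * N) ^ 2 * E := by
      rw [hE, Finset.mul_sum]
      apply Finset.sum_le_sum
      intro n hn
      rw [ha']
      simp only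
      rw [norm_mul, norm_mul, Complex.norm_I, mul_one, Complex.norm_real, mul_pow,
        Real.norm_of_nonneg (by positivity)]
      have h7 : (n : ℝ) ≤ N := by
        rw [Finset.mem_range] at hn
        exact_mod_cast hn.le
      rw [mul_comm]
      gcongr
    calc _ ≤ Real.pi * N * E + 1 / (4 * Real.pi * N) * ∑ n ∈ range N, ‖a' n‖ ^ 2 := h5
      _ ≤ Real.pi * N * E + 1 / (4 * Real.pi * N) * ((2 * Real.pi * N) ^ 2 * E) := by gcongr
      _ = _ := by field_simp; ring
  calc ∑ i ∈ P, ‖SS a N (x i)‖ ^ 2 ≤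
        ∑ i ∈ P, (1 / (2 * h) * (∫ u in (x i - h)..(x i + h), ‖SS a N u‖ ^ 2) +
      2 * ∫ u in (x i - h)..(x i + h), ‖SS a N u‖ * ‖SS a' N u‖) := Finset.sum_le_sum hpt
    _ = 1 / (2 * h) * ∑ i ∈ P, (∫ u in (x i - h)..(x i + h), ‖SS a N u‖ ^ 2) +
        2 * ∑ i ∈ P, ∫ u in (x i - h)..(x i + h), ‖SS a N u‖ * ‖SS a' N u‖ := by
        rw [Finset.sum_add_distrib, Finset.mul_sum, Finset.mul_sum]
    _ ≤ 1 / (2 * h) * E + 2 * (2 * Real.pi * N * E) := by
        have h7 : 0 ≤ 1 / (2 * h) := by positivity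
        have h8 := mul_le_mul_of_nonneg_left h1 h7
        linarith
    _ = _ := by ring

end Pool.Agent.H90.MLS
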