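import Pool.Agent.H90.ZeroFreeLower
import Pool.Agent.H16.Kern

/-!
# Smoothed partial sums of `μ χ` and a contour integral
-/

namespace Pool.Agent.H90

open Complex MeasureTheory Set Filter Topology
open Pool.Agent.H16 (kfun)

/-- a point on a vertical line -/
noncomputable def vl (σ u : ℝ) : ℂ := (σ : ℂ) + u * I

@[simp] lemma vl_re (σ u : ℝ) : (vl σ u).re = σ := by simp [vl]
@[simp] lemma vl_im (σ u : ℝ) : (vl σ u).im = u := by simp [vl]

lemma vl_ne (σ u : ℝ) (hσ : σ ≠ 0) : vl σ u ≠ 0 := by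
  intro h
  have := congrArg Complex.re h
  simp at this
  exact hσ this

lemma norm_vl_sq (σ u : ℝ) : ‖vl σ u‖ ^ 2 = σ ^ 2 + u ^ 2 := Pool.Agent.H16.norm_sq_add σ u

/-- `(Y₂^w - Y₁^w) / w²` on a vertical line -/
noncomputable def KK (Y₁ Y₂ σ u : ℝ) : ℂ :=
  ((Y₂ : ℂ) ^ (vl σ u) - (Y₁ : ℂ) ^ (vl σ u)) * (1 / (vl σ u) ^ 2)

lemma norm_cpow_vl (Y : ℝ) (hY : 0 < Y) (w : ℂ) : ‖(Y : ℂ) ^ w‖ = Y ^ w.re :=
  Complex.norm_cpow_eq_rpow_re_of_pos hY w

lemma KK_norm_le (Y₁ Y₂ σ u : ℝ) (h1 : 0 < Y₁) (h2 : 0 < Y₂) :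
    ‖KK Y₁ Y₂ σ u‖ ≤ (Y₂ ^ σ + Y₁ ^ σ) * ‖1 / (vl σ u) ^ 2‖ := by
  unfold KK
  rw [norm_mul]
  gcongr
  refine (norm_sub_le _ _).trans ?_
  rw [norm_cpow_vl _ h1, norm_cpow_vl _ h2, vl_re]

lemma continuous_vl (σ : ℝ) : Continuous (vl σ) := by
  unfold vl
  fun_prop

lemma integrable_inv_vl_sq (σ : ℝ) (hσ : 0 < σ) : Integrable (fun u : ℝ => 1 / (vl σ u) ^ 2) :=
  Pool.Agent.H16.integrable_inv_sq σ hσ

lemma continuous_cpow_vl (Y σ : ℝ) (hY : 0 < Y) : Continuous (fun u => (Y : ℂ) ^ (vl σ u)) := by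
  have hY' : (Y : ℂ) ≠ 0 := by exact_mod_cast hY.ne'
  exact (continuous_vl σ).const_cpow (Or.inl hY')

lemma KK_integrable (Y₁ Y₂ σ : ℝ) (h1 : 0 < Y₁) (h2 : 0 < Y₂) (hσ : 0 < σ) :
    Integrable (KK Y₁ Y₂ σ) := by
  have hi := integrable_inv_vl_sq σ hσ
  refine (hi.norm.const_mul (Y₂ ^ σ + Y₁ ^ σ)).mono' ?_ ?_
  · apply Continuous.aestronglyMeasurable
    unfold KK
    apply Continuous.mul ((continuous_cpow_vl Y₂ σ h2).sub (continuous_cpow_vl Y₁ σ h1))
    apply Continuous.div continuous_const ((continuous_vl σ).pow 2)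
    intro u
    exact pow_ne_zero _ (vl_ne σ u hσ.ne')
  · filter_upwards with u
    exact KK_norm_le Y₁ Y₂ σ u h1 h2

lemma kern_vl (σ : ℝ) (hσ : 0 < σ) (y : ℝ) (hy : 0 < y) :
    ∫ u : ℝ, (y : ℂ) ^ (-(vl σ u)) * (1 / (vl σ u) ^ 2) = 2 * Real.pi * ((kfun y : ℝ) : ℂ) := by
  rw [Pool.Agent.H16.kern σ hσ y hy]
  have hpi : (Real.pi : ℂ) ≠ 0 := by exact_mod_cast Real.pi_ne_zero
  push_cast
  have e : (∫ u : ℝ, (y : ℂ) ^ (-(vl σ u)) * (1 / (vl σ u) ^ 2)) =
      ∫ t : ℝ, (y : ℂ) ^ (-((σ : ℂ) + t * I)) * (1 / ((σ : ℂ) + t * I) ^ 2) := rfl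
  rw [e]
  generalize (∫ t : ℝ, (y : ℂ) ^ (-((σ : ℂ) + t * I)) * (1 / ((σ : ℂ) + t * I) ^ 2)) = J
  field_simp

lemma div_cpow_neg (m Y : ℝ) (hm : 0 < m) (hY : 0 < Y) (w : ℂ) :
    ((m / Y : ℝ) : ℂ) ^ (-w) = (m : ℂ) ^ (-w) * (Y : ℂ) ^ w := by
  have e : ((m / Y : ℝ) : ℂ) = (m : ℂ) * ((Y⁻¹ : ℝ) : ℂ) := by
    rw [← Complex.ofReal_mul]; rfl
  rw [e, Complex.mul_cpow_ofReal_nonneg hm.le (inv_nonneg.mpr hY.le)]
  congr 1
  rw [Complex.ofReal_inv, Complex.inv_cpow _ _ (by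
    rw [Complex.arg_ofReal_of_nonneg hY.le]; exact Real.pi_pos.ne), ← Complex.cpow_neg, neg_neg]

/-- integral of `m^(-w) K(w)` -/
lemma integral_KK (Y₁ Y₂ σ m : ℝ) (h1 : 0 < Y₁) (h2 : 0 < Y₂) (hσ : 0 < σ) (hm : 0 < m) :
    ∫ u : ℝ, (m : ℂ) ^ (-(vl σ u)) * KK Y₁ Y₂ σ u =
      2 * Real.pi * ((kfun (m / Y₂) - kfun (m / Y₁) : ℝ) : ℂ) := by
  have hi : ∀ Y : ℝ, 0 < Y → Integrable (fun u : ℝ => ((m / Y : ℝ) : ℂ) ^ (-(vl σ u)) *
      (1 / (vl σ u) ^ 2)) := by
    intro Y hY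
    have hi := integrable_inv_vl_sq σ hσ
    have hmY : 0 < m / Y := by positivity
    refine (hi.norm.const_mul ((m / Y) ^ (-σ))).mono' ?_ ?_
    · apply Continuous.aestronglyMeasurable
      apply Continuous.mul
      · exact (continuous_vl σ).neg.const_cpow (Or.inl (by exact_mod_cast hmY.ne'))
      · apply Continuous.div continuous_const ((continuous_vl σ).pow 2)
        intro u
        exact pow_ne_zero _ (vl_ne σ u hσ.ne')
    · filter_upwards with u
      rw [norm_mul, norm_cpow_vl _ hmY]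
      simp
  have e : ∀ u : ℝ, (m : ℂ) ^ (-(vl σ u)) * KK Y₁ Y₂ σ u =
      ((m / Y₂ : ℝ) : ℂ) ^ (-(vl σ u)) * (1 / (vl σ u) ^ 2) -
      ((m / Y₁ : ℝ) : ℂ) ^ (-(vl σ u)) * (1 / (vl σ u) ^ 2) := by
    intro u
    rw [div_cpow_neg m Y₂ hm h2, div_cpow_neg m Y₁ hm h1]
    unfold KK
    ring
  simp_rw [e]
  rw [integral_sub (hi Y₂ h2) (hi Y₁ h1), kern_vl σ hσ _ (by positivity),
    kern_vl σ hσ _ (by positivity)]
  push_cast
  ring

variable {q : ℕ} [NeZero q]

/-- `μ χ` -/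
noncomputable def amu (χ : DirichletCharacter ℂ q) : ℕ → ℂ :=
  (fun n : ℕ => χ (n : ZMod q)) * fun n : ℕ => ((ArithmeticFunction.moebius n : ℤ) : ℂ)

omit [NeZero q] in
lemma norm_amu_le (χ : DirichletCharacter ℂ q) (n : ℕ) : ‖amu χ n‖ ≤ 1 := by
  unfold amu
  simp only [Pi.mul_apply, norm_mul]
  have h2 : ‖((ArithmeticFunction.moebius n : ℤ) : ℂ)‖ ≤ 1 := by
    rw [Complex.norm_intCast]
    exact_mod_cast ArithmeticFunction.abs_moebius_le_one
  calc _ ≤ (1 : ℝ) * 1 := by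
        gcongr
        exact DirichletCharacter.norm_le_one χ _
    _ = 1 := by ring

omit [NeZero q] in
lemma amu_zero (χ : DirichletCharacter ℂ q) : amu χ 0 = 0 := by
  unfold amu
  simp

lemma LSeries_amu (χ : DirichletCharacter ℂ q) (s : ℂ) (hs : 1 < s.re) :
    LSeries (amu χ) s = 1 / DirichletCharacter.LFunction χ s := by
  have h1 := DirichletCharacter.LSeries.mul_mu_eq_one χ hs
  rw [← DirichletCharacter.LFunction_eq_LSeries χ hs] at h1
  exact eq_one_div_of_mul_eq_one_right h1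

omit [NeZero q] in
lemma term_amu (χ : DirichletCharacter ℂ q) (s : ℂ) (n : ℕ) :
    LSeries.term (amu χ) s n = amu χ n * (n : ℂ) ^ (-s) := by
  rcases Nat.eq_zero_or_pos n with h | h
  · subst h
    rw [amu_zero]; simp
  · rw [LSeries.term_of_ne_zero (by omega), Complex.cpow_neg, div_eq_mul_inv]

/-- The Mellin formula for the smoothed sum of `μ χ`. -/
theorem smooth_sum_eq (χ : DirichletCharacter ℂ q) (s : ℂ) (hs : 1 < s.re) (Y₁ Y₂ σ : ℝ)
    (h1 : 0 < Y₁) (h2 : 0 < Y₂) (h12 : Y₁ ≤ Y₂) (hσ : 0 < σ) :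
    2 * Real.pi * ∑ m ∈ Finset.Icc 1 ⌊Y₂⌋₊, amu χ m * (m : ℂ) ^ (-s) *
      ((kfun (m / Y₂) - kfun (m / Y₁) : ℝ) : ℂ) =
      ∫ u : ℝ, KK Y₁ Y₂ σ u * (1 / DirichletCharacter.LFunction χ (s + vl σ u)) := by
  set F : ℕ → ℝ → ℂ := fun m u => amu χ m * (m : ℂ) ^ (-(s + vl σ u)) * KK Y₁ Y₂ σ u with hF
  have hKi := KK_integrable Y₁ Y₂ σ h1 h2 hσ
  have hsplit : ∀ m : ℕ, m ≠ 0 → ∀ u, F m u =
      (amu χ m * (m : ℂ) ^ (-s)) * (((m : ℝ) : ℂ) ^ (-(vl σ u)) * KK Y₁ Y₂ σ u) := by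
    intro m hm u
    have hm' : (m : ℂ) ≠ 0 := by exact_mod_cast hm
    simp only [hF]
    have : -(s + vl σ u) = -s + -(vl σ u) := by ring
    rw [this, Complex.cpow_add _ _ hm', Complex.ofReal_natCast]
    ring
  have hnorm : ∀ (m : ℕ) u, ‖F m u‖ ≤ ‖LSeries.term 1 (s + σ) m‖ * ‖KK Y₁ Y₂ σ u‖ := by
    intro m u
    rcases Nat.eq_zero_or_pos m with h | h
    · subst h
      simp only [hF]
      rw [amu_zero]; simp
    · simp only [hF]
      rw [norm_mul, norm_mul, Complex.norm_natCast_cpow_of_pos h]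
      gcongr
      have e : ‖LSeries.term 1 (s + σ) m‖ = (m : ℝ) ^ (-(s + vl σ u)).re := by
        rw [LSeries.norm_term_eq, if_neg (by omega)]
        simp only [Pi.one_apply, norm_one]
        rw [one_div, ← Real.rpow_neg (by positivity)]
        congr 1
        simp
      rw [e]
      have := norm_amu_le χ m
      have h0 : 0 ≤ (m : ℝ) ^ (-(s + vl σ u)).re := by positivity
      nlinarith
  have hFint : ∀ m, Integrable (F m) := by
    intro m
    refine (hKi.norm.const_mul ‖LSeries.term 1 (s + σ) m‖).mono' ?_ ?_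
    · apply Continuous.aestronglyMeasurable
      rcases Nat.eq_zero_or_pos m with h | h
      · subst h
        simp only [hF]
        rw [amu_zero]; simp only [zero_mul]
        exact continuous_const
      · have hm' : (m : ℂ) ≠ 0 := by exact_mod_cast (by omega : m ≠ 0)
        simp only [hF]
        apply Continuous.mul
        · apply continuous_const.mul
          exact (continuous_const.add (continuous_vl σ)).neg.const_cpow (Or.inl hm')
        · unfold KK
          apply Continuous.mul ((continuous_cpow_vl Y₂ σ h2).sub (continuous_cpow_vl Y₁ σ h1))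
          apply Continuous.div continuous_const ((continuous_vl σ).pow 2)
          intro u
          exact pow_ne_zero _ (vl_ne σ u hσ.ne')
    · filter_upwards with u
      exact hnorm m u
  have hre : 1 < (s + σ).re := by simp; linarith
  obtain ⟨hsum1, -⟩ := tsum_norm_term_one_le (s + σ) hre
  have hFsum : Summable fun m => ∫ u, ‖F m u‖ := by
    refine Summable.of_nonneg_of_le (fun m => integral_nonneg fun u => norm_nonneg _) ?_
      (hsum1.mul_right (∫ u, ‖KK Y₁ Y₂ σ u‖))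
    intro m
    rw [← integral_const_mul]
    exact integral_mono (hFint m).norm (hKi.norm.const_mul _) (hnorm m)
  have hhs := hasSum_integral_of_summable_integral_norm hFint hFsum
  have htsum : ∀ u, ∑' m, F m u =
      KK Y₁ Y₂ σ u * (1 / DirichletCharacter.LFunction χ (s + vl σ u)) := by
    intro u
    have hre' : 1 < (s + vl σ u).re := by simp; linarith
    rw [← LSeries_amu χ _ hre']
    unfold LSeries
    rw [← tsum_mul_left]
    congr 1
    funext m
    rw [term_amu]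
    simp only [hF]
    ring
  simp_rw [htsum] at hhs
  have hval : ∀ m : ℕ, ∫ u, F m u = 2 * Real.pi * (amu χ m * (m : ℂ) ^ (-s) *
      ((kfun (m / Y₂) - kfun (m / Y₁) : ℝ) : ℂ)) := by
    intro m
    rcases Nat.eq_zero_or_pos m with h | h
    · subst h
      simp only [hF]
      rw [amu_zero]; simp
    · simp_rw [hsplit m (by omega)]
      rw [integral_const_mul, integral_KK Y₁ Y₂ σ m h1 h2 hσ (by exact_mod_cast h)]
      ring
  simp_rw [hval] at hhs
  rw [← hhs.tsum_eq, tsum_eq_sum (s := Finset.Icc 1 ⌊Y₂⌋₊), Finset.mul_sum]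
  intro m hm
  rcases Nat.eq_zero_or_pos m with h | h
  · subst h
    rw [amu_zero]; simp
  · have hmY : ⌊Y₂⌋₊ < m := by
      by_contra hcon
      exact hm (Finset.mem_Icc.mpr ⟨h, not_lt.mp hcon⟩)
    have hmY' : Y₂ < m := (Nat.floor_lt h2.le).mp hmY
    have hk0 : ∀ Y : ℝ, 0 < Y → Y ≤ Y₂ → kfun (m / Y) = 0 := by
      intro Y hY hYY
      unfold kfun
      apply max_eq_left
      have : 1 ≤ (m : ℝ) / Y := by
        rw [le_div_iff₀ hY]
        linarith
      have := Real.log_nonneg this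
      linarith
    rw [hk0 Y₂ h2 le_rfl, hk0 Y₁ h1 h12]
    simp

lemma kfun_inv (Y : ℝ) (hY : 1 ≤ Y) : kfun (1 / Y) = Real.log Y := by
  unfold kfun
  rw [one_div, Real.log_inv, neg_neg]
  exact max_eq_right (Real.log_nonneg hY)

/-- The difference between the smoothed sum and `log (Y₂/Y₁) / L(s,χ)`. -/
theorem smooth_sum_sub (χ : DirichletCharacter ℂ q) (s : ℂ) (hs : 1 < s.re) (Y₁ Y₂ σ : ℝ)
    (h1 : 1 ≤ Y₁) (h12 : Y₁ ≤ Y₂) (hσ : 0 < σ) :
    Integrable (fun u : ℝ => KK Y₁ Y₂ σ u * (1 / DirichletCharacter.LFunction χ (s + vl σ u) -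
      1 / DirichletCharacter.LFunction χ s)) ∧
    2 * Real.pi * (∑ m ∈ Finset.Icc 1 ⌊Y₂⌋₊, amu χ m * (m : ℂ) ^ (-s) *
      ((kfun (m / Y₂) - kfun (m / Y₁) : ℝ) : ℂ) -
        ((Real.log Y₂ - Real.log Y₁ : ℝ) : ℂ) * (1 / DirichletCharacter.LFunction χ s)) =
      ∫ u : ℝ, KK Y₁ Y₂ σ u * (1 / DirichletCharacter.LFunction χ (s + vl σ u) -
        1 / DirichletCharacter.LFunction χ s) := by
  have hY1 : 0 < Y₁ := by linarith
  have hY2 : 0 < Y₂ := by linarith
  have hKi := KK_integrable Y₁ Y₂ σ hY1 hY2 hσ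
  have hKL : Integrable (fun u : ℝ =>
      KK Y₁ Y₂ σ u * (1 / DirichletCharacter.LFunction χ (s + vl σ u))) := by
    have hb : ∀ u, ‖1 / DirichletCharacter.LFunction χ (s + vl σ u)‖ ≤
        2 * (s.re + σ) / (s.re + σ - 1) := by
      intro u
      have hre : 1 < (s + vl σ u).re := by simp; linarith
      have h3 := norm_LFunction_ge χ (s + vl σ u) hre
      have e : (s + vl σ u).re = s.re + σ := by simp
      rw [e] at h3
      rw [norm_div, norm_one]
      have h4 : 0 < (s.re + σ - 1) / (2 * (s.re + σ)) := by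
        apply div_pos <;> linarith
      calc 1 / ‖DirichletCharacter.LFunction χ (s + vl σ u)‖ ≤
            1 / ((s.re + σ - 1) / (2 * (s.re + σ))) := one_div_le_one_div_of_le h4 h3
        _ = _ := by rw [one_div_div]
    have hc : Continuous (fun u : ℝ => 1 / DirichletCharacter.LFunction χ (s + vl σ u)) := by
      have hcL : Continuous (fun u : ℝ => DirichletCharacter.LFunction χ (s + vl σ u)) := by
        rw [continuous_iff_continuousAt]
        intro u
        have hd : DifferentiableAt ℂ (DirichletCharacter.LFunction χ) (s + vl σ u) :=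
          DirichletCharacter.differentiableAt_LFunction χ _ (Or.inl (by
            intro h
            have := congrArg Complex.re h
            simp at this
            linarith))
        exact ContinuousAt.comp (f := fun u : ℝ => s + vl σ u) hd.continuousAt
          ((continuous_const.add (continuous_vl σ)).continuousAt)
      apply Continuous.div continuous_const hcL
      intro u
      apply DirichletCharacter.LFunction_ne_zero_of_one_le_re χ (Or.inr _)
      · simp; linarith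
      · intro h
        have := congrArg Complex.re h
        simp at this
        linarith
    exact (hKi.mul_bdd (c := 2 * (s.re + σ) / (s.re + σ - 1)) hc.aestronglyMeasurable
      (Filter.Eventually.of_forall hb))
  have hKc : Integrable (fun u : ℝ => KK Y₁ Y₂ σ u * (1 / DirichletCharacter.LFunction χ s)) :=
    hKi.mul_const _
  have e : ∀ u, KK Y₁ Y₂ σ u * (1 / DirichletCharacter.LFunction χ (s + vl σ u) -
      1 / DirichletCharacter.LFunction χ s) =
      KK Y₁ Y₂ σ u * (1 / DirichletCharacter.LFunction χ (s + vl σ u)) -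
      KK Y₁ Y₂ σ u * (1 / DirichletCharacter.LFunction χ s) := fun u => by ring
  constructor
  · simp_rw [e]
    exact hKL.sub hKc
  simp_rw [e]
  rw [integral_sub hKL hKc, ← smooth_sum_eq χ s hs Y₁ Y₂ σ hY1 hY2 h12 hσ, integral_mul_const]
  have h3 := integral_KK Y₁ Y₂ σ 1 hY1 hY2 hσ one_pos
  rw [kfun_inv Y₂ (h1.trans h12), kfun_inv Y₁ h1] at h3
  simp only [Complex.ofReal_one, Complex.one_cpow, one_mul] at h3
  rw [h3]
  ring

end Pool.Agent.H90
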