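import Mathlib
import Pool.Agent.H90.PNT

/-!
# Common lemmas on the smallest nonzero distance from 1 to unit fraction sums
-/

open Finset Filter Topology

namespace Pool.Agent.H90.UF

/-- The least nonzero distance between `1` and a sum of reciprocals of distinct integers
from `{1, …, N}`. -/
noncomputable def delta (N : ℕ) : ℝ :=
  sInf {x : ℝ | ∃ A : Finset ℕ, A ⊆ Finset.Icc 1 N ∧ x = |1 - ∑ n ∈ A, (1 : ℝ) / n| ∧ x ≠ 0}

lemma delta_set_finite (N : ℕ) : {x : ℝ | ∃ A : Finset ℕ, A ⊆ Finset.Icc 1 N ∧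
    x = |1 - ∑ n ∈ A, (1 : ℝ) / n| ∧ x ≠ 0}.Finite := by
  apply Set.Finite.subset (Set.Finite.image (fun A : Finset ℕ => |1 - ∑ n ∈ A, (1 : ℝ) / n|)
    (Finset.finite_toSet (Finset.Icc 1 N).powerset))
  rintro x ⟨A, hA, hx, _⟩
  exact ⟨A, Finset.mem_coe.mpr (Finset.mem_powerset.mpr hA), hx.symm⟩

lemma delta_set_nonempty (N : ℕ) : {x : ℝ | ∃ A : Finset ℕ, A ⊆ Finset.Icc 1 N ∧
    x = |1 - ∑ n ∈ A, (1 : ℝ) / n| ∧ x ≠ 0}.Nonempty :=
  ⟨1, ∅, by simp, by simp, one_ne_zero⟩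

/-- The infimum defining `delta` is attained. -/
lemma delta_attained (N : ℕ) : ∃ A : Finset ℕ, A ⊆ Finset.Icc 1 N ∧
    |1 - ∑ n ∈ A, (1 : ℝ) / n| = delta N ∧ |1 - ∑ n ∈ A, (1 : ℝ) / n| ≠ 0 := by
  obtain ⟨A, hA, hx, h0⟩ := (delta_set_nonempty N).csInf_mem (delta_set_finite N)
  exact ⟨A, hA, hx.symm, hx ▸ h0⟩

lemma delta_le (N : ℕ) (A : Finset ℕ) (hA : A ⊆ Finset.Icc 1 N)
    (h0 : |1 - ∑ n ∈ A, (1 : ℝ) / n| ≠ 0) : delta N ≤ |1 - ∑ n ∈ A, (1 : ℝ) / n| :=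
  csInf_le ⟨0, by rintro x ⟨A, _, hx, _⟩; rw [hx]; exact abs_nonneg _⟩ ⟨A, hA, rfl, h0⟩

lemma delta_pos (N : ℕ) : 0 < delta N := by
  obtain ⟨A, _, h, h0⟩ := delta_attained N
  rw [← h]
  exact lt_of_le_of_ne (abs_nonneg _) (Ne.symm h0)

/-- The arithmetic gap: if no prime of `P` divides an element of the symmetric difference of
`A` and `B`, the primes of `P` can be removed from the common denominator. -/
lemma gap (M : ℕ) (A B : Finset ℕ) (hA : A ⊆ Icc 1 M) (hB : B ⊆ Icc 1 M)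
    (hne : ∑ n ∈ A, (1 : ℝ) / n ≠ ∑ n ∈ B, (1 : ℝ) / n) (P : Finset ℕ)
    (hP : P ⊆ Nat.primesLE M)
    (hPn : ∀ p ∈ P, ∀ n, p ∣ n → (n ∈ A ↔ n ∈ B)) :
    Real.exp (-(Chebyshev.psi M - ∑ p ∈ P, Real.log p)) ≤
      |∑ n ∈ A, (1 : ℝ) / n - ∑ n ∈ B, (1 : ℝ) / n| := by
  set L := Nat.lcmUpto M with hL
  have hLpos : 0 < L := Nat.lcmUpto_pos M
  set R := ∏ p ∈ P, p with hR
  have hPprime : ∀ p ∈ P, p.Prime := fun p hp => Nat.prime_of_mem_primesLE (hP hp)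
  have hRpos : 0 < R := Finset.prod_pos fun p hp => (hPprime p hp).pos
  have hRdvd : R ∣ L := by
    refine dvd_trans ?_ (Nat.primorial_dvd_lcmUpto M)
    rw [primorial]
    apply Finset.prod_dvd_prod_of_subset
    intro p hp
    have h1 := hP hp
    rw [Finset.mem_filter, Finset.mem_range]
    exact ⟨Nat.lt_succ_of_le (Nat.le_of_mem_primesLE h1), Nat.prime_of_mem_primesLE h1⟩
  obtain ⟨L', hL'⟩ := hRdvd
  have hL'pos : 0 < L' := by
    rcases Nat.eq_zero_or_pos L' with h | h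
    · rw [h] at hL'; omega
    · exact h
  -- splitting off the common part
  have hsplit : ∑ n ∈ A, (1 : ℝ) / n - ∑ n ∈ B, (1 : ℝ) / n =
      ∑ n ∈ A \ B, (1 : ℝ) / n - ∑ n ∈ B \ A, (1 : ℝ) / n := by
    rw [← Finset.sum_inter_add_sum_sdiff A B, ← Finset.sum_inter_add_sum_sdiff B A,
      Finset.inter_comm B A]
    ring
  have hdvd : ∀ n, n ∈ Icc 1 M → ¬ (n ∈ A ↔ n ∈ B) → n ∣ L' := by
    intro n hn hnAB
    have h1 : n ∣ R * L' := by
      rw [← hL']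
      exact Finset.dvd_lcm hn
    have h2 : Nat.Coprime n R := by
      rw [hR]
      apply Nat.Coprime.prod_right
      intro p hp
      rw [Nat.coprime_comm, Nat.Prime.coprime_iff_not_dvd (hPprime p hp)]
      intro hpn
      exact hnAB (hPn p hp n hpn)
    exact h2.dvd_of_dvd_mul_left h1
  have hint : ∃ z : ℤ, (L' : ℝ) * (∑ n ∈ A, (1 : ℝ) / n - ∑ n ∈ B, (1 : ℝ) / n) = z := by
    refine ⟨∑ n ∈ A \ B, ((L' / n : ℕ) : ℤ) - ∑ n ∈ B \ A, ((L' / n : ℕ) : ℤ), ?_⟩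
    rw [hsplit, mul_sub, Finset.mul_sum, Finset.mul_sum, Int.cast_sub, Int.cast_sum, Int.cast_sum]
    congr 1
    · apply Finset.sum_congr rfl
      intro n hn
      rw [Finset.mem_sdiff] at hn
      have h1 := hdvd n (hA hn.1) (by tauto)
      have h2 : (n : ℝ) ≠ 0 := by
        have := (Finset.mem_Icc.mp (hA hn.1)).1
        positivity
      rw [Int.cast_natCast, Nat.cast_div h1 h2]
      ring
    · apply Finset.sum_congr rfl
      intro n hn
      rw [Finset.mem_sdiff] at hn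
      have h1 := hdvd n (hB hn.1) (by tauto)
      have h2 : (n : ℝ) ≠ 0 := by
        have := (Finset.mem_Icc.mp (hB hn.1)).1
        positivity
      rw [Int.cast_natCast, Nat.cast_div h1 h2]
      ring
  obtain ⟨z, hz⟩ := hint
  have hL'R : (0 : ℝ) < L' := by exact_mod_cast hL'pos
  have hz0 : z ≠ 0 := by
    intro h0
    rw [h0] at hz
    have : ∑ n ∈ A, (1 : ℝ) / n - ∑ n ∈ B, (1 : ℝ) / n = 0 := by
      have h3 : (L' : ℝ) * (∑ n ∈ A, (1 : ℝ) / n - ∑ n ∈ B, (1 : ℝ) / n) = 0 := by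
        simpa using hz
      exact (mul_eq_zero.mp h3).resolve_left hL'R.ne'
    exact hne (sub_eq_zero.mp this)
  have h1 : (1 : ℝ) ≤ L' * |∑ n ∈ A, (1 : ℝ) / n - ∑ n ∈ B, (1 : ℝ) / n| := by
    have h4 : |(L' : ℝ) * (∑ n ∈ A, (1 : ℝ) / n - ∑ n ∈ B, (1 : ℝ) / n)| = |(z : ℝ)| := by
      rw [hz]
    rw [abs_mul, abs_of_pos hL'R] at h4
    rw [h4]
    exact_mod_cast Int.one_le_abs hz0
  have h2 : Real.exp (-(Chebyshev.psi M - ∑ p ∈ P, Real.log p)) = 1 / L' := by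
    rw [Chebyshev.psi_eq_log_lcmUpto, ← hL]
    have h5 : ∑ p ∈ P, Real.log p = Real.log R := by
      rw [hR]
      push_cast
      rw [Real.log_prod]
      intro p hp
      have := (hPprime p hp).pos
      positivity
    have hLR : (L : ℝ) = R * L' := by exact_mod_cast hL'
    have hRR : (0 : ℝ) < R := by exact_mod_cast hRpos
    rw [h5, hLR, Real.log_mul hRR.ne' hL'R.ne']
    have : -(Real.log R + Real.log L' - Real.log R) = -Real.log L' := by ring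
    rw [this, Real.exp_neg, Real.exp_log hL'R, one_div]
  rw [h2, div_le_iff₀ hL'R, mul_comm]
  exact h1

end Pool.Agent.H90.UF
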